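import Pool.Agent.H430.MixMain

set_option linter.all false

namespace Mix430

open Finset Matrix

section

variable {V : Type*} [Fintype V] [DecidableEq V] {G : SimpleGraph V} [DecidableRel G.Adj]
  {l : Fin (Fintype.card V) → ℝ} {φ : Fin (Fintype.card V) → V → ℝ}

/-- average (over the stationary starting point) of the squared `L²` distance at time `t` -/
noncomputable def avgL2 {V : Type*} [Fintype V] [DecidableEq V] (G : SimpleGraph V)
    [DecidableRel G.Adj] (t : ℕ) : ℝ :=
  ∑ x, statPi G x * ∑ y, statPi G y * ((lazyP G ^ t) x y / statPi G y - 1) ^ 2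

theorem split_sum [Nonempty V] (hpos : ∀ x, 0 < G.degree x) (h : Spec (Sm G) l φ) (t : ℕ) :
    ∑ i, l i ^ t = 1 + ∑ i : Fin (Fintype.card V), (if i.val = 0 then 0 else l i ^ t) := by
  have hcard : 0 < Fintype.card V := Fintype.card_pos
  have h7 : ∑ i : Fin (Fintype.card V), l i ^ t =
      ∑ i : Fin (Fintype.card V), (if i.val = 0 then l i ^ t else 0) +
      ∑ i : Fin (Fintype.card V), (if i.val = 0 then 0 else l i ^ t) := by
    rw [← Finset.sum_add_distrib]
    apply Finset.sum_congr rfl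
    intro i _
    split_ifs <;> simp
  have h8 : ∑ i : Fin (Fintype.card V), (if i.val = 0 then l i ^ t else 0) = 1 := by
    rw [Finset.sum_eq_single (⟨0, hcard⟩ : Fin (Fintype.card V))]
    · rw [if_pos rfl, eig_top hpos h _ rfl, one_pow]
    · intro i _ hi
      rw [if_neg]
      intro h0
      exact hi (Fin.ext h0)
    · intro h0; exact absurd (Finset.mem_univ _) h0
  rw [h7, h8]

theorem Sm_nonneg (x y : V) : 0 ≤ Sm G x y := by
  unfold Sm
  split_ifs <;> positivity

theorem Sm_pow_nonneg (t : ℕ) (x y : V) : 0 ≤ (Sm G ^ t) x y := by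
  induction t generalizing y with
  | zero =>
    rw [pow_zero, Matrix.one_apply]
    split_ifs <;> norm_num
  | succ t ih =>
    rw [pow_succ, Matrix.mul_apply]
    exact Finset.sum_nonneg fun z _ => mul_nonneg (ih z) (Sm_nonneg z y)

theorem Sm_pow_diag (t : ℕ) (x : V) : (1/2 : ℝ) ^ t ≤ (Sm G ^ t) x x := by
  induction t with
  | zero => simp
  | succ t ih =>
    rw [pow_succ, pow_succ, Matrix.mul_apply]
    have h1 : (Sm G ^ t) x x * Sm G x x ≤ ∑ z, (Sm G ^ t) x z * Sm G z x :=
      Finset.single_le_sum (f := fun z => (Sm G ^ t) x z * Sm G z x)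
        (fun z _ => mul_nonneg (Sm_pow_nonneg t x z) (Sm_nonneg z x)) (Finset.mem_univ x)
    have h2 : Sm G x x = 1/2 := by unfold Sm; rw [if_pos rfl]
    rw [h2] at h1
    linarith

theorem card_of_trace (h : Spec (Sm G) l φ) (t : ℕ) (ht : 1 ≤ t) (hs : ∑ i, l i ^ t ≤ 5/4) :
    (Fintype.card V : ℝ) ≤ 4 ^ t := by
  rw [← h.trace_pow Sm_symm] at hs
  have h1 : ∑ x : V, (1/2 : ℝ) ^ t ≤ ∑ x, (Sm G ^ t) x x :=
    Finset.sum_le_sum fun x _ => Sm_pow_diag t x
  rw [Finset.sum_const, nsmul_eq_mul, Finset.card_univ] at h1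
  have h2 : (Fintype.card V : ℝ) * (1/2) ^ t ≤ 5/4 := h1.trans hs
  have h3 : (1/2 : ℝ) ^ t * 2 ^ t = 1 := by
    rw [← mul_pow]; norm_num
  have h4 : (Fintype.card V : ℝ) = (Fintype.card V : ℝ) * (1/2) ^ t * 2 ^ t := by
    rw [mul_assoc, h3, mul_one]
  have h5 : (0 : ℝ) < 2 ^ t := by positivity
  have h6 : (2 : ℝ) ≤ 2 ^ t := by
    calc (2 : ℝ) = 2 ^ 1 := (pow_one _).symm
      _ ≤ 2 ^ t := pow_le_pow_right₀ (by norm_num) ht
  have h7 : (4 : ℝ) ^ t = 2 ^ t * 2 ^ t := by
    rw [← mul_pow]; norm_num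
  rw [h4, h7]
  nlinarith

theorem trace_pos [Nontrivial V] (t : ℕ) (hs : ∑ i, l i ^ t ≤ 5/4) : 1 ≤ t := by
  by_contra hlt
  have ht : t = 0 := by omega
  subst ht
  simp only [pow_zero, Finset.sum_const, nsmul_eq_mul, mul_one, Finset.card_univ,
    Fintype.card_fin] at hs
  have h1 : 1 < Fintype.card V := Fintype.one_lt_card
  have h2 : (2 : ℝ) ≤ Fintype.card V := by exact_mod_cast h1
  linarith

theorem lazyP_row (hpos : ∀ x, 0 < G.degree x) (x : V) : ∑ y, lazyP G x y = 1 := by
  have hdR : (0 : ℝ) < G.degree x := by exact_mod_cast hpos x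
  have h1 : ∀ y, lazyP G x y = (if x = y then 1/2 else 0) +
      (if G.Adj x y then 1/(2 * (G.degree x : ℝ)) else 0) := by
    intro y
    unfold lazyP
    by_cases hxy : x = y
    · subst hxy
      rw [if_pos rfl, if_pos rfl, if_neg (G.irrefl), add_zero]
    · rw [if_neg hxy, if_neg hxy, zero_add]
  simp_rw [h1, Finset.sum_add_distrib]
  rw [← Finset.sum_filter (fun y => G.Adj x y), Finset.sum_const, nsmul_eq_mul]
  have h2 : (univ.filter (fun y => G.Adj x y)).card = G.degree x := by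
    rw [← SimpleGraph.card_neighborFinset_eq_degree]
    congr 1
    ext y
    simp
  rw [h2]
  simp only [Finset.sum_ite_eq, Finset.mem_univ, if_true]
  field_simp
  norm_num

theorem lazyP_pow_row (hpos : ∀ x, 0 < G.degree x) (s : ℕ) (x : V) :
    ∑ y, (lazyP G ^ s) x y = 1 := by
  induction s with
  | zero => simp [Matrix.one_apply]
  | succ s ih =>
    simp_rw [pow_succ, Matrix.mul_apply]
    rw [Finset.sum_comm]
    simp_rw [← Finset.mul_sum, lazyP_row hpos, mul_one]
    exact ih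

theorem statPi_sum [Nonempty V] (hpos : ∀ x, 0 < G.degree x) : ∑ x, statPi G x = 1 := by
  unfold statPi
  rw [← Finset.sum_div, div_self (sum_deg_pos hpos).ne']

theorem statPi_pos [Nonempty V] (hpos : ∀ x, 0 < G.degree x) (x : V) : 0 < statPi G x :=
  div_pos (by exact_mod_cast hpos x) (sum_deg_pos hpos)

theorem avgL2_eq [Nonempty V] (hpos : ∀ x, 0 < G.degree x) (h : Spec (Sm G) l φ) (t : ℕ) :
    avgL2 G t = ∑ i, l i ^ (t + t) - 1 := by
  have hs : ∀ x, 0 < Real.sqrt (G.degree x) := fun x =>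
    Real.sqrt_pos.2 (by exact_mod_cast hpos x)
  have hs2 : ∀ x, Real.sqrt (G.degree x) ^ 2 = G.degree x := fun x =>
    Real.sq_sqrt (by positivity)
  have hW := sum_deg_pos hpos
  have hpi := statPi_pos hpos
  have h1 : ∀ x, statPi G x * ∑ y, statPi G y * ((lazyP G ^ t) x y / statPi G y - 1) ^ 2 =
      ∑ y, (Sm G ^ t) x y * (Sm G ^ t) y x - statPi G x := by
    intro x
    have h2 : ∀ y, statPi G y * ((lazyP G ^ t) x y / statPi G y - 1) ^ 2 =
        (lazyP G ^ t) x y ^ 2 / statPi G y - 2 * (lazyP G ^ t) x y + statPi G y := by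
      intro y
      have := (hpi y).ne'
      field_simp
      ring
    simp_rw [h2, Finset.sum_add_distrib, Finset.sum_sub_distrib, ← Finset.mul_sum]
    rw [lazyP_pow_row hpos, statPi_sum hpos]
    have h3 : statPi G x * ∑ y, (lazyP G ^ t) x y ^ 2 / statPi G y =
        ∑ y, (Sm G ^ t) x y * (Sm G ^ t) y x := by
      rw [Finset.mul_sum]
      apply Finset.sum_congr rfl
      intro y _
      rw [lazyP_pow hpos, Sm_pow_symm t y x]
      unfold statPi
      rw [← hs2 x, ← hs2 y]
      have hx := (hs x).ne'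
      have hy := (hs y).ne'
      have hWn := hW.ne'
      rw [Real.sqrt_sq (hs x).le, Real.sqrt_sq (hs y).le]
      field_simp
    linarith
  unfold avgL2
  simp_rw [h1]
  rw [Finset.sum_sub_distrib, statPi_sum hpos, ← h.trace_pow Sm_symm]
  congr 1
  apply Finset.sum_congr rfl
  intro x _
  rw [pow_add, Matrix.mul_apply]

theorem avg_of_mixed [Nonempty V] (hpos : ∀ x, 0 < G.degree x) (t : ℕ) (hm : Mixed G t) :
    avgL2 G t ≤ 1/4 := by
  have hpi := statPi_pos hpos
  have h1 : ∀ x, ∑ y, statPi G y * ((lazyP G ^ t) x y / statPi G y - 1) ^ 2 ≤ 1/4 := by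
    intro x
    calc ∑ y, statPi G y * ((lazyP G ^ t) x y / statPi G y - 1) ^ 2
        ≤ ∑ y, statPi G y * (1/4) := by
          apply Finset.sum_le_sum
          intro y _
          apply mul_le_mul_of_nonneg_left _ (hpi y).le
          have h2 := abs_le.1 (hm x y)
          nlinarith [h2.1, h2.2]
      _ = 1/4 := by rw [← Finset.sum_mul, statPi_sum hpos, one_mul]
  calc avgL2 G t ≤ ∑ x, statPi G x * (1/4) :=
        Finset.sum_le_sum fun x _ => mul_le_mul_of_nonneg_left (h1 x) (hpi x).le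
    _ = 1/4 := by rw [← Finset.sum_mul, statPi_sum hpos, one_mul]

theorem trace_of_mixed [Nonempty V] (hpos : ∀ x, 0 < G.degree x) (h : Spec (Sm G) l φ) {t : ℕ}
    (hm : Mixed G t) : ∑ i, l i ^ t ≤ 5/4 := by
  rw [split_sum hpos h]
  have := mixed_trace hpos h hm
  linarith

end

end Mix430
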