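import Pool.Agent.H430.MixSpec

set_option linter.all false

namespace Mix430

open Finset Matrix

section graph

variable {V : Type*} [Fintype V] [DecidableEq V] (G : SimpleGraph V) [DecidableRel G.Adj]

/-- ball -/
noncomputable def ball (x : V) (r : ℕ) : Finset V := univ.filter (fun y => G.dist x y ≤ r)

theorem mem_ball {x y : V} {r : ℕ} : y ∈ ball G x r ↔ G.dist x y ≤ r := by
  simp [ball]

variable {G}

theorem exists_prev (hG : G.Connected) {x z : V} {r : ℕ} (h : G.dist x z = r + 1) :
    ∃ y, G.Adj z y ∧ G.dist x y ≤ r := by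
  obtain ⟨p, hp⟩ := hG.exists_walk_length_eq_dist z x
  rw [SimpleGraph.dist_comm] at h
  cases p with
  | nil =>
    rw [SimpleGraph.dist_self] at h
    omega
  | @cons _ y _ hadj q =>
    refine ⟨y, hadj, ?_⟩
    rw [SimpleGraph.dist_comm]
    have h1 := SimpleGraph.dist_le q
    rw [SimpleGraph.Walk.length_cons] at hp
    omega

theorem card_ball (hG : G.Connected) {D : ℕ} (hD : ∀ x, G.degree x ≤ D) (x : V) (r : ℕ) :
    (ball G x r).card ≤ (D + 1) ^ r := by
  induction r with
  | zero =>
    have : ball G x 0 ⊆ {x} := by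
      intro y hy
      rw [mem_ball, Nat.le_zero, hG.dist_eq_zero_iff] at hy
      simp [hy]
    simpa using Finset.card_le_card this
  | succ r ih =>
    have hsub : ball G x (r+1) ⊆ (ball G x r).biUnion (fun y => insert y (G.neighborFinset y)) := by
      intro z hz
      rw [mem_ball] at hz
      rw [Finset.mem_biUnion]
      rcases Nat.lt_or_ge (G.dist x z) (r+1) with h | h
      · exact ⟨z, (mem_ball G).2 (by omega), Finset.mem_insert_self _ _⟩
      · obtain ⟨y, hy1, hy2⟩ := exists_prev hG (le_antisymm hz h)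
        refine ⟨y, (mem_ball G).2 hy2, Finset.mem_insert_of_mem ?_⟩
        rw [SimpleGraph.mem_neighborFinset]
        exact hy1.symm
    calc (ball G x (r+1)).card ≤ _ := Finset.card_le_card hsub
      _ ≤ (ball G x r).card * (D + 1) := by
        apply Finset.card_biUnion_le_card_mul
        intro y _
        refine (Finset.card_insert_le _ _).trans ?_
        rw [SimpleGraph.card_neighborFinset_eq_degree]
        have := hD y
        omega
      _ ≤ (D + 1) ^ r * (D + 1) := Nat.mul_le_mul_right _ ih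
      _ = _ := (pow_succ _ _).symm

variable (G) in
/-- local energy -/
noncomputable def en (h : V → ℝ) (u : V) : ℝ := ∑ v, if G.Adj u v then (h u - h v) ^ 2 else 0

variable (G) in
/-- Dirichlet energy -/
noncomputable def Dir (h : V → ℝ) : ℝ := ∑ u, en G h u

theorem en_nonneg (h : V → ℝ) (u : V) : 0 ≤ en G h u := by
  apply Finset.sum_nonneg
  intro v _
  split_ifs
  · exact sq_nonneg _
  · exact le_rfl

theorem en_ge {h : V → ℝ} {u v : V} (huv : G.Adj u v) : (h u - h v) ^ 2 ≤ en G h u := by
  have := Finset.single_le_sum (f := fun v => if G.Adj u v then (h u - h v) ^ 2 else 0)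
    (fun v _ => by
      show (0 : ℝ) ≤ if G.Adj u v then (h u - h v) ^ 2 else 0
      split_ifs
      · exact sq_nonneg _
      · exact le_rfl) (Finset.mem_univ v)
  simpa [huv, en] using this

theorem local_poincare (hG : G.Connected) (h : V → ℝ) (x : V) (L : ℕ) :
    ∀ y, G.dist x y ≤ L → (h x - h y) ^ 2 ≤ 4 ^ L * ∑ u ∈ ball G x L, en G h u := by
  have hnn : ∀ L, 0 ≤ ∑ u ∈ ball G x L, en G h u := fun L =>
    Finset.sum_nonneg fun u _ => en_nonneg h u
  have hmono : ∀ L, ∑ u ∈ ball G x L, en G h u ≤ ∑ u ∈ ball G x (L+1), en G h u := by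
    intro L
    apply Finset.sum_le_sum_of_subset_of_nonneg
    · intro u hu
      rw [mem_ball] at hu ⊢
      omega
    · intro u _ _; exact en_nonneg h u
  induction L with
  | zero =>
    intro y hy
    rw [Nat.le_zero, hG.dist_eq_zero_iff] at hy
    subst hy
    simpa using hnn 0
  | succ L ih =>
    intro y hy
    have h4 : (0 : ℝ) < 4 ^ L := by positivity
    have h41 : (1 : ℝ) ≤ 4 ^ L := one_le_pow₀ (by norm_num)
    rcases Nat.lt_or_ge (G.dist x y) (L+1) with hlt | hge
    · have h1 := ih y (by omega)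
      have h2 := mul_le_mul_of_nonneg_left (hmono L) h4.le
      have h3 := mul_nonneg h4.le (hnn (L+1))
      have h8 : (4 : ℝ) ^ (L+1) = 4 ^ L * 4 := pow_succ _ _
      rw [h8]
      nlinarith
    · obtain ⟨y', hy1, hy2⟩ := exists_prev hG (le_antisymm hy hge)
      have h1 := ih y' hy2
      have h2 : (h y' - h y) ^ 2 ≤ en G h y' := en_ge hy1.symm
      have h3 : en G h y' ≤ ∑ u ∈ ball G x L, en G h u :=
        Finset.single_le_sum (fun u _ => en_nonneg h u) ((mem_ball G).2 hy2)
      have h5 : (h x - h y) ^ 2 ≤ 2 * (h x - h y') ^ 2 + 2 * (h y' - h y) ^ 2 := by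
        nlinarith [sq_nonneg ((h x - h y') - (h y' - h y))]
      have h6 := hmono L
      have h7 := hnn L
      have h8 : (4 : ℝ) ^ (L+1) = 4 ^ L * 4 := pow_succ _ _
      set A := ∑ u ∈ ball G x L, en G h u with hA
      set A' := ∑ u ∈ ball G x (L+1), en G h u with hA'
      rw [h8]
      have h9 : (h x - h y) ^ 2 ≤ 2 * (4 ^ L * A) + 2 * A := by linarith
      have h10 : A ≤ 4 ^ L * A := le_mul_of_one_le_left h7 h41
      have h11 : 4 ^ L * A ≤ 4 ^ L * A' := mul_le_mul_of_nonneg_left h6 h4.le
      linarith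

variable (G) in
/-- the symmetrised transition matrix -/
noncomputable def Sm : Matrix V V ℝ := fun x y =>
  if x = y then 1/2 else if G.Adj x y then 1 / (2 * (Real.sqrt (G.degree x) * Real.sqrt (G.degree y)))
    else 0

theorem Sm_symm (x y : V) : Sm G x y = Sm G y x := by
  unfold Sm
  by_cases h : x = y
  · subst h; rfl
  · rw [if_neg h, if_neg (Ne.symm h)]
    by_cases ha : G.Adj x y
    · rw [if_pos ha, if_pos ha.symm, mul_comm (Real.sqrt (G.degree x))]
    · rw [if_neg ha, if_neg (fun hb => ha hb.symm)]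

theorem sum_adj_left (h : V → ℝ) :
    ∑ x, ∑ y, (if G.Adj x y then h x else 0) = ∑ x, (G.degree x : ℝ) * h x := by
  apply Finset.sum_congr rfl
  intro x _
  rw [← Finset.sum_filter, Finset.sum_const, nsmul_eq_mul]
  congr 2
  rw [← SimpleGraph.card_neighborFinset_eq_degree]
  congr 1
  ext y
  simp

theorem sum_adj_right (h : V → ℝ) :
    ∑ x, ∑ y, (if G.Adj x y then h y else 0) = ∑ x, (G.degree x : ℝ) * h x := by
  rw [Finset.sum_comm, ← sum_adj_left h]
  apply Finset.sum_congr rfl
  intro x _
  apply Finset.sum_congr rfl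
  intro y _
  simp only [SimpleGraph.adj_comm]

theorem Dir_eq (h : V → ℝ) : Dir G h = 2 * ∑ x, (G.degree x : ℝ) * h x ^ 2 -
    2 * ∑ x, ∑ y, (if G.Adj x y then h x * h y else 0) := by
  have h1 : Dir G h = ∑ x, ∑ y, ((if G.Adj x y then h x ^ 2 else 0) +
      (if G.Adj x y then h y ^ 2 else 0) - 2 * (if G.Adj x y then h x * h y else 0)) := by
    unfold Dir en
    apply Finset.sum_congr rfl
    intro x _
    apply Finset.sum_congr rfl
    intro y _
    split_ifs
    · ring
    · ring
  rw [h1]
  simp_rw [Finset.sum_sub_distrib, Finset.sum_add_distrib]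
  rw [sum_adj_left (fun x => h x ^ 2), sum_adj_right (fun x => h x ^ 2)]
  simp_rw [← Finset.mul_sum]
  ring

theorem Dir_nonneg (h : V → ℝ) : 0 ≤ Dir G h := Finset.sum_nonneg fun u _ => en_nonneg h u

theorem Dir_le (h : V → ℝ) : Dir G h ≤ 4 * ∑ x, (G.degree x : ℝ) * h x ^ 2 := by
  have h1 : Dir G h ≤ ∑ x, ∑ y, (2 * (if G.Adj x y then h x ^ 2 else 0) +
      2 * (if G.Adj x y then h y ^ 2 else 0)) := by
    unfold Dir en
    apply Finset.sum_le_sum
    intro x _
    apply Finset.sum_le_sum
    intro y _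
    split_ifs
    · nlinarith [sq_nonneg (h x + h y)]
    · simp
  refine h1.trans ?_
  simp_rw [Finset.sum_add_distrib, ← Finset.mul_sum]
  rw [sum_adj_left (fun x => h x ^ 2), sum_adj_right (fun x => h x ^ 2)]
  linarith

/-- energy identity -/
theorem form_eq (hpos : ∀ x, 0 < G.degree x) (h : V → ℝ) :
    ∑ x, ∑ y, Sm G x y * (Real.sqrt (G.degree x) * h x) * (Real.sqrt (G.degree y) * h y) =
      ∑ x, (G.degree x : ℝ) * h x ^ 2 - Dir G h / 4 := by
  have hs : ∀ x, 0 < Real.sqrt (G.degree x) := fun x =>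
    Real.sqrt_pos.2 (by exact_mod_cast hpos x)
  have hs2 : ∀ x, Real.sqrt (G.degree x) * Real.sqrt (G.degree x) = G.degree x := fun x =>
    Real.mul_self_sqrt (by positivity)
  have h1 : ∀ x y, Sm G x y * (Real.sqrt (G.degree x) * h x) * (Real.sqrt (G.degree y) * h y) =
      (if x = y then (1/2) * ((G.degree x : ℝ) * h x ^ 2) else 0) +
      (1/2) * (if G.Adj x y then h x * h y else 0) := by
    intro x y
    unfold Sm
    by_cases hxy : x = y
    · subst hxy
      rw [if_pos rfl, if_pos rfl, if_neg (G.irrefl)]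
      have := hs2 x
      nlinarith [hs2 x]
    · rw [if_neg hxy, if_neg hxy]
      by_cases ha : G.Adj x y
      · rw [if_pos ha, if_pos ha]
        have := (hs x).ne'
        have := (hs y).ne'
        field_simp
        ring
      · rw [if_neg ha, if_neg ha]; ring
  simp_rw [h1, Finset.sum_add_distrib]
  rw [Dir_eq]
  simp_rw [← Finset.mul_sum]
  have h2 : ∑ x, ∑ y, (if x = y then (1/2) * ((G.degree x : ℝ) * h x ^ 2) else 0) =
      (1/2) * ∑ x, (G.degree x : ℝ) * h x ^ 2 := by
    rw [Finset.mul_sum]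
    apply Finset.sum_congr rfl
    intro x _
    simp
  rw [h2]
  ring

end graph

end Mix430
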