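import Pool.Agent.H430.MixQI

set_option linter.all false

namespace Mix430

open Finset Matrix

theorem exp_bound (x : ℝ) (h0 : 0 ≤ x) (h1 : x ≤ 1/2) : Real.exp (-(4*x)) ≤ (1 - x)^2 := by
  have h2 : 1 + 2 * x ≤ Real.exp (2 * x) := by
    have := Real.add_one_le_exp (2 * x); linarith
  have h3 : 1 ≤ (1 - x) * Real.exp (2 * x) := by nlinarith
  have h4 : Real.exp (-(2*x)) ≤ 1 - x := by
    have h5 : Real.exp (-(2*x)) * Real.exp (2*x) = 1 := by
      rw [← Real.exp_add]; simp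
    have h6 := Real.exp_pos (-(2*x))
    nlinarith [Real.exp_pos (2*x)]
  have h7 : Real.exp (-(4*x)) = Real.exp (-(2*x)) ^ 2 := by
    rw [← Real.exp_nat_mul]; congr 1; push_cast; ring
  rw [h7]
  exact pow_le_pow_left₀ (Real.exp_pos _).le h4 2

theorem pow_le_exp' (l : ℝ) (hl : 0 ≤ l) (M : ℕ) : l ^ M ≤ Real.exp (-((M : ℝ) * (1 - l))) := by
  have h1 : l ≤ Real.exp (-(1 - l)) := by
    have := Real.add_one_le_exp (-(1 - l)); linarith
  calc l ^ M ≤ Real.exp (-(1 - l)) ^ M := pow_le_pow_left₀ hl h1 M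
    _ = _ := by rw [← Real.exp_nat_mul]; congr 1; ring

theorem small_term (l l' : ℝ) (N M : ℕ) (hN : 0 < N) (hl0 : 0 ≤ l) (hl1 : l ≤ 1) (hl' : l' ≤ 1)
    (hs : 1 - l ≤ 1 / (8 * (N : ℝ))) (h : 1 - l' ≤ 4 * (N : ℝ) * (1 - l)) (hM : 16 * N ≤ M) :
    l ^ M ≤ l' ^ 2 := by
  have hNR : (0 : ℝ) < N := by exact_mod_cast hN
  have hMR : 16 * (N : ℝ) ≤ M := by exact_mod_cast hM
  have h1 : 1 - l' ≤ 1 / 2 := by
    have h2 : 4 * (N : ℝ) * (1 - l) ≤ 4 * (N : ℝ) * (1 / (8 * (N : ℝ))) :=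
      mul_le_mul_of_nonneg_left hs (by positivity)
    have h3 : 4 * (N : ℝ) * (1 / (8 * (N : ℝ))) = 1 / 2 := by field_simp; norm_num
    linarith
  have h2 := exp_bound (1 - l') (by linarith) h1
  have h3 : (1 - (1 - l')) = l' := by ring
  rw [h3] at h2
  refine (pow_le_exp' l hl0 M).trans (le_trans (Real.exp_le_exp.2 ?_) h2)
  have h4 : 16 * (N : ℝ) * (1 - l) ≤ M * (1 - l) := mul_le_mul_of_nonneg_right hMR (by linarith)
  linarith

theorem large_term (l : ℝ) (N Q : ℕ) (hN : 0 < N) (hl0 : 0 ≤ l)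
    (hs : 1 / (8 * (N : ℝ)) ≤ 1 - l) : l ^ (8 * N * Q) ≤ 1 / ((Q : ℝ) + 1) := by
  have hNR : (0 : ℝ) < N := by exact_mod_cast hN
  have h1 : (Q : ℝ) ≤ ((8 * N * Q : ℕ) : ℝ) * (1 - l) := by
    have h2 : ((8 * N * Q : ℕ) : ℝ) * (1 / (8 * (N : ℝ))) = Q := by
      push_cast; field_simp
    have h3 : ((8 * N * Q : ℕ) : ℝ) * (1 / (8 * (N : ℝ))) ≤ ((8 * N * Q : ℕ) : ℝ) * (1 - l) :=
      mul_le_mul_of_nonneg_left hs (by positivity)
    linarith
  have h4 : Real.exp (-(((8 * N * Q : ℕ) : ℝ) * (1 - l))) ≤ Real.exp (-(Q : ℝ)) :=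
    Real.exp_le_exp.2 (by linarith)
  refine (pow_le_exp' l hl0 _).trans (h4.trans ?_)
  rw [Real.exp_neg, inv_eq_one_div]
  apply one_div_le_one_div_of_le (by positivity)
  exact Real.add_one_le_exp _

theorem mixed_of_consts {V : Type*} [Fintype V] [DecidableEq V] {G : SimpleGraph V}
    [DecidableRel G.Adj] {V' : Type*} [Fintype V'] [DecidableEq V'] {G' : SimpleGraph V'}
    [DecidableRel G'.Adj] [Nonempty V] [Nonempty V']
    (hG : G.Connected) (hG' : G'.Connected) {d D : ℕ} (hd0 : 0 < d)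
    (hd : ∀ x, G.degree x = d) (htr : ∀ x y, ∃ e : G ≃g G, e x = y)
    (hpos' : ∀ x, 0 < G'.degree x)
    (hD : ∀ x, G'.degree x ≤ D) (g : V' → V) (f0 : V → V') (L1 m L2 m2 : ℕ)
    (hm20 : 0 < m2)
    (hL1 : ∀ x' y', G'.Adj x' y' → G.dist (g x') (g y') ≤ L1)
    (hm : ∀ x, (univ.filter (fun a => g a = x)).card ≤ m)
    (hL2 : ∀ x, G.dist x (g (f0 x)) ≤ L2)
    (hm2 : ∀ x', (univ.filter (fun a => f0 a = x')).card ≤ m2)
    (K N Q : ℕ)
    (hK : K = D * 4 ^ L1 * m * (d + 1) ^ L1 + 4 * (4 ^ L2 * (d + 1) ^ L2))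
    (hN : N = m2 * d * K) (hQ : Q = 8 * m2 * (D + 1)) (t' : ℕ) (ht' : 1 ≤ t')
    (hmix : Mixed G' t') : Mixed G (8 * N * Q * t') := by
  have hpos : ∀ x, 0 < G.degree x := fun x => by rw [hd]; exact hd0
  obtain ⟨l, φ, h⟩ := exists_spec (Sm G) Sm_symm
  obtain ⟨l', φ', h'⟩ := exists_spec (Sm G') Sm_symm
  have hKpos : 0 < K := by rw [hK]; positivity
  have hNpos : 0 < N := by rw [hN]; positivity
  have hQ8 : 8 ≤ Q := by
    rw [hQ]
    have : 1 ≤ m2 * (D + 1) := Nat.mul_pos hm20 (Nat.succ_pos _)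
    nlinarith
  have hM16 : 16 * N ≤ 8 * N * Q := by nlinarith
  have hM2 : 8 * N * Q * t' = 4 * N * Q * t' + 4 * N * Q * t' := by ring
  have hcard : (Fintype.card V : ℝ) ≤ m2 * ((D : ℝ) + 1) ^ t' := by
    have h1 : Fintype.card V ≤ m2 * Fintype.card V' := by
      rw [← Finset.card_univ, ← Finset.card_univ]
      apply Finset.card_le_mul_card_image_of_maps_to (f := f0)
      · intro a _; exact Finset.mem_univ _
      · intro b _; exact hm2 b
    have h2 := mixed_card hG' hpos' hD hmix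
    have h3 : Fintype.card V ≤ m2 * (D + 1) ^ t' := h1.trans (Nat.mul_le_mul_left _ h2)
    exact_mod_cast h3
  let a : Fin (Fintype.card V') → ℝ := fun j => if j.val = 0 then 0 else l' j ^ t'
  have ha0 : ∀ j, 0 ≤ a j := by
    intro j
    simp only [a]
    split_ifs
    · exact le_rfl
    · exact pow_nonneg (eig_nonneg hpos' h' j) _
  have hasum : ∑ j, a j ≤ 1/4 := mixed_trace hpos' h' hmix
  have haj : ∀ j, a j ≤ 1/4 := fun j =>
    (Finset.single_le_sum (fun j _ => ha0 j) (Finset.mem_univ j)).trans hasum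
  have hasq : ∑ j, a j ^ 2 ≤ 1/16 := by
    calc ∑ j, a j ^ 2 ≤ ∑ j, 1/4 * a j := by
          apply Finset.sum_le_sum
          intro j _
          nlinarith [ha0 j, haj j]
      _ = 1/4 * ∑ j, a j := by rw [Finset.mul_sum]
      _ ≤ 1/16 := by linarith
  let F : ℕ → ℝ := fun k => if hk : k < Fintype.card V' then a ⟨k, hk⟩ ^ 2 else 0
  have hF0 : ∀ k, 0 ≤ F k := by
    intro k
    simp only [F]
    split_ifs
    · exact sq_nonneg _
    · exact le_rfl
  have hFsum : ∑ i : Fin (Fintype.card V), F i.val ≤ 1/16 := by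
    have h1 : ∑ j : Fin (Fintype.card V'), a j ^ 2 = ∑ k ∈ range (Fintype.card V'), F k := by
      rw [← Fin.sum_univ_eq_sum_range]
      apply Finset.sum_congr rfl
      intro j _
      simp only [F]
      rw [dif_pos j.isLt]
    have h2 : ∑ i : Fin (Fintype.card V), F i.val = ∑ k ∈ range (Fintype.card V), F k :=
      Fin.sum_univ_eq_sum_range F _
    have h3 : ∑ k ∈ range (Fintype.card V), F k ≤
        ∑ k ∈ range (max (Fintype.card V) (Fintype.card V')), F k :=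
      Finset.sum_le_sum_of_subset_of_nonneg
        (Finset.range_subset_range.2 (le_max_left _ _)) (fun k _ _ => hF0 k)
    have h4 : ∑ k ∈ range (Fintype.card V'), F k =
        ∑ k ∈ range (max (Fintype.card V) (Fintype.card V')), F k := by
      apply Finset.sum_subset (Finset.range_subset_range.2 (le_max_right _ _))
      intro k _ hk
      rw [Finset.mem_range] at hk
      simp only [F]
      rw [dif_neg hk]
    rw [h2]
    linarith
  set r : ℝ := (1 / ((Q : ℝ) + 1)) ^ t' with hr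
  have hr0 : 0 ≤ r := by positivity
  have hterm : ∀ i : Fin (Fintype.card V), l i ^ (8 * N * Q * t') ≤
      (if i.val = 0 then 1 else 0) + F i.val + r := by
    intro i
    have hl0 := eig_nonneg hpos h i
    have hl1 := eig_le_one hpos h i
    by_cases hi0 : i.val = 0
    · rw [if_pos hi0]
      have h1 : l i ^ (8 * N * Q * t') ≤ 1 := pow_le_one₀ hl0 hl1
      have := hF0 i.val
      linarith
    · rw [if_neg hi0, zero_add]
      rw [pow_mul]
      by_cases hs : 1 - l i ≤ 1 / (8 * (N : ℝ))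
      · obtain ⟨j, hj1, hj2⟩ := qi_compare hG hd0 (fun x => (hd x).le) hpos hpos' hD g f0 L1 m L2 m2
          hm20 hL1 hm hL2 hm2 h h' K N hK hN i hs
        have h1 := small_term (l i) (l' j) N (8 * N * Q) hNpos hl0 hl1 (eig_le_one hpos' h' j)
          hs hj2 hM16
        have h2 : (l i ^ (8 * N * Q)) ^ t' ≤ (l' j ^ 2) ^ t' :=
          pow_le_pow_left₀ (pow_nonneg hl0 _) h1 t'
        have h3 : F i.val = (l' j ^ 2) ^ t' := by
          simp only [F]
          have hlt : i.val < Fintype.card V' := by rw [← hj1]; exact j.isLt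
          rw [dif_pos hlt]
          have hje : (⟨i.val, hlt⟩ : Fin (Fintype.card V')) = j := Fin.ext hj1.symm
          rw [hje]
          simp only [a]
          rw [if_neg (by rw [hj1]; exact hi0), ← pow_mul, ← pow_mul, mul_comm]
        linarith
      · have h1 := large_term (l i) N Q hNpos hl0 (not_le.1 hs).le
        have h2 : (l i ^ (8 * N * Q)) ^ t' ≤ r := pow_le_pow_left₀ (pow_nonneg hl0 _) h1 t'
        have := hF0 i.val
        linarith
  have hrc : (Fintype.card V : ℝ) * r ≤ 1/8 := by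
    have hm2R : (0 : ℝ) < m2 := by exact_mod_cast hm20
    have hm21 : (1 : ℝ) ≤ m2 := by exact_mod_cast hm20
    have hDR : (0 : ℝ) < (D : ℝ) + 1 := by positivity
    have h1 : 1 / ((Q : ℝ) + 1) ≤ 1 / (8 * (m2 : ℝ)) * (1 / ((D : ℝ) + 1)) := by
      rw [one_div_mul_one_div]
      apply one_div_le_one_div_of_le (by positivity)
      rw [hQ]; push_cast; linarith
    have h2 : r ≤ (1 / (8 * (m2 : ℝ))) ^ t' * (1 / ((D : ℝ) + 1)) ^ t' := by
      rw [← mul_pow]
      exact pow_le_pow_left₀ (by positivity) h1 t'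
    have h3 : (1 / (8 * (m2 : ℝ))) ^ t' ≤ 1 / (8 * (m2 : ℝ)) := by
      apply pow_le_of_le_one (by positivity) _ (by omega)
      rw [div_le_one (by positivity)]
      linarith
    have h4 : r ≤ 1 / (8 * (m2 : ℝ)) * (1 / ((D : ℝ) + 1)) ^ t' :=
      h2.trans (mul_le_mul_of_nonneg_right h3 (by positivity))
    calc (Fintype.card V : ℝ) * r ≤ (m2 * ((D : ℝ) + 1) ^ t') *
          (1 / (8 * (m2 : ℝ)) * (1 / ((D : ℝ) + 1)) ^ t') :=
          mul_le_mul hcard h4 hr0 (by positivity)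
      _ = 1/8 := by
        rw [_root_.one_div_pow]
        have := (pow_pos hDR t').ne'
        field_simp
  have hone : ∑ i : Fin (Fintype.card V), (if i.val = 0 then (1 : ℝ) else 0) = 1 := by
    have hcp : 0 < Fintype.card V := Fintype.card_pos
    rw [Finset.sum_eq_single (⟨0, hcp⟩ : Fin (Fintype.card V))]
    · rw [if_pos rfl]
    · intro i _ hi
      rw [if_neg]
      intro h0
      exact hi (Fin.ext h0)
    · intro h0; exact absurd (Finset.mem_univ _) h0
  have htot : ∑ i, l i ^ (8 * N * Q * t') ≤ 5/4 := by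
    have h1 : ∑ i, l i ^ (8 * N * Q * t') ≤ ∑ i : Fin (Fintype.card V),
        ((if i.val = 0 then (1 : ℝ) else 0) + F i.val + r) :=
      Finset.sum_le_sum fun i _ => hterm i
    rw [Finset.sum_add_distrib, Finset.sum_add_distrib, hone, Finset.sum_const, nsmul_eq_mul,
      Finset.card_univ, Fintype.card_fin] at h1
    linarith
  rw [hM2] at htot ⊢
  exact transitive_mixed hd0 hd htr h (4 * N * Q * t') htot

/-- `f` is an `(a,b)`-quasi-isometry from `G` to `G'` -/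
structure IsQI {V V' : Type*} (a b : ℝ) (G : SimpleGraph V) (G' : SimpleGraph V') (f : V → V') :
    Prop where
  lower : ∀ x y, a⁻¹ * (G.dist x y : ℝ) - b ≤ (G'.dist (f x) (f y) : ℝ)
  upper : ∀ x y, (G'.dist (f x) (f y) : ℝ) ≤ a * (G.dist x y : ℝ) + b
  dense : ∀ x', ∃ x, (G'.dist x' (f x) : ℝ) ≤ b

theorem mixed_of_QI (a b : ℝ) (ha : 1 ≤ a) (hb : 0 ≤ b) (d D : ℕ) :
    ∃ C : ℕ, 0 < C ∧ ∀ {V V' : Type*} [Fintype V] [DecidableEq V] [Nontrivial V]
      [Fintype V'] [DecidableEq V'] [Nontrivial V'] (G : SimpleGraph V) [DecidableRel G.Adj]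
      (G' : SimpleGraph V') [DecidableRel G'.Adj],
      G.Connected → (∀ x y, ∃ e : G ≃g G, e x = y) → (∀ x, G.degree x = d) →
      G'.Connected → (∀ x, G'.degree x ≤ D) → (∃ f : V → V', IsQI a b G G' f) →
      ∀ t : ℕ, Mixed G' t → Mixed G (C * t) := by
  have ha0 : 0 < a := by linarith
  rcases Nat.eq_zero_or_pos d with hd0 | hd0
  · refine ⟨1, one_pos, ?_⟩
    intro V V' _ _ _ _ _ _ G _ G' _ hG _ hd _ _ _ t _
    obtain ⟨x⟩ := (inferInstance : Nonempty V)
    have h1 := hG.preconnected.degree_pos_of_nontrivial x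
    rw [hd, hd0] at h1
    exact absurd h1 (lt_irrefl _)
  let L1 : ℕ := ⌈a * (1 + 3 * b)⌉₊
  let L2 : ℕ := ⌈a * (2 * b)⌉₊
  let m : ℕ := (D + 1) ^ ⌈b⌉₊
  let m2 : ℕ := (d + 1) ^ ⌈a * b⌉₊
  let K : ℕ := D * 4 ^ L1 * m * (d + 1) ^ L1 + 4 * (4 ^ L2 * (d + 1) ^ L2)
  let N : ℕ := m2 * d * K
  let Q : ℕ := 8 * m2 * (D + 1)
  have hm20 : 0 < m2 := Nat.pow_pos (Nat.succ_pos _)
  have hKpos : 0 < K := Nat.add_pos_right _ (by positivity)
  have hNpos : 0 < N := Nat.mul_pos (Nat.mul_pos hm20 hd0) hKpos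
  have hQpos : 0 < Q := Nat.mul_pos (Nat.mul_pos (by norm_num) hm20) (Nat.succ_pos _)
  refine ⟨8 * N * Q, Nat.mul_pos (Nat.mul_pos (by norm_num) hNpos) hQpos, ?_⟩
  intro V V' _ _ _ _ _ _ G _ G' _ hG htr hd hG' hD hf t hmix
  obtain ⟨f0, hf⟩ := hf
  choose g hg using hf.dense
  have hlow : ∀ x y, (G.dist x y : ℝ) ≤ a * ((G'.dist (f0 x) (f0 y) : ℝ) + b) := by
    intro x y
    have h1 := hf.lower x y
    have h2 : a * (a⁻¹ * (G.dist x y : ℝ)) = G.dist x y := by
      rw [← mul_assoc, mul_inv_cancel₀ ha0.ne', one_mul]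
    have h3 := mul_le_mul_of_nonneg_left h1 ha0.le
    rw [mul_sub, h2] at h3
    linarith
  have hpos' : ∀ x, 0 < G'.degree x := fun x => hG'.preconnected.degree_pos_of_nontrivial x
  have htri : ∀ x y z : V', (G'.dist x z : ℝ) ≤ G'.dist x y + G'.dist y z := by
    intro x y z
    exact_mod_cast hG'.dist_triangle (u := x) (v := y) (w := z)
  have hL1 : ∀ x' y', G'.Adj x' y' → G.dist (g x') (g y') ≤ L1 := by
    intro x' y' hadj
    have h1 := hlow (g x') (g y')
    have h2 := htri (f0 (g x')) x' (f0 (g y'))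
    have h3 := htri x' y' (f0 (g y'))
    have h4 : (G'.dist x' y' : ℝ) = 1 := by
      exact_mod_cast SimpleGraph.dist_eq_one_iff_adj.2 hadj
    have h5 := hg x'
    have h6 := hg y'
    have h7 : (G'.dist (f0 (g x')) x' : ℝ) ≤ b := by rw [SimpleGraph.dist_comm]; exact h5
    have h8 : a * ((G'.dist (f0 (g x')) (f0 (g y')) : ℝ) + b) ≤ a * (1 + 3 * b) :=
      mul_le_mul_of_nonneg_left (by linarith) ha0.le
    have h9 : (G.dist (g x') (g y') : ℝ) ≤ (L1 : ℝ) :=
      (h1.trans h8).trans (Nat.le_ceil _)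
    exact_mod_cast h9
  have hL2 : ∀ x, G.dist x (g (f0 x)) ≤ L2 := by
    intro x
    have h1 := hlow x (g (f0 x))
    have h2 := hg (f0 x)
    have h8 : a * ((G'.dist (f0 x) (f0 (g (f0 x))) : ℝ) + b) ≤ a * (2 * b) :=
      mul_le_mul_of_nonneg_left (by linarith) ha0.le
    have h9 : (G.dist x (g (f0 x)) : ℝ) ≤ (L2 : ℝ) :=
      (h1.trans h8).trans (Nat.le_ceil _)
    exact_mod_cast h9
  have hm : ∀ x, (univ.filter (fun a => g a = x)).card ≤ m := by
    intro x
    refine le_trans (Finset.card_le_card ?_) (card_ball hG' hD (f0 x) ⌈b⌉₊)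
    intro x' hx'
    rw [Finset.mem_filter] at hx'
    rw [mem_ball]
    have h1 := hg x'
    rw [hx'.2, SimpleGraph.dist_comm] at h1
    have h2 : (G'.dist (f0 x) x' : ℝ) ≤ (⌈b⌉₊ : ℝ) := h1.trans (Nat.le_ceil _)
    exact_mod_cast h2
  have hm2 : ∀ x', (univ.filter (fun a => f0 a = x')).card ≤ m2 := by
    intro x'
    by_cases hne : (univ.filter (fun a => f0 a = x')).Nonempty
    · obtain ⟨x0, hx0⟩ := hne
      refine le_trans (Finset.card_le_card ?_) (card_ball hG (fun x => (hd x).le) x0 ⌈a * b⌉₊)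
      intro x hx
      rw [Finset.mem_filter] at hx hx0
      rw [mem_ball]
      have h1 := hlow x0 x
      rw [hx.2, hx0.2, SimpleGraph.dist_self, Nat.cast_zero, zero_add] at h1
      have h2 : (G.dist x0 x : ℝ) ≤ (⌈a * b⌉₊ : ℝ) := h1.trans (Nat.le_ceil _)
      exact_mod_cast h2
    · rw [Finset.not_nonempty_iff_eq_empty] at hne
      rw [hne, Finset.card_empty]
      exact Nat.zero_le _
  exact mixed_of_consts hG hG' hd0 hd htr hpos' hD g f0 L1 m L2 m2 hm20 hL1 hm hL2 hm2 K N Q rfl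
    rfl rfl t (mixed_pos hmix) hmix

end Mix430
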