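import Pool.Agent.H430.MixWalk

set_option linter.all false

namespace Mix430

open Finset Matrix

section

variable {V : Type*} [Fintype V] [DecidableEq V] {G : SimpleGraph V} [DecidableRel G.Adj]
variable {V' : Type*} [Fintype V'] [DecidableEq V'] {G' : SimpleGraph V'} [DecidableRel G'.Adj]

theorem sum_comp_le {A B : Type*} [Fintype A] [Fintype B] [DecidableEq B] (g : A → B) (m : ℕ)
    (hm : ∀ x, (univ.filter (fun a => g a = x)).card ≤ m) (F : B → ℝ) (hF : ∀ x, 0 ≤ F x) :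
    ∑ a, F (g a) ≤ m * ∑ x, F x := by
  rw [← Finset.sum_fiberwise univ g (fun a => F (g a)), Finset.mul_sum]
  apply Finset.sum_le_sum
  intro x _
  have h1 : ∑ a ∈ univ.filter (fun a => g a = x), F (g a) =
      ∑ a ∈ univ.filter (fun a => g a = x), F x := by
    apply Finset.sum_congr rfl
    intro a ha
    rw [(Finset.mem_filter.1 ha).2]
  rw [h1, Finset.sum_const, nsmul_eq_mul]
  exact mul_le_mul_of_nonneg_right (by exact_mod_cast hm x) (hF x)

theorem sum_ball_le (hG : G.Connected) {d : ℕ} (hd : ∀ x, G.degree x ≤ d) (L : ℕ) (F : V → ℝ)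
    (hF : ∀ x, 0 ≤ F x) : ∑ x, ∑ u ∈ ball G x L, F u ≤ ((d : ℝ) + 1) ^ L * ∑ u, F u := by
  have h1 : ∀ x, ∑ u ∈ ball G x L, F u = ∑ u, if G.dist x u ≤ L then F u else 0 := by
    intro x
    unfold ball
    rw [Finset.sum_filter]
  simp_rw [h1]
  rw [Finset.sum_comm, Finset.mul_sum]
  apply Finset.sum_le_sum
  intro u _
  have h2 : ∑ x, (if G.dist x u ≤ L then F u else 0) = (ball G u L).card * F u := by
    rw [← Finset.sum_filter, Finset.sum_const, nsmul_eq_mul]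
    congr 2
    unfold ball
    congr 1
    ext x
    simp [SimpleGraph.dist_comm]
  rw [h2]
  apply mul_le_mul_of_nonneg_right _ (hF u)
  have h3 := card_ball hG hd u L
  exact_mod_cast h3

theorem dir_compare (hG : G.Connected) {d D : ℕ} (hd : ∀ x, G.degree x ≤ d)
    (hD : ∀ x, G'.degree x ≤ D) (g : V' → V) (L1 m : ℕ)
    (hL1 : ∀ x' y', G'.Adj x' y' → G.dist (g x') (g y') ≤ L1)
    (hm : ∀ x, (univ.filter (fun a => g a = x)).card ≤ m) (h : V → ℝ) :
    Dir G' (fun x' => h (g x')) ≤ (D : ℝ) * 4 ^ L1 * m * ((d : ℝ) + 1) ^ L1 * Dir G h := by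
  let F : V → ℝ := fun x => ∑ u ∈ ball G x L1, en G h u
  have hF : ∀ x, 0 ≤ F x := fun x => Finset.sum_nonneg fun u _ => en_nonneg h u
  have h1 : ∀ x', en G' (fun x' => h (g x')) x' ≤ (D : ℝ) * (4 ^ L1 * F (g x')) := by
    intro x'
    unfold en
    have h2 : ∑ v, (if G'.Adj x' v then (h (g x') - h (g v)) ^ 2 else 0) ≤
        ∑ v, (if G'.Adj x' v then 4 ^ L1 * F (g x') else 0) := by
      apply Finset.sum_le_sum
      intro v _
      split_ifs with hadj
      · exact local_poincare hG h (g x') L1 (g v) (hL1 x' v hadj)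
      · exact le_rfl
    refine h2.trans ?_
    rw [← Finset.sum_filter, Finset.sum_const, nsmul_eq_mul]
    apply mul_le_mul_of_nonneg_right _ (mul_nonneg (by positivity) (hF _))
    have h3 : (univ.filter (fun v => G'.Adj x' v)).card = G'.degree x' := by
      rw [← SimpleGraph.card_neighborFinset_eq_degree]
      congr 1
      ext y
      simp
    rw [h3]
    exact_mod_cast hD x'
  have h4 : Dir G' (fun x' => h (g x')) ≤ ∑ x', (D : ℝ) * (4 ^ L1 * F (g x')) :=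
    Finset.sum_le_sum fun x' _ => h1 x'
  have h5 := sum_comp_le g m hm F hF
  have h6 : ∑ x, F x ≤ ((d : ℝ) + 1) ^ L1 * Dir G h :=
    sum_ball_le hG hd L1 (en G h) (fun u => en_nonneg h u)
  calc Dir G' (fun x' => h (g x')) ≤ ∑ x', (D : ℝ) * (4 ^ L1 * F (g x')) := h4
    _ = (D : ℝ) * 4 ^ L1 * ∑ x', F (g x') := by
      rw [Finset.mul_sum]
      apply Finset.sum_congr rfl
      intro x' _
      ring
    _ ≤ (D : ℝ) * 4 ^ L1 * (m * (((d : ℝ) + 1) ^ L1 * Dir G h)) := by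
      apply mul_le_mul_of_nonneg_left _ (by positivity)
      exact h5.trans (mul_le_mul_of_nonneg_left h6 (by positivity))
    _ = _ := by ring

theorem norm_compare (hG : G.Connected) {d : ℕ} (hd : ∀ x, G.degree x ≤ d)
    (g : V' → V) (f0 : V → V') (L2 m2 : ℕ) (hL2 : ∀ x, G.dist x (g (f0 x)) ≤ L2)
    (hm2 : ∀ x', (univ.filter (fun a => f0 a = x')).card ≤ m2) (h : V → ℝ) :
    ∑ x, h x ^ 2 ≤ 2 * (m2 * ∑ x', h (g x') ^ 2) +
      2 * (4 ^ L2 * (((d : ℝ) + 1) ^ L2 * Dir G h)) := by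
  have h1 : ∀ x, h x ^ 2 ≤ 2 * h (g (f0 x)) ^ 2 + 2 * (4 ^ L2 * ∑ u ∈ ball G x L2, en G h u) := by
    intro x
    have h2 := local_poincare hG h x L2 (g (f0 x)) (hL2 x)
    nlinarith [sq_nonneg (h x - 2 * h (g (f0 x)))]
  have h3 : ∑ x, h x ^ 2 ≤ ∑ x, (2 * h (g (f0 x)) ^ 2 + 2 * (4 ^ L2 * ∑ u ∈ ball G x L2, en G h u)) :=
    Finset.sum_le_sum fun x _ => h1 x
  refine h3.trans ?_
  rw [Finset.sum_add_distrib, ← Finset.mul_sum, ← Finset.mul_sum, ← Finset.mul_sum]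
  have h4 := sum_comp_le f0 m2 hm2 (fun x' => h (g x') ^ 2) (fun x' => sq_nonneg _)
  have h5 := sum_ball_le hG hd L2 (en G h) (fun u => en_nonneg h u)
  have h6 : (4 : ℝ) ^ L2 * ∑ x, ∑ u ∈ ball G x L2, en G h u ≤
      4 ^ L2 * (((d : ℝ) + 1) ^ L2 * Dir G h) := mul_le_mul_of_nonneg_left h5 (by positivity)
  linarith

theorem qi_compare (hG : G.Connected) {d D : ℕ} (hd0 : 0 < d)
    (hd : ∀ x, G.degree x ≤ d) (hpos : ∀ x, 0 < G.degree x) (hpos' : ∀ x, 0 < G'.degree x)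
    (hD : ∀ x, G'.degree x ≤ D) (g : V' → V) (f0 : V → V') (L1 m L2 m2 : ℕ)
    (hm20 : 0 < m2)
    (hL1 : ∀ x' y', G'.Adj x' y' → G.dist (g x') (g y') ≤ L1)
    (hm : ∀ x, (univ.filter (fun a => g a = x)).card ≤ m)
    (hL2 : ∀ x, G.dist x (g (f0 x)) ≤ L2)
    (hm2 : ∀ x', (univ.filter (fun a => f0 a = x')).card ≤ m2)
    {l : Fin (Fintype.card V) → ℝ} {φ : Fin (Fintype.card V) → V → ℝ}
    {l' : Fin (Fintype.card V') → ℝ} {φ' : Fin (Fintype.card V') → V' → ℝ}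
    (h : Spec (Sm G) l φ) (h' : Spec (Sm G') l' φ') (K N : ℕ)
    (hK : K = D * 4 ^ L1 * m * (d + 1) ^ L1 + 4 * (4 ^ L2 * (d + 1) ^ L2))
    (hN : N = m2 * d * K)
    (i : Fin (Fintype.card V)) (hi : 1 - l i ≤ 1 / (8 * (N : ℝ))) :
    ∃ j : Fin (Fintype.card V'), j.val = i.val ∧ 1 - l' j ≤ 4 * (N : ℝ) * (1 - l i) := by
  have hs : ∀ x, 0 < Real.sqrt (G.degree x) := fun x =>
    Real.sqrt_pos.2 (by exact_mod_cast hpos x)
  have hs2 : ∀ x, Real.sqrt (G.degree x) ^ 2 = G.degree x := fun x =>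
    Real.sq_sqrt (by positivity)
  have hs2' : ∀ x, Real.sqrt (G'.degree x) ^ 2 = G'.degree x := fun x =>
    Real.sq_sqrt (by positivity)
  have hKpos : 0 < K := by rw [hK]; positivity
  have hKR : (0 : ℝ) < K := by exact_mod_cast hKpos
  have hdR : (0 : ℝ) < d := by exact_mod_cast hd0
  have hm2R : (0 : ℝ) < m2 := by exact_mod_cast hm20
  let T : (V → ℝ) →ₗ[ℝ] (V' → ℝ) :=
    { toFun := fun f x' => Real.sqrt (G'.degree x') * (f (g x') / Real.sqrt (G.degree (g x')))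
      map_add' := by
        intro f1 f2
        funext x'
        simp only [Pi.add_apply]
        ring
      map_smul' := by
        intro r f1
        funext x'
        simp only [Pi.smul_apply, smul_eq_mul, RingHom.id_apply]
        ring }
  have hT : ∀ (f : V → ℝ) x', T f x' = Real.sqrt (G'.degree x') *
      (f (g x') / Real.sqrt (G.degree (g x'))) := fun f x' => rfl
  have hf : ∀ (f : V → ℝ) x, Real.sqrt (G.degree x) * (f x / Real.sqrt (G.degree x)) = f x := by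
    intro f x
    have := (hs x).ne'
    field_simp
  have hEn : ∀ f : V → ℝ, ∑ x, f x ^ 2 - ∑ x, ∑ y, Sm G x y * f x * f y =
      Dir G (fun x => f x / Real.sqrt (G.degree x)) / 4 := by
    intro f
    have h1 := form_eq hpos (fun x => f x / Real.sqrt (G.degree x))
    simp only [hf] at h1
    have h2 : ∑ x, (G.degree x : ℝ) * (f x / Real.sqrt (G.degree x)) ^ 2 = ∑ x, f x ^ 2 := by
      apply Finset.sum_congr rfl
      intro x _
      have e1 : (G.degree x : ℝ) * (f x / Real.sqrt (G.degree x)) ^ 2 =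
          Real.sqrt (G.degree x) ^ 2 * (f x / Real.sqrt (G.degree x)) ^ 2 := by rw [hs2 x]
      rw [e1, ← mul_pow, hf]
    rw [h1, h2]; ring
  have hEn' : ∀ f : V → ℝ, ∑ x, T f x ^ 2 - ∑ x, ∑ y, Sm G' x y * T f x * T f y =
      Dir G' (fun x' => f (g x') / Real.sqrt (G.degree (g x'))) / 4 := by
    intro f
    have h1 := form_eq hpos' (fun x' => f (g x') / Real.sqrt (G.degree (g x')))
    simp only [← hT] at h1
    have h2 : ∑ x, (G'.degree x : ℝ) * (f (g x) / Real.sqrt (G.degree (g x))) ^ 2 =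
        ∑ x, T f x ^ 2 := by
      apply Finset.sum_congr rfl
      intro x _
      rw [← hs2' x, ← mul_pow, ← hT]
    rw [h1, h2]; ring
  have hKc : (K : ℝ) = (D : ℝ) * 4 ^ L1 * m * ((d : ℝ) + 1) ^ L1 +
      4 * (4 ^ L2 * ((d : ℝ) + 1) ^ L2) := by
    rw [hK]; push_cast; ring
  have hE : ∀ f, ∑ x, T f x ^ 2 - ∑ x, ∑ y, Sm G' x y * T f x * T f y ≤
      (K : ℝ) * (∑ x, f x ^ 2 - ∑ x, ∑ y, Sm G x y * f x * f y) := by
    intro f
    rw [hEn, hEn']
    have h1 := dir_compare hG hd hD g L1 m hL1 hm (fun x => f x / Real.sqrt (G.degree x))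
    have h2 := Dir_nonneg (G := G) (fun x => f x / Real.sqrt (G.degree x))
    have h3 : (0 : ℝ) ≤ 4 * (4 ^ L2 * ((d : ℝ) + 1) ^ L2) := by positivity
    have h4 := mul_nonneg h3 h2
    rw [hKc]
    linarith
  have hNn : ∀ f, 1 / (2 * (m2 : ℝ) * d) * ∑ x, f x ^ 2 ≤ ∑ x, T f x ^ 2 +
      (2 * (K : ℝ)) * (∑ x, f x ^ 2 - ∑ x, ∑ y, Sm G x y * f x * f y) := by
    intro f
    rw [hEn]
    set h0 : V → ℝ := fun x => f x / Real.sqrt (G.degree x) with hh0
    have h1 := norm_compare hG hd g f0 L2 m2 hL2 hm2 h0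
    have hD0 := Dir_nonneg (G := G) h0
    have h2 : ∑ x, f x ^ 2 ≤ d * ∑ x, h0 x ^ 2 := by
      rw [Finset.mul_sum]
      apply Finset.sum_le_sum
      intro x _
      have h3 : f x ^ 2 = (G.degree x : ℝ) * h0 x ^ 2 := by
        have e1 : (G.degree x : ℝ) * h0 x ^ 2 = Real.sqrt (G.degree x) ^ 2 * h0 x ^ 2 := by
          rw [hs2 x]
        have e2 : Real.sqrt (G.degree x) * h0 x = f x := hf f x
        rw [e1, ← mul_pow, e2]
      rw [h3]
      apply mul_le_mul_of_nonneg_right _ (sq_nonneg _)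
      exact_mod_cast hd x
    have h4 : ∑ x', h0 (g x') ^ 2 ≤ ∑ x', T f x' ^ 2 := by
      apply Finset.sum_le_sum
      intro x' _
      have h5 : T f x' = Real.sqrt (G'.degree x') * h0 (g x') := rfl
      rw [h5, mul_pow, hs2']
      have h6 : (1 : ℝ) ≤ G'.degree x' := by exact_mod_cast hpos' x'
      nlinarith [sq_nonneg (h0 (g x'))]
    have hm21 : (1 : ℝ) ≤ m2 := by exact_mod_cast hm20
    set A := ∑ x', h0 (g x') ^ 2
    set B := ∑ x', T f x' ^ 2
    set E := Dir G h0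
    set X := (4 : ℝ) ^ L2 * ((d : ℝ) + 1) ^ L2 with hX
    have hXpos : 0 ≤ X := by positivity
    have h7 : (d : ℝ) * ∑ x, h0 x ^ 2 ≤ d * (2 * (m2 * A) + 2 * (X * E)) := by
      apply mul_le_mul_of_nonneg_left _ hdR.le
      rw [hX]
      linarith
    have h8 : 1 / (2 * (m2 : ℝ) * d) * ∑ x, f x ^ 2 ≤
        1 / (2 * (m2 : ℝ) * d) * (d * (2 * (m2 * A) + 2 * (X * E))) :=
      mul_le_mul_of_nonneg_left (h2.trans h7) (by positivity)
    have h9 : 1 / (2 * (m2 : ℝ) * d) * (d * (2 * (m2 * A) + 2 * (X * E))) =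
        A + X * E / m2 := by
      field_simp
    have h10 : X * E / m2 ≤ X * E := div_le_self (mul_nonneg hXpos hD0) hm21
    have h11 : X ≤ (K : ℝ) / 4 := by
      rw [hKc, hX]
      have : (0 : ℝ) ≤ (D : ℝ) * 4 ^ L1 * m * ((d : ℝ) + 1) ^ L1 := by positivity
      linarith
    have h12 : X * E ≤ (K : ℝ) / 4 * E := mul_le_mul_of_nonneg_right h11 hD0
    have h13 : 0 ≤ (K : ℝ) * E := mul_nonneg hKR.le hD0
    calc 1 / (2 * (m2 : ℝ) * d) * ∑ x, f x ^ 2 ≤ A + X * E / m2 := by rw [← h9]; exact h8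
      _ ≤ B + 2 * (K : ℝ) * (E / 4) := by linarith
  have hNR : (N : ℝ) = m2 * d * K := by rw [hN]; push_cast; ring
  have hi' : 1 - l i ≤ 1 / (2 * (m2 : ℝ) * d) / (2 * (2 * (K : ℝ))) := by
    refine hi.trans (le_of_eq ?_)
    rw [hNR]
    field_simp
    ring
  obtain ⟨j, hj1, hj2⟩ := h.compare h' Sm_symm Sm_symm T (K : ℝ) (1 / (2 * (m2 : ℝ) * d))
    (2 * (K : ℝ)) hKR (by positivity) (by positivity) hE hNn (eig_le_one hpos h) i hi'
  refine ⟨j, hj1, hj2.trans (le_of_eq ?_)⟩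
  rw [hNR]
  field_simp
  ring

end

end Mix430
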