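import Mathlib

set_option linter.all false

namespace Mix430

open Finset Matrix

/-- spectral data of a symmetric matrix -/
structure Spec {V : Type*} [Fintype V] [DecidableEq V] (S : Matrix V V ℝ)
    (l : Fin (Fintype.card V) → ℝ) (φ : Fin (Fintype.card V) → V → ℝ) : Prop where
  anti : Antitone l
  orth : ∀ i j, ∑ x, φ i x * φ j x = if i = j then 1 else 0
  comp : ∀ x y, ∑ i, φ i x * φ i y = if x = y then 1 else 0
  eig : ∀ i x, ∑ z, S x z * φ i z = l i * φ i x

theorem exists_spec {V : Type*} [Fintype V] [DecidableEq V] (S : Matrix V V ℝ)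
    (hS : ∀ x y, S x y = S y x) : ∃ l φ, Spec S l φ := by
  have hH : S.IsHermitian := by
    ext x y
    simp [Matrix.conjTranspose_apply, hS x y]
  have hT : (Matrix.toEuclideanLin S).IsSymmetric := Matrix.isHermitian_iff_isSymmetric.1 hH
  have hn : Module.finrank ℝ (EuclideanSpace ℝ V) = Fintype.card V := finrank_euclideanSpace
  let b := hT.eigenvectorBasis hn
  refine ⟨hT.eigenvalues hn, fun i x => b i x, ⟨hT.eigenvalues_antitone hn, ?_, ?_, ?_⟩⟩
  · intro i j
    have h := orthonormal_iff_ite.1 b.orthonormal i j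
    rw [← h, PiLp.inner_apply]
    apply Finset.sum_congr rfl
    intro x _
    simp [mul_comm]
  · intro x y
    have h := b.sum_inner_mul_inner (EuclideanSpace.single x (1 : ℝ)) (EuclideanSpace.single y (1 : ℝ))
    have h2 : inner ℝ (EuclideanSpace.single x (1 : ℝ)) (EuclideanSpace.single y (1 : ℝ)) =
        if x = y then (1 : ℝ) else 0 := by
      rw [EuclideanSpace.inner_single_left]
      simp [eq_comm]
    rw [← h2, ← h]
    apply Finset.sum_congr rfl
    intro i _
    simp [EuclideanSpace.inner_single_left, EuclideanSpace.inner_single_right]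
  · intro i x
    have h := hT.apply_eigenvectorBasis hn i
    have h2 : (Matrix.toEuclideanLin S (b i)) x = hT.eigenvalues hn i * b i x := by
      have h3 := congrArg (fun v : EuclideanSpace ℝ V => v x) h
      exact h3
    have h4 : (Matrix.toEuclideanLin S (b i)) x = ∑ z, S x z * b i z := rfl
    rw [← h4, h2]

variable {V : Type*} [Fintype V] [DecidableEq V] {S : Matrix V V ℝ}
  {l : Fin (Fintype.card V) → ℝ} {φ : Fin (Fintype.card V) → V → ℝ}

theorem Spec.pow (h : Spec S l φ) (hS : ∀ x y, S x y = S y x) (t : ℕ) (x y : V) :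
    (S ^ t) x y = ∑ i, l i ^ t * (φ i x * φ i y) := by
  induction t generalizing y with
  | zero =>
    simp only [pow_zero, one_mul, Matrix.one_apply]
    exact (h.comp x y).symm
  | succ t ih =>
    rw [pow_succ, Matrix.mul_apply]
    simp_rw [ih, Finset.sum_mul]
    rw [Finset.sum_comm]
    apply Finset.sum_congr rfl
    intro i _
    have h1 : ∑ z, l i ^ t * (φ i x * φ i z) * S z y = l i ^ t * φ i x * ∑ z, S y z * φ i z := by
      rw [Finset.mul_sum]
      apply Finset.sum_congr rfl
      intro z _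
      rw [hS z y]; ring
    rw [h1, h.eig, pow_succ]
    ring

theorem Spec.trace_pow (h : Spec S l φ) (hS : ∀ x y, S x y = S y x) (t : ℕ) :
    ∑ x, (S ^ t) x x = ∑ i, l i ^ t := by
  simp_rw [h.pow hS]
  rw [Finset.sum_comm]
  apply Finset.sum_congr rfl
  intro i _
  rw [← Finset.mul_sum, h.orth i i]
  simp

/-- coefficients -/
def coef (φ : Fin (Fintype.card V) → V → ℝ) (f : V → ℝ) (i : Fin (Fintype.card V)) : ℝ :=
  ∑ x, φ i x * f x

/-- quadratic form of `S` in coordinates -/
theorem Spec.form (h : Spec S l φ) (hS : ∀ x y, S x y = S y x) (f : V → ℝ) :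
    ∑ x, ∑ y, S x y * f x * f y = ∑ i, l i * coef φ f i ^ 2 := by
  have h1 : ∀ x y, S x y = ∑ i, l i * (φ i x * φ i y) := by
    intro x y
    have := h.pow hS 1 x y
    simpa using this
  simp_rw [h1, Finset.sum_mul]
  have : ∀ x, ∑ y, ∑ i, l i * (φ i x * φ i y) * f x * f y =
      ∑ i, ∑ y, l i * (φ i x * φ i y) * f x * f y := fun x => Finset.sum_comm
  simp_rw [this]
  rw [Finset.sum_comm]
  apply Finset.sum_congr rfl
  intro i _
  rw [coef, sq, Finset.sum_mul_sum, Finset.mul_sum]
  apply Finset.sum_congr rfl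
  intro x _
  rw [Finset.mul_sum]
  apply Finset.sum_congr rfl
  intro y _
  ring

theorem Spec.norm (h : Spec S l φ) (f : V → ℝ) :
    ∑ x, f x ^ 2 = ∑ i, coef φ f i ^ 2 := by
  have h1 : ∀ i, coef φ f i ^ 2 = ∑ x, ∑ y, (φ i x * φ i y) * (f x * f y) := by
    intro i
    rw [coef, sq, Finset.sum_mul_sum]
    apply Finset.sum_congr rfl
    intro x _
    apply Finset.sum_congr rfl
    intro y _
    ring
  simp_rw [h1]
  rw [Finset.sum_comm]
  apply Finset.sum_congr rfl
  intro x _
  rw [Finset.sum_comm]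
  simp_rw [← Finset.sum_mul, h.comp]
  simp [sq]

theorem Spec.coef_sum (h : Spec S l φ) (c : Fin (Fintype.card V) → ℝ) (i : Fin (Fintype.card V)) :
    coef φ (fun x => ∑ j, c j * φ j x) i = c i := by
  rw [coef]
  simp_rw [Finset.mul_sum]
  rw [Finset.sum_comm]
  have : ∀ j, ∑ x, φ i x * (c j * φ j x) = c j * (if i = j then 1 else 0) := by
    intro j
    rw [← h.orth i j, Finset.mul_sum]
    apply Finset.sum_congr rfl
    intro x _
    ring
  simp_rw [this]
  simp

/-- comparison of ordered eigenvalues -/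
theorem Spec.compare {V' : Type*} [Fintype V'] [DecidableEq V'] {S' : Matrix V' V' ℝ}
    {l' : Fin (Fintype.card V') → ℝ} {φ' : Fin (Fintype.card V') → V' → ℝ}
    (h : Spec S l φ) (h' : Spec S' l' φ') (hS : ∀ x y, S x y = S y x)
    (hS' : ∀ x y, S' x y = S' y x) (T : (V → ℝ) →ₗ[ℝ] (V' → ℝ)) (C1 c2 C3 : ℝ) (hC1 : 0 < C1)
    (hc2 : 0 < c2) (hC3 : 0 < C3)
    (hE : ∀ f, ∑ x, T f x ^ 2 - ∑ x, ∑ y, S' x y * T f x * T f y ≤
      C1 * (∑ x, f x ^ 2 - ∑ x, ∑ y, S x y * f x * f y))
    (hN : ∀ f, c2 * ∑ x, f x ^ 2 ≤ ∑ x, T f x ^ 2 +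
      C3 * (∑ x, f x ^ 2 - ∑ x, ∑ y, S x y * f x * f y))
    (hl : ∀ i, l i ≤ 1)
    (i : Fin (Fintype.card V)) (hi : 1 - l i ≤ c2 / (2 * C3)) :
    ∃ j : Fin (Fintype.card V'), j.val = i.val ∧ 1 - l' j ≤ 2 * C1 / c2 * (1 - l i) := by
  classical
  -- the linear map from coefficient space
  let F : (Fin (i.val + 1) → ℝ) →ₗ[ℝ] (V → ℝ) :=
    { toFun := fun c x => ∑ k : Fin (i.val + 1), c k * φ ⟨k.val, by have := k.2; have := i.2; omega⟩ x
      map_add' := by
        intro a b; funext x; simp [add_mul, Finset.sum_add_distrib]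
      map_smul' := by
        intro a b; funext x; simp [Finset.mul_sum, mul_assoc] }
  let Ψ : (Fin (i.val + 1) → ℝ) →ₗ[ℝ] (Fin i.val → ℝ) :=
    { toFun := fun c k => if hk : k.val < Fintype.card V' then coef φ' (T (F c)) ⟨k.val, hk⟩ else 0
      map_add' := by
        intro a b; funext k
        by_cases hk : k.val < Fintype.card V'
        · simp [hk, coef, mul_add, Finset.sum_add_distrib]
        · simp [hk]
      map_smul' := by
        intro a b; funext k
        by_cases hk : k.val < Fintype.card V'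
        · simp only [hk, dif_pos, coef, map_smul, Pi.smul_apply, smul_eq_mul, RingHom.id_apply,
            Finset.mul_sum]
          apply Finset.sum_congr rfl
          intro x _
          ring
        · simp [hk] }
  have hker : LinearMap.ker Ψ ≠ ⊥ := LinearMap.ker_ne_bot_of_finrank_lt (by simp)
  obtain ⟨c, hc, hc0⟩ := (Submodule.ne_bot_iff _).1 hker
  have hΨ : ∀ k : Fin (Fintype.card V'), k.val < i.val → coef φ' (T (F c)) k = 0 := by
    intro k hk
    have h1 := congrFun (LinearMap.mem_ker.1 hc) ⟨k.val, hk⟩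
    have h2 : Ψ c ⟨k.val, hk⟩ = coef φ' (T (F c)) k := by
      show (if hk : k.val < Fintype.card V' then coef φ' (T (F c)) ⟨k.val, hk⟩ else 0) = _
      rw [dif_pos k.2]
    rw [h2] at h1
    exact h1
  -- coefficients of F c
  let C : Fin (Fintype.card V) → ℝ := fun j => if hj : j.val < i.val + 1 then c ⟨j.val, hj⟩ else 0
  have hFC : F c = fun x => ∑ j, C j * φ j x := by
    funext x
    show ∑ k : Fin (i.val + 1), c k * φ ⟨k.val, _⟩ x = ∑ j, C j * φ j x
    have hinj : Function.Injective (fun k : Fin (i.val + 1) =>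
        (⟨k.val, by have := k.2; have := i.2; omega⟩ : Fin (Fintype.card V))) := by
      intro a b hab
      have := congrArg Fin.val hab
      exact Fin.ext this
    symm
    rw [← Finset.sum_subset (Finset.subset_univ (Finset.univ.map ⟨_, hinj⟩))]
    · rw [Finset.sum_map]
      apply Finset.sum_congr rfl
      intro k _
      have : C ⟨k.val, by have := k.2; have := i.2; omega⟩ = c k := by
        simp only [C, dif_pos k.2]
      show C ⟨k.val, _⟩ * _ = _
      rw [this]
      rfl
    · intro j _ hj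
      have : C j = 0 := by
        simp only [C]
        rw [dif_neg]
        intro hlt
        apply hj
        rw [Finset.mem_map]
        exact ⟨⟨j.val, hlt⟩, Finset.mem_univ _, Fin.ext rfl⟩
      rw [this, zero_mul]
  have hcoef : ∀ j, coef φ (F c) j = C j := by
    intro j
    rw [hFC]
    exact h.coef_sum C j
  have hnorm : ∑ x, F c x ^ 2 = ∑ j, C j ^ 2 := by
    rw [h.norm]
    simp_rw [hcoef]
  have hpos : 0 < ∑ x, F c x ^ 2 := by
    rw [hnorm]
    have : ∃ k, c k ≠ 0 := by
      by_contra hcon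
      push Not at hcon
      exact hc0 (funext hcon)
    obtain ⟨k, hk⟩ := this
    have hkC : C ⟨k.val, by have := k.2; have := i.2; omega⟩ = c k := by
      simp only [C, dif_pos k.2]
    apply Finset.sum_pos' (fun j _ => sq_nonneg _)
    exact ⟨⟨k.val, by have := k.2; have := i.2; omega⟩, Finset.mem_univ _, by rw [hkC]; positivity⟩
  have hen : ∑ x, F c x ^ 2 - ∑ x, ∑ y, S x y * F c x * F c y ≤ (1 - l i) * ∑ x, F c x ^ 2 := by
    rw [h.form hS, hnorm]
    simp_rw [hcoef]
    rw [← Finset.sum_sub_distrib, Finset.mul_sum]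
    apply Finset.sum_le_sum
    intro j _
    by_cases hj : j.val < i.val + 1
    · have h1 : l i ≤ l j := h.anti (Fin.mk_le_mk.2 (by omega) : j ≤ i)
      nlinarith [sq_nonneg (C j)]
    · have : C j = 0 := by simp only [C, dif_neg hj]
      rw [this]; simp
  have hli := hl i
  have hE1 := hE (F c)
  have hN1 := hN (F c)
  set A := ∑ x, F c x ^ 2 with hA
  set Q := ∑ x, F c x ^ 2 - ∑ x, ∑ y, S x y * F c x * F c y with hQ
  have hgn : c2 / 2 * A ≤ ∑ x, T (F c) x ^ 2 := by
    have h1 : C3 * Q ≤ C3 * ((1 - l i) * A) := mul_le_mul_of_nonneg_left hen hC3.le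
    have h2 : C3 * ((1 - l i) * A) ≤ c2 / 2 * A := by
      have h3 : C3 * (1 - l i) ≤ c2 / 2 := by
        have := mul_le_mul_of_nonneg_left hi hC3.le
        calc C3 * (1 - l i) ≤ C3 * (c2 / (2 * C3)) := this
          _ = c2 / 2 := by field_simp
      calc C3 * ((1 - l i) * A) = (C3 * (1 - l i)) * A := by ring
        _ ≤ c2 / 2 * A := mul_le_mul_of_nonneg_right h3 hpos.le
    linarith
  have hgpos : 0 < ∑ x, T (F c) x ^ 2 := lt_of_lt_of_le (by positivity) hgn
  have hgn' := h'.norm (T (F c))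
  -- there is an index ≥ i
  have hex : ∃ k : Fin (Fintype.card V'), i.val ≤ k.val := by
    by_contra hcon
    push Not at hcon
    rw [hgn'] at hgpos
    have : ∑ k, coef φ' (T (F c)) k ^ 2 = 0 := by
      apply Finset.sum_eq_zero
      intro k _
      rw [hΨ k (hcon k)]; simp
    linarith
  obtain ⟨k0, hk0⟩ := hex
  have hilt : i.val < Fintype.card V' := lt_of_le_of_lt hk0 k0.2
  refine ⟨⟨i.val, hilt⟩, rfl, ?_⟩
  have hform' := h'.form hS' (T (F c))
  have hlow : (1 - l' ⟨i.val, hilt⟩) * ∑ x, T (F c) x ^ 2 ≤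
      ∑ x, T (F c) x ^ 2 - ∑ x, ∑ y, S' x y * T (F c) x * T (F c) y := by
    rw [hform', hgn', Finset.mul_sum, ← Finset.sum_sub_distrib]
    apply Finset.sum_le_sum
    intro k _
    by_cases hk : k.val < i.val
    · rw [hΨ k hk]; simp
    · have h1 : l' k ≤ l' ⟨i.val, hilt⟩ := h'.anti (Fin.mk_le_mk.2 (by omega) : (⟨i.val, hilt⟩ : Fin _) ≤ k)
      nlinarith [sq_nonneg (coef φ' (T (F c)) k)]
  have h5 : (1 - l' ⟨i.val, hilt⟩) * ∑ x, T (F c) x ^ 2 ≤ C1 * ((1 - l i) * A) :=
    hlow.trans (hE1.trans (mul_le_mul_of_nonneg_left hen hC1.le))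
  have h6 : C1 * ((1 - l i) * A) ≤ 2 * C1 / c2 * (1 - l i) * ∑ x, T (F c) x ^ 2 := by
    have h7 : 0 ≤ 2 * C1 / c2 * (1 - l i) := by
      apply mul_nonneg (by positivity) (by linarith)
    have h8 := mul_le_mul_of_nonneg_left hgn h7
    calc C1 * ((1 - l i) * A) = 2 * C1 / c2 * (1 - l i) * (c2 / 2 * A) := by field_simp
      _ ≤ _ := h8
  exact le_of_mul_le_mul_right (h5.trans h6) hgpos

end Mix430
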