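import Pool.Agent.H430.MixAvg

set_option linter.all false

namespace Mix430

open Finset Matrix

/-- comparison data between two graphs -/
structure Cmp {V V' : Type*} [Fintype V] [DecidableEq V] [Fintype V'] [DecidableEq V']
    (G : SimpleGraph V) (G' : SimpleGraph V') (g : V' → V) (f : V → V') (L m : ℕ) : Prop where
  edge : ∀ x' y', G'.Adj x' y' → G.dist (g x') (g y') ≤ L
  fibg : ∀ x, (univ.filter (fun a => g a = x)).card ≤ m
  close : ∀ x, G.dist x (g (f x)) ≤ L
  fibf : ∀ x', (univ.filter (fun a => f a = x')).card ≤ m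

theorem trace_of_trace {V : Type*} [Fintype V] [DecidableEq V] {G : SimpleGraph V}
    [DecidableRel G.Adj] {V' : Type*} [Fintype V'] [DecidableEq V'] {G' : SimpleGraph V'}
    [DecidableRel G'.Adj] [Nonempty V] [Nontrivial V']
    (hG : G.Connected) {E : ℕ} (hE0 : 0 < E)
    (hE : ∀ x, G.degree x ≤ E) (hpos : ∀ x, 0 < G.degree x) (hpos' : ∀ x, 0 < G'.degree x)
    (hE' : ∀ x, G'.degree x ≤ E) {g : V' → V} {f0 : V → V'} {L m : ℕ} (hm0 : 0 < m)
    (hc : Cmp G G' g f0 L m)
    {l : Fin (Fintype.card V) → ℝ} {φ : Fin (Fintype.card V) → V → ℝ}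
    {l' : Fin (Fintype.card V') → ℝ} {φ' : Fin (Fintype.card V') → V' → ℝ}
    (h : Spec (Sm G) l φ) (h' : Spec (Sm G') l' φ')
    (K N Q : ℕ)
    (hK : K = E * 4 ^ L * m * (E + 1) ^ L + 4 * (4 ^ L * (E + 1) ^ L))
    (hN : N = m * E * K) (hQ : Q = 8 * m * 4) (t : ℕ)
    (hmix : ∑ j, l' j ^ t ≤ 5/4) : ∑ i, l i ^ (8 * N * Q * t) ≤ 5/4 := by
  have ht : 1 ≤ t := trace_pos t hmix
  have hKpos : 0 < K := by rw [hK]; positivity
  have hNpos : 0 < N := by rw [hN]; positivity
  have hQ8 : 8 ≤ Q := by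
    rw [hQ]; omega
  have hM16 : 16 * N ≤ 8 * N * Q := by nlinarith
  have hcard : (Fintype.card V : ℝ) ≤ m * 4 ^ t := by
    have h1 : Fintype.card V ≤ m * Fintype.card V' := by
      rw [← Finset.card_univ, ← Finset.card_univ]
      apply Finset.card_le_mul_card_image_of_maps_to (f := f0)
      · intro a _; exact Finset.mem_univ _
      · intro b _; exact hc.fibf b
    have h2 := card_of_trace h' t ht hmix
    have h3 : (Fintype.card V : ℝ) ≤ (m : ℝ) * Fintype.card V' := by exact_mod_cast h1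
    exact h3.trans (mul_le_mul_of_nonneg_left h2 (by positivity))
  let a : Fin (Fintype.card V') → ℝ := fun j => if j.val = 0 then 0 else l' j ^ t
  have ha0 : ∀ j, 0 ≤ a j := by
    intro j
    simp only [a]
    split_ifs
    · exact le_rfl
    · exact pow_nonneg (eig_nonneg hpos' h' j) _
  have hasum : ∑ j, a j ≤ 1/4 := by
    have h1 := split_sum hpos' h' t
    simp only [a]
    linarith
  have haj : ∀ j, a j ≤ 1/4 := fun j =>
    (Finset.single_le_sum (fun j _ => ha0 j) (Finset.mem_univ j)).trans hasum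
  have hasq : ∑ j, a j ^ 2 ≤ 1/16 := by
    calc ∑ j, a j ^ 2 ≤ ∑ j, 1/4 * a j := by
          apply Finset.sum_le_sum
          intro j _
          nlinarith [ha0 j, haj j]
      _ = 1/4 * ∑ j, a j := by rw [Finset.mul_sum]
      _ ≤ 1/16 := by linarith
  let F : ℕ → ℝ := fun k => if hk : k < Fintype.card V' then a ⟨k, hk⟩ ^ 2 else 0
  have hF0 : ∀ k, 0 ≤ F k := by
    intro k
    simp only [F]
    split_ifs
    · exact sq_nonneg _
    · exact le_rfl
  have hFsum : ∑ i : Fin (Fintype.card V), F i.val ≤ 1/16 := by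
    have h1 : ∑ j : Fin (Fintype.card V'), a j ^ 2 = ∑ k ∈ range (Fintype.card V'), F k := by
      rw [← Fin.sum_univ_eq_sum_range]
      apply Finset.sum_congr rfl
      intro j _
      simp only [F]
      rw [dif_pos j.isLt]
    have h2 : ∑ i : Fin (Fintype.card V), F i.val = ∑ k ∈ range (Fintype.card V), F k :=
      Fin.sum_univ_eq_sum_range F _
    have h3 : ∑ k ∈ range (Fintype.card V), F k ≤
        ∑ k ∈ range (max (Fintype.card V) (Fintype.card V')), F k :=
      Finset.sum_le_sum_of_subset_of_nonneg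
        (Finset.range_subset_range.2 (le_max_left _ _)) (fun k _ _ => hF0 k)
    have h4 : ∑ k ∈ range (Fintype.card V'), F k =
        ∑ k ∈ range (max (Fintype.card V) (Fintype.card V')), F k := by
      apply Finset.sum_subset (Finset.range_subset_range.2 (le_max_right _ _))
      intro k _ hk
      rw [Finset.mem_range] at hk
      simp only [F]
      rw [dif_neg hk]
    rw [h2]
    linarith
  set r : ℝ := (1 / ((Q : ℝ) + 1)) ^ t with hr
  have hr0 : 0 ≤ r := by positivity
  have hterm : ∀ i : Fin (Fintype.card V), l i ^ (8 * N * Q * t) ≤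
      (if i.val = 0 then 1 else 0) + F i.val + r := by
    intro i
    have hl0 := eig_nonneg hpos h i
    have hl1 := eig_le_one hpos h i
    by_cases hi0 : i.val = 0
    · rw [if_pos hi0]
      have h1 : l i ^ (8 * N * Q * t) ≤ 1 := pow_le_one₀ hl0 hl1
      have := hF0 i.val
      linarith
    · rw [if_neg hi0, zero_add]
      rw [pow_mul]
      by_cases hs : 1 - l i ≤ 1 / (8 * (N : ℝ))
      · obtain ⟨j, hj1, hj2⟩ := qi_compare hG hE0 hE hpos hpos' hE' g f0 L m L m
          hm0 hc.edge hc.fibg hc.close hc.fibf h h' K N hK hN i hs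
        have h1 := small_term (l i) (l' j) N (8 * N * Q) hNpos hl0 hl1 (eig_le_one hpos' h' j)
          hs hj2 hM16
        have h2 : (l i ^ (8 * N * Q)) ^ t ≤ (l' j ^ 2) ^ t :=
          pow_le_pow_left₀ (pow_nonneg hl0 _) h1 t
        have h3 : F i.val = (l' j ^ 2) ^ t := by
          simp only [F]
          have hlt : i.val < Fintype.card V' := by rw [← hj1]; exact j.isLt
          rw [dif_pos hlt]
          have hje : (⟨i.val, hlt⟩ : Fin (Fintype.card V')) = j := Fin.ext hj1.symm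
          rw [hje]
          simp only [a]
          rw [if_neg (by rw [hj1]; exact hi0), ← pow_mul, ← pow_mul, mul_comm]
        linarith
      · have h1 := large_term (l i) N Q hNpos hl0 (not_le.1 hs).le
        have h2 : (l i ^ (8 * N * Q)) ^ t ≤ r := pow_le_pow_left₀ (pow_nonneg hl0 _) h1 t
        have := hF0 i.val
        linarith
  have hrc : (Fintype.card V : ℝ) * r ≤ 1/8 := by
    have hm2R : (0 : ℝ) < m := by exact_mod_cast hm0
    have hm21 : (1 : ℝ) ≤ m := by exact_mod_cast hm0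
    have h1 : 1 / ((Q : ℝ) + 1) ≤ 1 / (8 * (m : ℝ)) * (1 / 4) := by
      rw [one_div_mul_one_div]
      apply one_div_le_one_div_of_le (by positivity)
      rw [hQ]; push_cast; linarith
    have h2 : r ≤ (1 / (8 * (m : ℝ))) ^ t * (1 / 4) ^ t := by
      rw [← mul_pow]
      exact pow_le_pow_left₀ (by positivity) h1 t
    have h3 : (1 / (8 * (m : ℝ))) ^ t ≤ 1 / (8 * (m : ℝ)) := by
      apply pow_le_of_le_one (by positivity) _ (by omega)
      rw [div_le_one (by positivity)]
      linarith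
    have h4 : r ≤ 1 / (8 * (m : ℝ)) * (1 / 4) ^ t :=
      h2.trans (mul_le_mul_of_nonneg_right h3 (by positivity))
    calc (Fintype.card V : ℝ) * r ≤ (m * 4 ^ t) *
          (1 / (8 * (m : ℝ)) * (1 / 4) ^ t) :=
          mul_le_mul hcard h4 hr0 (by positivity)
      _ = 1/8 := by
        rw [_root_.one_div_pow]
        have : ((4 : ℝ) ^ t) ≠ 0 := by positivity
        field_simp
  have hone : ∑ i : Fin (Fintype.card V), (if i.val = 0 then (1 : ℝ) else 0) = 1 := by
    have hcp : 0 < Fintype.card V := Fintype.card_pos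
    rw [Finset.sum_eq_single (⟨0, hcp⟩ : Fin (Fintype.card V))]
    · rw [if_pos rfl]
    · intro i _ hi
      rw [if_neg]
      intro h0
      exact hi (Fin.ext h0)
    · intro h0; exact absurd (Finset.mem_univ _) h0
  have h1 : ∑ i, l i ^ (8 * N * Q * t) ≤ ∑ i : Fin (Fintype.card V),
      ((if i.val = 0 then (1 : ℝ) else 0) + F i.val + r) :=
    Finset.sum_le_sum fun i _ => hterm i
  rw [Finset.sum_add_distrib, Finset.sum_add_distrib, hone, Finset.sum_const, nsmul_eq_mul,
    Finset.card_univ, Fintype.card_fin] at h1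
  linarith

theorem cmp_of_QI (a b : ℝ) (ha : 1 ≤ a) (hb : 0 ≤ b) (E : ℕ) :
    ∃ L m : ℕ, 0 < m ∧ ∀ {V V' : Type*} [Fintype V] [DecidableEq V]
      [Fintype V'] [DecidableEq V'] (G : SimpleGraph V) [DecidableRel G.Adj]
      (G' : SimpleGraph V') [DecidableRel G'.Adj],
      G.Connected → (∀ x, G.degree x ≤ E) →
      G'.Connected → (∀ x, G'.degree x ≤ E) → (∃ f : V → V', IsQI a b G G' f) →
      ∃ (g : V' → V) (f : V → V'), Cmp G G' g f L m ∧ Cmp G' G f g L m := by
  have ha0 : 0 < a := by linarith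
  have hab : b ≤ a * b := by nlinarith
  let L : ℕ := ⌈a * (1 + 3 * b)⌉₊
  let m : ℕ := (E + 1) ^ ⌈a * b⌉₊
  refine ⟨L, m, Nat.pow_pos (Nat.succ_pos _), ?_⟩
  intro V V' _ _ _ _ G _ G' _ hG hd hG' hD hf
  obtain ⟨f0, hf⟩ := hf
  choose g hg using hf.dense
  refine ⟨g, f0, ?_, ?_⟩
  all_goals
    have hlow : ∀ x y, (G.dist x y : ℝ) ≤ a * ((G'.dist (f0 x) (f0 y) : ℝ) + b) := by
      intro x y
      have h1 := hf.lower x y
      have h2 : a * (a⁻¹ * (G.dist x y : ℝ)) = G.dist x y := by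
        rw [← mul_assoc, mul_inv_cancel₀ ha0.ne', one_mul]
      have h3 := mul_le_mul_of_nonneg_left h1 ha0.le
      rw [mul_sub, h2] at h3
      linarith
    have htri : ∀ x y z : V', (G'.dist x z : ℝ) ≤ G'.dist x y + G'.dist y z := by
      intro x y z
      exact_mod_cast hG'.dist_triangle (u := x) (v := y) (w := z)
    have hm : ∀ x, (univ.filter (fun a => g a = x)).card ≤ m := by
      intro x
      refine le_trans (Finset.card_le_card ?_) (card_ball hG' hD (f0 x) ⌈a * b⌉₊)
      intro x' hx'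
      rw [Finset.mem_filter] at hx'
      rw [mem_ball]
      have h1 := hg x'
      rw [hx'.2, SimpleGraph.dist_comm] at h1
      have h2 : (G'.dist (f0 x) x' : ℝ) ≤ (⌈a * b⌉₊ : ℝ) :=
        (h1.trans hab).trans (Nat.le_ceil _)
      exact_mod_cast h2
    have hm2 : ∀ x', (univ.filter (fun a => f0 a = x')).card ≤ m := by
      intro x'
      by_cases hne : (univ.filter (fun a => f0 a = x')).Nonempty
      · obtain ⟨x0, hx0⟩ := hne
        refine le_trans (Finset.card_le_card ?_) (card_ball hG hd x0 ⌈a * b⌉₊)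
        intro x hx
        rw [Finset.mem_filter] at hx hx0
        rw [mem_ball]
        have h1 := hlow x0 x
        rw [hx.2, hx0.2, SimpleGraph.dist_self, Nat.cast_zero, zero_add] at h1
        have h2 : (G.dist x0 x : ℝ) ≤ (⌈a * b⌉₊ : ℝ) := h1.trans (Nat.le_ceil _)
        exact_mod_cast h2
      · rw [Finset.not_nonempty_iff_eq_empty] at hne
        rw [hne, Finset.card_empty]
        exact Nat.zero_le _
  · refine ⟨?_, hm, ?_, hm2⟩
    · intro x' y' hadj
      have h1 := hlow (g x') (g y')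
      have h2 := htri (f0 (g x')) x' (f0 (g y'))
      have h3 := htri x' y' (f0 (g y'))
      have h4 : (G'.dist x' y' : ℝ) = 1 := by
        exact_mod_cast SimpleGraph.dist_eq_one_iff_adj.2 hadj
      have h5 := hg x'
      have h6 := hg y'
      have h7 : (G'.dist (f0 (g x')) x' : ℝ) ≤ b := by rw [SimpleGraph.dist_comm]; exact h5
      have h8 : a * ((G'.dist (f0 (g x')) (f0 (g y')) : ℝ) + b) ≤ a * (1 + 3 * b) :=
        mul_le_mul_of_nonneg_left (by linarith) ha0.le
      have h9 : (G.dist (g x') (g y') : ℝ) ≤ (L : ℝ) :=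
        (h1.trans h8).trans (Nat.le_ceil _)
      exact_mod_cast h9
    · intro x
      have h1 := hlow x (g (f0 x))
      have h2 := hg (f0 x)
      have h8 : a * ((G'.dist (f0 x) (f0 (g (f0 x))) : ℝ) + b) ≤ a * (1 + 3 * b) :=
        mul_le_mul_of_nonneg_left (by linarith) ha0.le
      have h9 : (G.dist x (g (f0 x)) : ℝ) ≤ (L : ℝ) :=
        (h1.trans h8).trans (Nat.le_ceil _)
      exact_mod_cast h9
  · refine ⟨?_, hm2, ?_, hm⟩
    · intro x y hadj
      have h1 := hf.upper x y
      have h4 : (G.dist x y : ℝ) = 1 := by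
        exact_mod_cast SimpleGraph.dist_eq_one_iff_adj.2 hadj
      rw [h4] at h1
      have h8 : a * 1 + b ≤ a * (1 + 3 * b) := by nlinarith
      have h9 : (G'.dist (f0 x) (f0 y) : ℝ) ≤ (L : ℝ) :=
        (h1.trans h8).trans (Nat.le_ceil _)
      exact_mod_cast h9
    · intro x'
      have h1 := hg x'
      have h8 : b ≤ a * (1 + 3 * b) := by nlinarith
      have h9 : (G'.dist x' (f0 (g x')) : ℝ) ≤ (L : ℝ) :=
        (h1.trans h8).trans (Nat.le_ceil _)
      exact_mod_cast h9

theorem two_sided (a b : ℝ) (ha : 1 ≤ a) (hb : 0 ≤ b) (D : ℕ) :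
    ∃ C : ℕ, 0 < C ∧ ∀ {V V' : Type*} [Fintype V] [DecidableEq V] [Nontrivial V]
      [Fintype V'] [DecidableEq V'] [Nontrivial V'] (G : SimpleGraph V) [DecidableRel G.Adj]
      (G' : SimpleGraph V') [DecidableRel G'.Adj],
      G.Connected → (∀ x, G.degree x ≤ D) →
      G'.Connected → (∀ x, G'.degree x ≤ D) → (∃ f : V → V', IsQI a b G G' f) →
      (∀ t, avgL2 G t ≤ 1/4 → avgL2 G' (C * t) ≤ 1/4) ∧
      (∀ t, avgL2 G' t ≤ 1/4 → avgL2 G (C * t) ≤ 1/4) ∧
      ((∀ x y, ∃ e : G ≃g G, e x = y) →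
        (∀ t, avgL2 G' t ≤ 1/4 → Mixed G (2 * C * t)) ∧
        (∀ t, Mixed G t → avgL2 G' (C * t) ≤ 1/4)) := by
  obtain ⟨L, m, hm0, hcmp⟩ := cmp_of_QI.{u_1, u_2} a b ha hb (D + 1)
  let E : ℕ := D + 1
  let K : ℕ := E * 4 ^ L * m * (E + 1) ^ L + 4 * (4 ^ L * (E + 1) ^ L)
  let N : ℕ := m * E * K
  let Q : ℕ := 8 * m * 4
  have hE0 : 0 < E := Nat.succ_pos _
  have hKpos : 0 < K := Nat.add_pos_right _ (by positivity)
  have hNpos : 0 < N := Nat.mul_pos (Nat.mul_pos hm0 hE0) hKpos
  have hQpos : 0 < Q := Nat.mul_pos (Nat.mul_pos (by norm_num) hm0) (by norm_num)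
  refine ⟨8 * N * Q, Nat.mul_pos (Nat.mul_pos (by norm_num) hNpos) hQpos, ?_⟩
  intro V V' _ _ _ _ _ _ G _ G' _ hG hd hG' hD hf
  have hpos : ∀ x, 0 < G.degree x := fun x => hG.preconnected.degree_pos_of_nontrivial x
  have hpos' : ∀ x, 0 < G'.degree x := fun x => hG'.preconnected.degree_pos_of_nontrivial x
  have hE : ∀ x, G.degree x ≤ E := fun x => (hd x).trans (Nat.le_succ _)
  have hE' : ∀ x, G'.degree x ≤ E := fun x => (hD x).trans (Nat.le_succ _)
  obtain ⟨g, f, hc, hc'⟩ := hcmp G G' hG hE hG' hE' hf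
  obtain ⟨l, φ, h⟩ := exists_spec (Sm G) Sm_symm
  obtain ⟨l', φ', h'⟩ := exists_spec (Sm G') Sm_symm
  have T1 : ∀ t, ∑ j, l' j ^ t ≤ 5/4 → ∑ i, l i ^ (8 * N * Q * t) ≤ 5/4 := fun t ht =>
    trace_of_trace hG hE0 hE hpos hpos' hE' hm0 hc h h' K N Q rfl rfl rfl t ht
  have T2 : ∀ t, ∑ i, l i ^ t ≤ 5/4 → ∑ j, l' j ^ (8 * N * Q * t) ≤ 5/4 := fun t ht =>
    trace_of_trace hG' hE0 hE' hpos' hpos hE hm0 hc' h' h K N Q rfl rfl rfl t ht
  have e1 : ∀ t, 8 * N * Q * (t + t) = 8 * N * Q * t + 8 * N * Q * t := fun t => by ring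
  refine ⟨?_, ?_, ?_⟩
  · intro t ht
    rw [avgL2_eq hpos h] at ht
    rw [avgL2_eq hpos' h']
    have := T2 (t + t) (by linarith)
    rw [e1] at this
    linarith
  · intro t ht
    rw [avgL2_eq hpos' h'] at ht
    rw [avgL2_eq hpos h]
    have := T1 (t + t) (by linarith)
    rw [e1] at this
    linarith
  · intro htr
    constructor
    · intro t ht
      rw [avgL2_eq hpos' h'] at ht
      have h1 := T1 (t + t) (by linarith)
      rw [e1] at h1
      have e2 : 2 * (8 * N * Q) * t = 8 * N * Q * t + 8 * N * Q * t := by ring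
      rw [e2]
      obtain ⟨x0⟩ := (inferInstance : Nonempty V)
      have hreg : ∀ x, G.degree x = G.degree x0 := by
        intro x
        obtain ⟨e, he⟩ := htr x0 x
        rw [← he]
        exact e.degree_eq x0
      exact transitive_mixed (hpos x0) hreg htr h (8 * N * Q * t) h1
    · intro t ht
      rw [avgL2_eq hpos' h']
      have h0 := trace_of_mixed hpos h ht
      have h1 : ∑ i, l i ^ (t + t) ≤ 5/4 := by
        refine le_trans (Finset.sum_le_sum fun i _ => ?_) h0
        exact pow_le_pow_of_le_one (eig_nonneg hpos h i) (eig_le_one hpos h i) (Nat.le_add_left _ _)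
      have := T2 (t + t) h1
      rw [e1] at this
      linarith

end Mix430
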