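import Pool.Agent.H430.MixGraph

set_option linter.all false

namespace Mix430

open Finset Matrix

/-- transition matrix of the lazy simple random walk -/
noncomputable def lazyP {V : Type*} [Fintype V] [DecidableEq V] (G : SimpleGraph V)
    [DecidableRel G.Adj] : Matrix V V ℝ := fun x y =>
  if x = y then 1/2 else if G.Adj x y then 1 / (2 * (G.degree x : ℝ)) else 0

/-- stationary law `deg x / (2 |E|)`, the denominator being the sum of the degrees -/
noncomputable def statPi {V : Type*} [Fintype V] (G : SimpleGraph V)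
    [DecidableRel G.Adj] (x : V) : ℝ := (G.degree x : ℝ) / ∑ z, (G.degree z : ℝ)

/-- the walk is mixed (uniformly, to `1/4`) at time `t` -/
def Mixed {V : Type*} [Fintype V] [DecidableEq V] (G : SimpleGraph V)
    [DecidableRel G.Adj] (t : ℕ) : Prop :=
  ∀ x y, |(lazyP G ^ t) x y / statPi G y - 1| ≤ 1/4

section

variable {V : Type*} [Fintype V] [DecidableEq V] {G : SimpleGraph V} [DecidableRel G.Adj]
  {l : Fin (Fintype.card V) → ℝ} {φ : Fin (Fintype.card V) → V → ℝ}

theorem eig_eq (hpos : ∀ x, 0 < G.degree x) (h : Spec (Sm G) l φ) (i : Fin (Fintype.card V)) :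
    ∃ g : V → ℝ, l i = 1 - Dir G g / 4 ∧ ∑ x, (G.degree x : ℝ) * g x ^ 2 = 1 := by
  have hs : ∀ x, 0 < Real.sqrt (G.degree x) := fun x =>
    Real.sqrt_pos.2 (by exact_mod_cast hpos x)
  have hs2 : ∀ x, Real.sqrt (G.degree x) ^ 2 = G.degree x := fun x =>
    Real.sq_sqrt (by positivity)
  let g : V → ℝ := fun x => φ i x / Real.sqrt (G.degree x)
  have hg : ∀ x, Real.sqrt (G.degree x) * g x = φ i x := by
    intro x
    simp only [g]
    rw [mul_div_assoc', mul_comm, mul_div_assoc, div_self (hs x).ne', mul_one]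
  have h1 : ∑ x, (G.degree x : ℝ) * g x ^ 2 = 1 := by
    have h2 : ∑ x, φ i x * φ i x = 1 := by rw [h.orth i i]; simp
    rw [← h2]
    apply Finset.sum_congr rfl
    intro x _
    rw [← hg x]
    have e : Real.sqrt (G.degree x) * g x * (Real.sqrt (G.degree x) * g x) =
        Real.sqrt (G.degree x) ^ 2 * g x ^ 2 := by ring
    rw [e, hs2 x]
  refine ⟨g, ?_, h1⟩
  have h3 := form_eq hpos g
  simp_rw [hg] at h3
  rw [h1] at h3
  rw [← h3]
  have h4 : ∑ x, ∑ y, Sm G x y * φ i x * φ i y = ∑ x, φ i x * (l i * φ i x) := by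
    apply Finset.sum_congr rfl
    intro x _
    rw [← h.eig i x, Finset.mul_sum]
    apply Finset.sum_congr rfl
    intro y _
    ring
  rw [h4]
  have h5 : ∑ x, φ i x * (l i * φ i x) = l i * ∑ x, φ i x * φ i x := by
    rw [Finset.mul_sum]
    apply Finset.sum_congr rfl
    intro x _
    ring
  rw [h5, h.orth i i]; simp

theorem eig_nonneg (hpos : ∀ x, 0 < G.degree x) (h : Spec (Sm G) l φ) (i) : 0 ≤ l i := by
  obtain ⟨g, h1, h2⟩ := eig_eq hpos h i
  have h3 := Dir_le (G := G) g
  rw [h1]; linarith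

theorem eig_le_one (hpos : ∀ x, 0 < G.degree x) (h : Spec (Sm G) l φ) (i) : l i ≤ 1 := by
  obtain ⟨g, h1, h2⟩ := eig_eq hpos h i
  have h3 := Dir_nonneg (G := G) g
  rw [h1]; linarith

theorem eig_top [Nonempty V] (hpos : ∀ x, 0 < G.degree x) (h : Spec (Sm G) l φ)
    (i : Fin (Fintype.card V)) (hi : i.val = 0) : l i = 1 := by
  apply le_antisymm (eig_le_one hpos h i)
  have hs2 : ∀ x, Real.sqrt (G.degree x) ^ 2 = G.degree x := fun x =>
    Real.sq_sqrt (by positivity)
  have h1 := form_eq hpos (fun _ : V => (1 : ℝ))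
  have hD : Dir G (fun _ : V => (1 : ℝ)) = 0 := by
    unfold Dir en; simp
  rw [hD] at h1
  simp only [mul_one, one_pow, zero_div, sub_zero] at h1
  rw [h.form Sm_symm] at h1
  have h2 := h.norm (fun x => Real.sqrt (G.degree x))
  simp_rw [hs2] at h2
  have h3 : ∑ i, (1 - l i) * coef φ (fun x => Real.sqrt (G.degree x)) i ^ 2 = 0 := by
    simp_rw [sub_mul, one_mul, Finset.sum_sub_distrib]
    rw [h1, ← h2, sub_self]
  have h4 := (Finset.sum_eq_zero_iff_of_nonneg (fun i _ =>
    mul_nonneg (by linarith [eig_le_one hpos h i]) (sq_nonneg _))).1 h3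
  have h5 : 0 < ∑ i, coef φ (fun x => Real.sqrt (G.degree x)) i ^ 2 := by
    rw [← h2]
    obtain ⟨x⟩ := (inferInstance : Nonempty V)
    exact Finset.sum_pos' (fun x _ => by positivity) ⟨x, Finset.mem_univ _, by exact_mod_cast hpos x⟩
  obtain ⟨j, -, hj⟩ := Finset.exists_ne_zero_of_sum_ne_zero h5.ne'
  have h6 := h4 j (Finset.mem_univ _)
  have h7 : 1 - l j = 0 := by
    rcases mul_eq_zero.1 h6 with h | h
    · exact h
    · exact absurd h hj
  have h8 : l j ≤ l i := h.anti (Fin.mk_le_mk.2 (by omega) : i ≤ j)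
  linarith

theorem lazyP_pow (hpos : ∀ x, 0 < G.degree x) (t : ℕ) (x y : V) :
    (lazyP G ^ t) x y = (Real.sqrt (G.degree x))⁻¹ * (Sm G ^ t) x y * Real.sqrt (G.degree y) := by
  have hs : ∀ x, 0 < Real.sqrt (G.degree x) := fun x =>
    Real.sqrt_pos.2 (by exact_mod_cast hpos x)
  have hs2 : ∀ x, Real.sqrt (G.degree x) ^ 2 = G.degree x := fun x =>
    Real.sq_sqrt (by positivity)
  have h1 : ∀ x y, lazyP G x y = (Real.sqrt (G.degree x))⁻¹ * Sm G x y * Real.sqrt (G.degree y) := by
    intro x y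
    have hx := (hs x).ne'
    have hy := (hs y).ne'
    unfold lazyP Sm
    by_cases hxy : x = y
    · subst hxy
      rw [if_pos rfl, if_pos rfl]
      field_simp
    · rw [if_neg hxy, if_neg hxy]
      by_cases ha : G.Adj x y
      · rw [if_pos ha, if_pos ha, ← hs2 x]
        rw [Real.sqrt_sq (hs x).le]
        field_simp
      · rw [if_neg ha, if_neg ha]; simp
  induction t generalizing y with
  | zero =>
    rw [pow_zero, pow_zero, Matrix.one_apply]
    have hx := (hs x).ne'
    split_ifs with h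
    · subst h; field_simp
    · simp
  | succ t ih =>
    rw [pow_succ, pow_succ, Matrix.mul_apply, Matrix.mul_apply, Finset.mul_sum, Finset.sum_mul]
    apply Finset.sum_congr rfl
    intro z _
    have hz := (hs z).ne'
    rw [ih, h1 z y]
    field_simp

theorem lazyP_dist (hG : G.Connected) (t : ℕ) (x y : V) (h : (lazyP G ^ t) x y ≠ 0) :
    G.dist x y ≤ t := by
  induction t generalizing y with
  | zero =>
    rw [pow_zero, Matrix.one_apply] at h
    have : x = y := by
      by_contra hne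
      exact h (if_neg hne)
    subst this; simp
  | succ t ih =>
    rw [pow_succ, Matrix.mul_apply] at h
    obtain ⟨z, -, hz⟩ := Finset.exists_ne_zero_of_sum_ne_zero h
    have h1 := ih z (left_ne_zero_of_mul hz)
    have h2 := right_ne_zero_of_mul hz
    have h3 : G.dist z y ≤ 1 := by
      unfold lazyP at h2
      by_cases hzy : z = y
      · subst hzy; simp
      · rw [if_neg hzy] at h2
        by_cases ha : G.Adj z y
        · exact (SimpleGraph.dist_eq_one_iff_adj.2 ha).le
        · exact absurd (if_neg ha) h2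
    have := hG.dist_triangle (u := x) (v := z) (w := y)
    omega

theorem sum_deg_pos [Nonempty V] (hpos : ∀ x, 0 < G.degree x) : (0 : ℝ) < ∑ z, (G.degree z : ℝ) := by
  apply Finset.sum_pos (fun x _ => by exact_mod_cast hpos x) Finset.univ_nonempty

/-- consequences of mixing -/
theorem mixed_trace [Nonempty V] (hpos : ∀ x, 0 < G.degree x) (h : Spec (Sm G) l φ) {t : ℕ}
    (hm : Mixed G t) : ∑ i : Fin (Fintype.card V), (if i.val = 0 then 0 else l i ^ t) ≤ 1/4 := by
  have hs : ∀ x, 0 < Real.sqrt (G.degree x) := fun x =>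
    Real.sqrt_pos.2 (by exact_mod_cast hpos x)
  have hsum := sum_deg_pos hpos
  have h1 : ∑ i, l i ^ t ≤ 5/4 := by
    rw [← h.trace_pow Sm_symm]
    have h2 : ∀ x, (Sm G ^ t) x x ≤ 5/4 * statPi G x := by
      intro x
      have h3 := lazyP_pow hpos t x x
      have h4 : (lazyP G ^ t) x x = (Sm G ^ t) x x := by
        rw [h3]
        have := (hs x).ne'
        field_simp
      have h5 := (abs_le.1 (hm x x)).2
      have hpi : 0 < statPi G x := div_pos (by exact_mod_cast hpos x) hsum
      rw [h4] at h5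
      have h6 : (Sm G ^ t) x x / statPi G x ≤ 5/4 := by linarith
      rwa [div_le_iff₀ hpi] at h6
    calc ∑ x, (Sm G ^ t) x x ≤ ∑ x, 5/4 * statPi G x := Finset.sum_le_sum fun x _ => h2 x
      _ = 5/4 := by
        rw [← Finset.mul_sum]
        unfold statPi
        rw [← Finset.sum_div, div_self hsum.ne', mul_one]
  have hcard : 0 < Fintype.card V := Fintype.card_pos
  have h7 : ∑ i : Fin (Fintype.card V), l i ^ t =
      ∑ i : Fin (Fintype.card V), (if i.val = 0 then l i ^ t else 0) +
      ∑ i : Fin (Fintype.card V), (if i.val = 0 then 0 else l i ^ t) := by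
    rw [← Finset.sum_add_distrib]
    apply Finset.sum_congr rfl
    intro i _
    split_ifs <;> simp
  have h8 : ∑ i : Fin (Fintype.card V), (if i.val = 0 then l i ^ t else 0) = 1 := by
    rw [Finset.sum_eq_single (⟨0, hcard⟩ : Fin (Fintype.card V))]
    · rw [if_pos rfl, eig_top hpos h _ rfl, one_pow]
    · intro i _ hi
      rw [if_neg]
      intro h0
      exact hi (Fin.ext h0)
    · intro h0; exact absurd (Finset.mem_univ _) h0
  linarith

theorem mixed_card [Nonempty V] (hG : G.Connected) (hpos : ∀ x, 0 < G.degree x) {D : ℕ}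
    (hD : ∀ x, G.degree x ≤ D) {t : ℕ} (hm : Mixed G t) : Fintype.card V ≤ (D + 1) ^ t := by
  obtain ⟨x⟩ := (inferInstance : Nonempty V)
  refine le_trans ?_ (card_ball hG hD x t)
  rw [← Finset.card_univ]
  apply Finset.card_le_card
  intro y _
  rw [mem_ball]
  apply lazyP_dist hG
  intro h0
  have h1 := hm x y
  rw [h0, zero_div, zero_sub, abs_neg, abs_one] at h1
  norm_num at h1

theorem mixed_pos [Nontrivial V] {t : ℕ} (hm : Mixed G t) : 1 ≤ t := by
  by_contra h
  have ht : t = 0 := by omega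
  subst ht
  obtain ⟨x, y, hxy⟩ := exists_pair_ne V
  have h1 := hm x y
  rw [pow_zero, Matrix.one_apply, if_neg hxy, zero_div, zero_sub, abs_neg, abs_one] at h1
  norm_num at h1

/-! ### vertex-transitive graphs -/

theorem Sm_row {d : ℕ} (hd : 0 < d) (hreg : ∀ x, G.degree x = d) (x : V) :
    ∑ y, Sm G x y = 1 := by
  have hdR : (0 : ℝ) < d := by exact_mod_cast hd
  have h1 : ∀ y, Sm G x y = (if x = y then 1/2 else 0) + (if G.Adj x y then 1/(2 * (d : ℝ)) else 0) := by
    intro y
    unfold Sm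
    rw [hreg, hreg, Real.mul_self_sqrt hdR.le]
    by_cases hxy : x = y
    · subst hxy
      rw [if_pos rfl, if_pos rfl, if_neg (G.irrefl), add_zero]
    · rw [if_neg hxy, if_neg hxy, zero_add]
  simp_rw [h1, Finset.sum_add_distrib]
  rw [← Finset.sum_filter (fun y => G.Adj x y), Finset.sum_const, nsmul_eq_mul]
  have h2 : (univ.filter (fun y => G.Adj x y)).card = d := by
    rw [← hreg x, ← SimpleGraph.card_neighborFinset_eq_degree]
    congr 1
    ext y
    simp
  rw [h2]
  simp only [Finset.sum_ite_eq, Finset.mem_univ, if_true]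
  field_simp
  norm_num

theorem Sm_pow_row {d : ℕ} (hd : 0 < d) (hreg : ∀ x, G.degree x = d) (s : ℕ) (x : V) :
    ∑ y, (Sm G ^ s) x y = 1 := by
  induction s with
  | zero => simp [Matrix.one_apply]
  | succ s ih =>
    simp_rw [pow_succ, Matrix.mul_apply]
    rw [Finset.sum_comm]
    simp_rw [← Finset.mul_sum, Sm_row hd hreg, mul_one]
    exact ih

theorem Sm_pow_symm (s : ℕ) (x y : V) : (Sm G ^ s) x y = (Sm G ^ s) y x := by
  have h1 : (Sm G)ᵀ = Sm G := by
    ext x y
    exact Sm_symm y x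
  have h2 : ((Sm G) ^ s)ᵀ = Sm G ^ s := by rw [Matrix.transpose_pow, h1]
  calc (Sm G ^ s) x y = ((Sm G ^ s)ᵀ) x y := by rw [h2]
    _ = (Sm G ^ s) y x := rfl

theorem Sm_pow_aut {d : ℕ} (hreg : ∀ x, G.degree x = d) (e : G ≃g G) (s : ℕ) (x y : V) :
    (Sm G ^ s) (e x) (e y) = (Sm G ^ s) x y := by
  have h1 : ∀ x y, Sm G (e x) (e y) = Sm G x y := by
    intro x y
    unfold Sm
    rw [hreg, hreg, hreg, hreg]
    by_cases hxy : x = y
    · subst hxy; simp
    · rw [if_neg hxy, if_neg (fun h => hxy (e.injective h))]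
      by_cases ha : G.Adj x y
      · rw [if_pos ha, if_pos (e.map_adj_iff.2 ha)]
      · rw [if_neg ha, if_neg (fun h => ha (e.map_adj_iff.1 h))]
  induction s generalizing y with
  | zero =>
    rw [pow_zero, Matrix.one_apply, Matrix.one_apply]
    by_cases hxy : x = y
    · subst hxy; simp
    · rw [if_neg hxy, if_neg (fun h => hxy (e.injective h))]
  | succ s ih =>
    rw [pow_succ, Matrix.mul_apply, Matrix.mul_apply]
    rw [← Equiv.sum_comp e.toEquiv]
    apply Finset.sum_congr rfl
    intro z _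
    show (Sm G ^ s) (e x) (e z) * Sm G (e z) (e y) = _
    rw [ih, h1]

theorem transitive_mixed [Nonempty V] {d : ℕ} (hd : 0 < d) (hreg : ∀ x, G.degree x = d)
    (htr : ∀ x y, ∃ e : G ≃g G, e x = y) (h : Spec (Sm G) l φ) (s : ℕ)
    (hsum : ∑ i, l i ^ (s + s) ≤ 5/4) : Mixed G (s + s) := by
  have hpos : ∀ x, 0 < G.degree x := fun x => by rw [hreg]; exact hd
  have hdR : (0 : ℝ) < d := by exact_mod_cast hd
  set n : ℝ := (Fintype.card V : ℝ) with hn
  have hnpos : 0 < n := by
    rw [hn]; exact_mod_cast Fintype.card_pos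
  have hdiag : ∀ x, n * (Sm G ^ (s + s)) x x ≤ 5/4 := by
    intro x
    have h1 : ∑ y, (Sm G ^ (s + s)) y y = n * (Sm G ^ (s + s)) x x := by
      have h2 : ∀ y, (Sm G ^ (s + s)) y y = (Sm G ^ (s + s)) x x := by
        intro y
        obtain ⟨e, he⟩ := htr x y
        rw [← he, Sm_pow_aut hreg]
      simp_rw [h2]
      rw [Finset.sum_const, nsmul_eq_mul, Finset.card_univ]
    rw [← h1, h.trace_pow Sm_symm]
    exact hsum
  let a : V → V → ℝ := fun x z => (Sm G ^ s) x z - 1 / n
  have ha : ∀ x y, ∑ z, a x z * a y z = (Sm G ^ (s + s)) x y - 1 / n := by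
    intro x y
    have h1 : ∀ z, a x z * a y z = (Sm G ^ s) x z * (Sm G ^ s) z y - 1 / n * (Sm G ^ s) x z -
        1 / n * (Sm G ^ s) y z + 1 / n * (1 / n) := by
      intro z
      simp only [a]
      rw [Sm_pow_symm s z y]
      ring
    simp_rw [h1, Finset.sum_add_distrib, Finset.sum_sub_distrib, ← Finset.mul_sum,
      Sm_pow_row hd hreg, Finset.sum_const, nsmul_eq_mul, Finset.card_univ]
    rw [pow_add, Matrix.mul_apply, ← hn]
    field_simp
    ring
  intro x y
  have hP : (lazyP G ^ (s + s)) x y = (Sm G ^ (s + s)) x y := by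
    rw [lazyP_pow hpos, hreg, hreg]
    have : (Real.sqrt (d : ℝ)) ≠ 0 := (Real.sqrt_pos.2 hdR).ne'
    field_simp
  have hpi : statPi G y = 1 / n := by
    unfold statPi
    simp_rw [hreg]
    rw [Finset.sum_const, nsmul_eq_mul, Finset.card_univ, ← hn]
    field_simp
  rw [hP, hpi]
  have h2 : (Sm G ^ (s + s)) x y / (1 / n) - 1 = n * ∑ z, a x z * a y z := by
    rw [ha]; field_simp
  rw [h2, abs_mul, abs_of_pos hnpos]
  have h3 : |∑ z, a x z * a y z| ≤ (∑ z, a x z * a x z + ∑ z, a y z * a y z) / 2 := by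
    rw [← Finset.sum_add_distrib, Finset.sum_div]
    refine (Finset.abs_sum_le_sum_abs _ _).trans ?_
    apply Finset.sum_le_sum
    intro z _
    rw [abs_le]
    constructor
    · nlinarith [sq_nonneg (a x z + a y z)]
    · nlinarith [sq_nonneg (a x z - a y z)]
  have e1 := ha x x
  have e2 := ha y y
  rw [e1, e2] at h3
  have h4 := hdiag x
  have h5 := hdiag y
  calc n * |∑ z, a x z * a y z| ≤ n * (((Sm G ^ (s + s)) x x - 1 / n + ((Sm G ^ (s + s)) y y - 1 / n)) / 2) :=
        mul_le_mul_of_nonneg_left h3 hnpos.le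
    _ = (n * (Sm G ^ (s + s)) x x + n * (Sm G ^ (s + s)) y y) / 2 - 1 := by field_simp; ring
    _ ≤ 1/4 := by linarith

end

end Mix430
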