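import Pool.Agent.H430.UspSeq

set_option linter.all false

namespace Usp

open Filter Topology Set

/-- `t` is a minimal (Hausdorff) group topology. -/
def IsMinimal (G : Type*) [Group G] (t : TopologicalSpace G) : Prop :=
  @IsTopologicalGroup G t _ ∧ @T2Space G t ∧
    ∀ s : TopologicalSpace G, t ≤ s → @IsTopologicalGroup G s _ → @T2Space G s → s = t

/-- index shifting version of Lemma T -/
theorem exists_coarser' {N : Type*} [Group N] (t : TopologicalSpace N) [IsTopologicalGroup N]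
    [T2Space N] (V : ℕ → Subgroup N) (hV : Antitone V)
    (hbase : (𝓝 (1 : N)).HasBasis (fun _ : ℕ => True) (fun k => (V k : Set N)))
    (d : ℕ → N) (hd : DenseRange d) (k0 : ℕ)
    (h : ∀ (n : ℕ) (F : Finset N), ∃ x : N, (∀ j ≤ n, x ∈ Subgroup.normalizer (V j : Set N)) ∧
      (∀ j ≤ n, x * d j * x⁻¹ * (d j)⁻¹ ∈ V n) ∧ (∀ g ∈ F, x * g * x⁻¹ * g⁻¹ ∈ V n) ∧
      ∀ g ∈ F, g⁻¹ * x ∉ V k0) :
    ∃ s : TopologicalSpace N, t ≤ s ∧ @IsTopologicalGroup N s _ ∧ @T2Space N s ∧ s ≠ t := by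
  classical
  obtain ⟨f, hf1, hf2⟩ := exists_seq_of_forall_finset_exists
    (α := ℕ × N)
    (fun p => (∀ j ≤ p.1, p.2 ∈ Subgroup.normalizer (V j : Set N)) ∧
      (∀ j ≤ p.1, p.2 * d j * p.2⁻¹ * (d j)⁻¹ ∈ V p.1))
    (fun p q => p.1 < q.1 ∧ q.2 * p.2 * q.2⁻¹ * p.2⁻¹ ∈ V q.1 ∧ p.2⁻¹ * q.2 ∉ V k0)
    (by
      intro s _
      obtain ⟨x, hx1, hx2, hx3, hx4⟩ := h (s.sup Prod.fst + 1) (s.image Prod.snd)
      refine ⟨(s.sup Prod.fst + 1, x), ⟨hx1, hx2⟩, fun p hp => ⟨?_, ?_, ?_⟩⟩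
      · exact Nat.lt_succ_of_le (Finset.le_sup (f := Prod.fst) hp)
      · exact hx3 _ (Finset.mem_image_of_mem _ hp)
      · exact hx4 _ (Finset.mem_image_of_mem _ hp))
  have hmono : StrictMono (fun n => (f n).1) := fun m n hmn => (hf2 m n hmn).1
  have hge : ∀ n, n ≤ (f n).1 := hmono.id_le
  refine exists_coarser t V hV hbase (fun n => (f n).2) ?_ ?_ ?_ k0 ?_
  · intro j n hjn
    exact (hf1 n).1 j (hjn.trans (hge n))
  · intro m n hmn
    exact hV (hge n) (hf2 m n hmn).2.1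
  · intro g k
    have hc : ContinuousAt (fun v : N => g * v * g⁻¹) 1 := by fun_prop
    have h2 : (fun v : N => g * v * g⁻¹) ⁻¹' (V k : Set N) ∈ 𝓝 (1 : N) := by
      apply hc.preimage_mem_nhds
      simpa using hbase.mem_of_mem (i := k) trivial
    obtain ⟨m, -, hm⟩ := hbase.mem_iff.1 h2
    have hc2 : ContinuousAt (fun v : N => v⁻¹ * g) g := by fun_prop
    have h3 : (fun v : N => v⁻¹ * g) ⁻¹' (V m : Set N) ∈ 𝓝 g := by
      apply hc2.preimage_mem_nhds
      simpa using hbase.mem_of_mem (i := m) trivial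
    obtain ⟨_, hz, j, rfl⟩ := (mem_closure_iff_nhds.1 (hd g)) _ h3
    refine ⟨max k (max m j), fun n hn => ?_⟩
    have hkn : k ≤ n := (le_max_left _ _).trans hn
    have hmn : m ≤ n := ((le_max_left _ _).trans (le_max_right _ _)).trans hn
    have hjn : j ≤ n := ((le_max_right _ _).trans (le_max_right _ _)).trans hn
    set x := (f n).2 with hx
    have hv : (d j)⁻¹ * g ∈ V m := hz
    have h4 : x * d j * x⁻¹ * (d j)⁻¹ ∈ V k := hV (hkn.trans (hge n)) ((hf1 n).2 j (hjn.trans (hge n)))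
    have hnm := (hf1 n).1 m (hmn.trans (hge n))
    have h5 : x * ((d j)⁻¹ * g) * x⁻¹ ∈ V m := (Subgroup.mem_normalizer_iff.1 hnm _).1 hv
    have h6 : ((d j)⁻¹ * g)⁻¹ * (x * ((d j)⁻¹ * g) * x⁻¹) ∈ V m :=
      (V m).mul_mem ((V m).inv_mem hv) h5
    have h7 : g * (((d j)⁻¹ * g)⁻¹ * (x * ((d j)⁻¹ * g) * x⁻¹)) * g⁻¹ ∈ V k := hm h6
    have h8 : x * g * x⁻¹ * g⁻¹ ∈ V k := by
      have : x * g * x⁻¹ * g⁻¹ = (x * d j * x⁻¹ * (d j)⁻¹) *
          (g * (((d j)⁻¹ * g)⁻¹ * (x * ((d j)⁻¹ * g) * x⁻¹)) * g⁻¹) := by group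
      rw [this]
      exact (V k).mul_mem h4 h7
    have h9 := (V k).inv_mem h8
    have h10 : (x * g * x⁻¹ * g⁻¹)⁻¹ = g * x * g⁻¹ * x⁻¹ := by group
    rwa [h10] at h9
  · intro m n hmn
    exact (hf2 m n hmn).2.2

/-- Lemma K: the filter version. -/
theorem eventually_of_minimal {N : Type*} [Group N] (t : TopologicalSpace N)
    (hmin : IsMinimal N t) (V : ℕ → Subgroup N) (hV : Antitone V)
    (hbase : (𝓝 (1 : N)).HasBasis (fun _ : ℕ => True) (fun k => (V k : Set N)))
    (hcpt : ∀ k, IsCompact (V k : Set N))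
    (d : ℕ → N) (hd : DenseRange d) (𝓖 : Filter N)
    (h1 : ∀ g k, ∀ᶠ x in 𝓖, x * g * x⁻¹ * g⁻¹ ∈ V k)
    (h2 : ∀ k, ∀ᶠ x in 𝓖, x ∈ Subgroup.normalizer (V k : Set N)) (k0 : ℕ) :
    ∀ᶠ x in 𝓖, ∃ z ∈ Subgroup.center N, ∃ v ∈ V k0, x = z * v := by
  classical
  haveI := hmin.1
  haveI := hmin.2.1
  by_contra hcon
  have hVopen : ∀ k, IsOpen (V k : Set N) := fun k =>
    Subgroup.isOpen_of_mem_nhds _ (hbase.mem_of_mem (i := k) trivial)
  set O : Set N := {x | ∃ z ∈ Subgroup.center N, ∃ v ∈ V k0, x = z * v} with hO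
  have hOopen : IsOpen O := by
    have : O = ⋃ z ∈ (Subgroup.center N : Set N), (fun v => z⁻¹ * v) ⁻¹' (V k0 : Set N) := by
      ext x
      simp only [hO, mem_setOf_eq, mem_iUnion, mem_preimage, SetLike.mem_coe, exists_prop]
      constructor
      · rintro ⟨z, hz, v, hv, rfl⟩
        exact ⟨z, hz, by simpa using hv⟩
      · rintro ⟨z, hz, hv⟩
        exact ⟨z, hz, z⁻¹ * x, hv, by simp⟩
    rw [this]
    exact isOpen_biUnion fun z _ => (hVopen k0).preimage (by fun_prop)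
  let 𝓕 : Filter N := 𝓖 ⊓ 𝓟 Oᶜ
  haveI hne : 𝓕.NeBot := by
    rw [Filter.neBot_iff]
    intro hbot
    apply hcon
    have := inf_principal_eq_bot.1 hbot
    rw [compl_compl] at this
    exact this
  obtain ⟨s, hs1, hs2, hs3, hs4⟩ := exists_coarser' t V hV hbase d hd k0 (by
    intro n F
    by_contra hno
    -- eventually in 𝓖 the first three conditions hold
    have e1 : ∀ᶠ x in 𝓖, ∀ j ≤ n, x ∈ Subgroup.normalizer (V j : Set N) := by
      have := (Set.finite_Iic n).eventually_all (l := 𝓖)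
        (p := fun j x => x ∈ Subgroup.normalizer (V j : Set N))
      exact this.2 fun j _ => h2 j
    have e2 : ∀ᶠ x in 𝓖, ∀ j ≤ n, x * d j * x⁻¹ * (d j)⁻¹ ∈ V n := by
      have := (Set.finite_Iic n).eventually_all (l := 𝓖)
        (p := fun j x => x * d j * x⁻¹ * (d j)⁻¹ ∈ V n)
      exact this.2 fun j _ => h1 (d j) n
    have e3 : ∀ᶠ x in 𝓖, ∀ g ∈ F, x * g * x⁻¹ * g⁻¹ ∈ V n := by
      have := (F.finite_toSet).eventually_all (l := 𝓖)
        (p := fun g x => x * g * x⁻¹ * g⁻¹ ∈ V n)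
      exact this.2 fun g _ => h1 g n
    set C : Set N := ⋃ g ∈ F, (fun v => g * v) '' (V k0 : Set N) with hC
    have hCc : IsCompact C :=
      F.isCompact_biUnion fun g _ => (hcpt k0).image (by fun_prop)
    have e4 : ∀ᶠ x in 𝓖, x ∈ C := by
      filter_upwards [e1, e2, e3] with x a1 a2 a3
      by_contra hx
      apply hno
      refine ⟨x, a1, a2, a3, fun g hg hgx => hx ?_⟩
      simp only [hC, mem_iUnion]
      exact ⟨g, hg, g⁻¹ * x, hgx, by simp⟩
    have hle : 𝓕 ≤ 𝓟 C := le_principal_iff.2 (mem_inf_of_left e4)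
    obtain ⟨c, hcC, hc⟩ := hCc hle
    -- c is central
    have hclust : ∀ A : Set N, IsClosed A → A ∈ 𝓕 → c ∈ A := by
      intro A hA hAF
      rw [← hA.closure_eq]
      exact mem_closure_iff_clusterPt.2 (hc.mono (le_principal_iff.2 hAF))
    have hcO : c ∈ Oᶜ := hclust _ hOopen.isClosed_compl (mem_inf_of_right (mem_principal_self _))
    apply hcO
    refine ⟨c, ?_, 1, (V k0).one_mem, (mul_one c).symm⟩
    rw [Subgroup.mem_center_iff]
    intro g
    have hone : c * g * c⁻¹ * g⁻¹ = 1 := by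
      by_contra hne1
      obtain ⟨k, -, hk⟩ := hbase.mem_iff.1 (isOpen_compl_singleton.mem_nhds (Ne.symm hne1))
      have hcl : IsClosed ((fun x : N => x * g * x⁻¹ * g⁻¹) ⁻¹' (V k : Set N)) :=
        ((V k).isClosed_of_isOpen (hVopen k)).preimage (by fun_prop)
      have := hclust _ hcl (mem_inf_of_left (h1 g k))
      exact hk this rfl
    have h5 : c * g = g * c := by
      have := congrArg (fun w => w * g * c) hone
      simpa [mul_assoc] using this
    exact h5.symm)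
  exact hs4 (hmin.2.2 s hs1 hs2 hs3)

/-- The centre of a minimal second countable totally disconnected locally compact group
is compact. -/
theorem isCompact_center {N : Type*} [Group N] (t : TopologicalSpace N)
    (hmin : IsMinimal N t) (V : ℕ → Subgroup N) (hV : Antitone V)
    (hbase : (𝓝 (1 : N)).HasBasis (fun _ : ℕ => True) (fun k => (V k : Set N)))
    (hcpt : ∀ k, IsCompact (V k : Set N))
    (d : ℕ → N) (hd : DenseRange d) : IsCompact (Subgroup.center N : Set N) := by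
  classical
  haveI := hmin.1
  haveI := hmin.2.1
  have hclosed : IsClosed (Subgroup.center N : Set N) := by
    have : (Subgroup.center N : Set N) = ⋂ g : N, {x | g * x = x * g} := by
      ext x
      simp [Subgroup.mem_center_iff]
    rw [this]
    exact isClosed_iInter fun g => isClosed_eq (by fun_prop) (by fun_prop)
  by_contra hcon
  obtain ⟨s, hs1, hs2, hs3, hs4⟩ := exists_coarser' t V hV hbase d hd 0 (by
    intro n F
    by_contra hno
    apply hcon
    set C : Set N := ⋃ g ∈ F, (fun v => g * v) '' (V 0 : Set N) with hC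
    have hCc : IsCompact C :=
      F.isCompact_biUnion fun g _ => (hcpt 0).image (by fun_prop)
    refine hCc.of_isClosed_subset hclosed ?_
    intro x hx
    by_contra hxC
    apply hno
    have hxc : ∀ g, x * g = g * x := fun g => (Subgroup.mem_center_iff.1 hx g).symm
    have hcomm : ∀ g, x * g * x⁻¹ * g⁻¹ = 1 := by
      intro g; rw [hxc g]; group
    refine ⟨x, ?_, ?_, ?_, ?_⟩
    · intro j _
      rw [Subgroup.mem_normalizer_iff]
      intro h
      rw [hxc h, mul_inv_cancel_right]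
    · intro j _
      rw [hcomm]; exact (V n).one_mem
    · intro g _
      rw [hcomm]; exact (V n).one_mem
    · intro g hg hgx
      apply hxC
      simp only [hC, mem_iUnion]
      exact ⟨g, hg, g⁻¹ * x, hgx, by simp⟩)
  exact hs4 (hmin.2.2 s hs1 hs2 hs3)

end Usp
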