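import Pool.Agent.H430.UspWord

set_option linter.all false

namespace Usp

open Filter Topology Set
open scoped Pointwise

section lemY

variable {N : Type*} [Group N] [TopologicalSpace N] [IsTopologicalGroup N] [T2Space N]

theorem eventually_forall_compact {X Y : Type*} [TopologicalSpace Y] {𝓕 : Filter X} {C : Set Y}
    (hC : IsCompact C) {P : X → Y → Prop} (h : ∀ c ∈ C, ∀ᶠ z : X × Y in 𝓕 ×ˢ 𝓝 c, P z.1 z.2) :
    ∀ᶠ x in 𝓕, ∀ c ∈ C, P x c := by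
  refine hC.induction_on (p := fun s => ∀ᶠ x in 𝓕, ∀ c ∈ s, P x c) ?_ ?_ ?_ ?_
  · exact Eventually.of_forall fun x c hc => absurd hc (notMem_empty c)
  · intro s t hst ht
    filter_upwards [ht] with x hx c hc using hx c (hst hc)
  · intro s t hs ht
    filter_upwards [hs, ht] with x h1 h2 c hc
    rcases hc with hc | hc
    · exact h1 c hc
    · exact h2 c hc
  · intro c hc
    have h1 := h c hc
    rw [Filter.eventually_iff, mem_prod_iff] at h1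
    obtain ⟨A, hA, B, hB, hAB⟩ := h1
    refine ⟨B, mem_nhdsWithin_of_mem_nhds hB, ?_⟩
    filter_upwards [hA] with x hx c' hc'
    exact hAB (mk_mem_prod hx hc')

/-- asymptotically central filters -/
def AC (𝓤 : Filter N) : Prop :=
  ∀ c : N, Tendsto (fun p : N × N => p.1 * p.2 * p.1⁻¹) (𝓤 ×ˢ 𝓝 c) (𝓝 c) ∧
    Tendsto (fun p : N × N => p.1⁻¹ * p.2 * p.1) (𝓤 ×ˢ 𝓝 c) (𝓝 c)

theorem AC.pow {𝓤 : Filter N} (h : AC 𝓤) (k : ℕ) (c : N) :
    Tendsto (fun p : N × N => (p.1 ^ k)⁻¹ * p.2 * p.1 ^ k) (𝓤 ×ˢ 𝓝 c) (𝓝 c) := by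
  induction k with
  | zero => simpa using tendsto_snd (f := 𝓤) (g := 𝓝 c)
  | succ k ih =>
    have h1 : Tendsto (fun p : N × N => (p.1, (p.1 ^ k)⁻¹ * p.2 * p.1 ^ k)) (𝓤 ×ˢ 𝓝 c)
        (𝓤 ×ˢ 𝓝 c) := tendsto_fst.prodMk ih
    have h2 := (h c).2.comp h1
    refine h2.congr ?_
    intro p
    simp only [Function.comp_apply]
    rw [pow_succ]
    group

theorem AC.theta {𝓤 : Filter N} (h : AC 𝓤) (x : N) (k : ℕ) :
    Tendsto (fun x' : N => (x * x'⁻¹) ^ k * x' ^ k * (x ^ k)⁻¹) 𝓤 (𝓝 1) := by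
  induction k with
  | zero => simpa using tendsto_const_nhds (x := (1 : N)) (f := 𝓤)
  | succ k ih =>
    have h1 : Tendsto (fun x' : N => (x', x)) 𝓤 (𝓤 ×ˢ 𝓝 x) :=
      tendsto_id.prodMk tendsto_const_nhds
    have h2 := (h.pow k x).comp h1
    have h3 : Tendsto (fun x' : N => x ^ k * ((x' ^ k)⁻¹ * x * x' ^ k) * (x ^ (k+1))⁻¹) 𝓤 (𝓝 1) := by
      have h4 : Tendsto (fun x' : N => x ^ k * ((x' ^ k)⁻¹ * x * x' ^ k) * (x ^ (k+1))⁻¹) 𝓤
          (𝓝 (x ^ k * x * (x ^ (k+1))⁻¹)) :=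
        (tendsto_const_nhds.mul h2).mul tendsto_const_nhds
      have h5 : x ^ k * x * (x ^ (k+1))⁻¹ = 1 := by
        rw [← pow_succ]; group
      rwa [h5] at h4
    have h6 := ih.mul h3
    rw [one_mul] at h6
    refine h6.congr ?_
    intro x'
    rw [pow_succ (x * x'⁻¹), pow_succ' x' k, pow_succ x k]
    group

theorem lemY [LocallyCompactSpace N] (𝓤 : Ultrafilter N) (h : AC (𝓤 : Filter N))
    (hinf : ∀ C : Set N, IsCompact C → ∀ᶠ x in (𝓤 : Filter N), x ∉ C)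
    {D F O : Set N} (hD : IsCompact D) (hF : IsCompact F) (hO : O ∈ 𝓝 (1 : N)) (K : ℕ) :
    ∃ y : N, (∀ c ∈ D, y * c * y⁻¹ * c⁻¹ ∈ O ∧ y⁻¹ * c * y * c⁻¹ ∈ O) ∧ y ∉ F ∧
      ∀ k : ℤ, |k| ≤ (K : ℤ) → y ^ k ∈ O ∨ y ^ k ∉ F := by
  -- symmetrise
  have hOinv : O ∩ O⁻¹ ∈ 𝓝 (1 : N) := inter_mem hO (by simpa using inv_mem_nhds_one N hO)
  obtain ⟨O1, hO1o, hO1, hO1m⟩ := exists_open_nhds_one_mul_subset hOinv
  have hF' : IsCompact (F ∪ F⁻¹) := hF.union hF.inv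
  obtain ⟨K1, hK1n, -, hK1c⟩ := local_compact_nhds (univ_mem : (univ : Set N) ∈ 𝓝 (1 : N))
  -- first condition
  have e1 : ∀ᶠ p : N × N in (𝓤 : Filter N) ×ˢ (𝓤 : Filter N), ∀ c ∈ D,
      (p.1 * p.2⁻¹) * c * (p.1 * p.2⁻¹)⁻¹ * c⁻¹ ∈ O ∧
      (p.1 * p.2⁻¹)⁻¹ * c * (p.1 * p.2⁻¹) * c⁻¹ ∈ O := by
    refine eventually_forall_compact hD (P := fun (p : N × N) c =>
      (p.1 * p.2⁻¹) * c * (p.1 * p.2⁻¹)⁻¹ * c⁻¹ ∈ O ∧
      (p.1 * p.2⁻¹)⁻¹ * c * (p.1 * p.2⁻¹) * c⁻¹ ∈ O) ?_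
    intro c _
    have t1 : Tendsto (fun z : (N × N) × N => (z.1.1, z.1.2⁻¹ * z.2 * z.1.2))
        (((𝓤 : Filter N) ×ˢ (𝓤 : Filter N)) ×ˢ 𝓝 c) ((𝓤 : Filter N) ×ˢ 𝓝 c) := by
      refine (tendsto_fst.comp tendsto_fst).prodMk ?_
      exact (h c).2.comp ((tendsto_snd.comp tendsto_fst).prodMk tendsto_snd)
    have t2 : Tendsto (fun z : (N × N) × N => (z.1.2, z.1.1⁻¹ * z.2 * z.1.1))
        (((𝓤 : Filter N) ×ˢ (𝓤 : Filter N)) ×ˢ 𝓝 c) ((𝓤 : Filter N) ×ˢ 𝓝 c) := by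
      refine (tendsto_snd.comp tendsto_fst).prodMk ?_
      exact (h c).2.comp ((tendsto_fst.comp tendsto_fst).prodMk tendsto_snd)
    have t3 := ((h c).1.comp t1).mul (tendsto_snd (f := (𝓤 : Filter N) ×ˢ (𝓤 : Filter N)) (g := 𝓝 c)).inv
    have t4 := ((h c).1.comp t2).mul (tendsto_snd (f := (𝓤 : Filter N) ×ˢ (𝓤 : Filter N)) (g := 𝓝 c)).inv
    rw [mul_inv_cancel] at t3 t4
    filter_upwards [t3 hO, t4 hO] with z h1 h2
    constructor
    · have : z.1.1 * z.1.2⁻¹ * z.2 * (z.1.1 * z.1.2⁻¹)⁻¹ * z.2⁻¹ =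
        z.1.1 * (z.1.2⁻¹ * z.2 * z.1.2) * z.1.1⁻¹ * z.2⁻¹ := by group
      rw [this]; exact h1
    · have : (z.1.1 * z.1.2⁻¹)⁻¹ * z.2 * (z.1.1 * z.1.2⁻¹) * z.2⁻¹ =
        z.1.2 * (z.1.1⁻¹ * z.2 * z.1.1) * z.1.2⁻¹ * z.2⁻¹ := by group
      rw [this]; exact h2
  -- powers
  have eF : ∀ k : ℕ, (∀ C : Set N, IsCompact C → ∀ᶠ x in (𝓤 : Filter N), x ^ k ∉ C) →
      ∀ x : N, ∀ᶠ x' in (𝓤 : Filter N), (x * x'⁻¹) ^ k ∉ F ∪ F⁻¹ := by
    intro k hk x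
    have hK1' : IsCompact ((F ∪ F⁻¹)⁻¹ * K1 * {x ^ k}) :=
      (hF'.inv.mul hK1c).mul isCompact_singleton
    filter_upwards [hk _ hK1', (h.theta x k) hK1n] with x' a1 a2 a3
    apply a1
    refine ⟨((x * x'⁻¹) ^ k)⁻¹ * ((x * x'⁻¹) ^ k * x' ^ k * (x ^ k)⁻¹), ?_, x ^ k, rfl, ?_⟩
    · exact mul_mem_mul (Set.inv_mem_inv.2 a3) a2
    · simp [mul_assoc]
  have e2 : ∀ k : ℕ, ∀ᶠ x in (𝓤 : Filter N), ∀ᶠ x' in (𝓤 : Filter N),
      (x * x'⁻¹) ^ k ∈ O ∩ O⁻¹ ∨ (x * x'⁻¹) ^ k ∉ F ∪ F⁻¹ := by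
    intro k
    by_cases hk : ∀ C : Set N, IsCompact C → ∀ᶠ x in (𝓤 : Filter N), x ^ k ∉ C
    · exact Eventually.of_forall fun x => (eF k hk x).mono fun x' hx' => Or.inr hx'
    · push Not at hk
      obtain ⟨C, hC, hk⟩ := hk
      have hk' : ∀ᶠ x in (𝓤 : Filter N), x ^ k ∈ C := hk
      have hle : ((𝓤.map (fun x => x ^ k) : Ultrafilter N) : Filter N) ≤ 𝓟 C :=
        le_principal_iff.2 hk'
      obtain ⟨z, -, hz⟩ := hC.ultrafilter_le_nhds _ hle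
      have hz' : Tendsto (fun x : N => x ^ k) (𝓤 : Filter N) (𝓝 z) := hz
      have t1 : Tendsto (fun p : N × N => p.1 ^ k * (p.2 ^ k)⁻¹)
          ((𝓤 : Filter N) ×ˢ (𝓤 : Filter N)) (𝓝 1) := by
        have := (hz'.comp (tendsto_fst (f := (𝓤 : Filter N)) (g := (𝓤 : Filter N)))).mul
          (hz'.comp (tendsto_snd (f := (𝓤 : Filter N)) (g := (𝓤 : Filter N)))).inv
        rwa [mul_inv_cancel] at this
      have t2 := (t1 (hO1o.mem_nhds hO1))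
      have t3 : ∀ᶠ p : N × N in (𝓤 : Filter N) ×ˢ (𝓤 : Filter N), p.1 ^ k * (p.2 ^ k)⁻¹ ∈ O1 := t2
      filter_upwards [t3.curry] with x hx
      filter_upwards [hx, (h.theta x k) (hO1o.mem_nhds hO1)] with x' a1 a2
      left
      apply hO1m
      refine ⟨_, a2, _, a1, ?_⟩
      simp [mul_assoc]
  have e3 : ∀ᶠ x in (𝓤 : Filter N), ∀ᶠ x' in (𝓤 : Filter N), ∀ k ≤ K,
      (x * x'⁻¹) ^ k ∈ O ∩ O⁻¹ ∨ (x * x'⁻¹) ^ k ∉ F ∪ F⁻¹ := by
    have h1 : ∀ᶠ x in (𝓤 : Filter N), ∀ k ∈ Set.Iic K, ∀ᶠ x' in (𝓤 : Filter N),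
        (x * x'⁻¹) ^ k ∈ O ∩ O⁻¹ ∨ (x * x'⁻¹) ^ k ∉ F ∪ F⁻¹ :=
      (Set.finite_Iic K).eventually_all.2 fun k _ => e2 k
    filter_upwards [h1] with x hx
    exact (Set.finite_Iic K).eventually_all.2 hx
  obtain ⟨x, hx1, hx3⟩ := (e1.curry.and e3).exists
  have hx2 := eF 1 (by simpa using hinf) x
  obtain ⟨x', h1, h3, h2⟩ := (hx1.and (hx3.and hx2)).exists
  refine ⟨x * x'⁻¹, h1, ?_, ?_⟩
  · rw [pow_one] at h2
    exact fun hF0 => h2 (Or.inl hF0)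
  · intro k hk
    rcases Int.eq_nat_or_neg k with ⟨n, rfl | rfl⟩
    · have hn : n ≤ K := by
        have : ((n : ℤ)) ≤ K := by simpa using hk
        exact_mod_cast this
      rw [zpow_natCast]
      rcases h3 n hn with h4 | h4
      · exact Or.inl h4.1
      · exact Or.inr fun h5 => h4 (Or.inl h5)
    · have hn : n ≤ K := by
        have : ((n : ℤ)) ≤ K := by simpa using hk
        exact_mod_cast this
      rw [zpow_neg, zpow_natCast]
      rcases h3 n hn with h4 | h4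
      · exact Or.inl h4.2
      · exact Or.inr fun h5 => h4 (Or.inr h5)

/-- the words with finitely many letters `y` stay in a compact set -/
theorem exists_compact_words (V : ℕ → Set N) (f : ℕ → N) (n : ℕ) (hV0 : IsCompact (V 0))
    (h1 : ∀ n, (1 : N) ∈ V n)
    (h3 : ∀ n, ∀ a ∈ V (n+1), ∀ b ∈ V (n+1), ∀ c ∈ V (n+1), a * b * c ∈ V n) :
    ∃ E : Set N, IsCompact E ∧ ∀ r x, r < 1 → Wd V f n r x → x ∈ E := by
  classical
  let Y : Set N := (f '' {m | m < n}) ∪ (f '' {m | m < n})⁻¹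
  have hYf : Y.Finite := by
    have h : (f '' {m | m < n}).Finite := (Set.finite_lt_nat n).image f
    exact h.union h.inv
  have hYc : IsCompact Y := hYf.isCompact
  let A : ℕ → Set N := fun t => Nat.rec ({1} : Set N) (fun _ B => B ∪ Y * (V 0 * B)) t
  have hA0 : A 0 = {1} := rfl
  have hA1 : ∀ t, A (t+1) = A t ∪ Y * (V 0 * A t) := fun t => rfl
  have hAc : ∀ t, IsCompact (A t) := by
    intro t
    induction t with
    | zero => rw [hA0]; exact isCompact_singleton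
    | succ t ih => rw [hA1]; exact ih.union (hYc.mul (hV0.mul ih))
  have hAm : Monotone A := by
    apply monotone_nat_of_le_succ
    intro t
    rw [hA1]
    exact subset_union_left
  have key : ∀ r x, Wd V f n r x → r < 1 → ∃ (t : ℕ) (b a : N) (rb : ℝ),
      (t : ℝ) * (1/2)^n + rb ≤ r ∧ Wd V f 0 rb b ∧ a ∈ A t ∧ x = b * a := by
    intro r x h
    induction h with
    | one => intro _; exact ⟨0, 1, 1, 0, by simp, Wd.one, rfl, by simp⟩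
    | @cv r x m v hv hw ih =>
      intro hr
      have := pw m
      obtain ⟨t, b, a, rb, a1, a2, a3, a4⟩ := ih (by linarith)
      exact ⟨t, v * b, a, (1/2)^m + rb, by linarith, Wd.cv hv a2, a3, by rw [a4, mul_assoc]⟩
    | @cy r x m hm hw ih =>
      intro hr
      have := pw m
      obtain ⟨t, b, a, rb, a1, a2, a3, a4⟩ := ih (by linarith)
      have hrb := a2.nonneg
      have htn : (0 : ℝ) ≤ (t : ℝ) * (1/2)^n := by positivity
      have hb : b ∈ V 0 := a2.bk h1 h3 (by rw [pow_zero]; linarith)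
      have hmn := pow_le_pow_of_le_one (by norm_num : (0:ℝ) ≤ 1/2) (by norm_num : (1/2 : ℝ) ≤ 1) hm.le
      refine ⟨t + 1, 1, f m * (b * a), 0, ?_, Wd.one, ?_, by rw [a4, one_mul]⟩
      · push_cast; linarith
      · rw [hA1]
        right
        exact mul_mem_mul (Or.inl ⟨m, hm, rfl⟩) (mul_mem_mul hb a3)
    | @ci r x m hm hw ih =>
      intro hr
      have := pw m
      obtain ⟨t, b, a, rb, a1, a2, a3, a4⟩ := ih (by linarith)
      have hrb := a2.nonneg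
      have htn : (0 : ℝ) ≤ (t : ℝ) * (1/2)^n := by positivity
      have hb : b ∈ V 0 := a2.bk h1 h3 (by rw [pow_zero]; linarith)
      have hmn := pow_le_pow_of_le_one (by norm_num : (0:ℝ) ≤ 1/2) (by norm_num : (1/2 : ℝ) ≤ 1) hm.le
      refine ⟨t + 1, 1, (f m)⁻¹ * (b * a), 0, ?_, Wd.one, ?_, by rw [a4, one_mul]⟩
      · push_cast; linarith
      · rw [hA1]
        right
        refine mul_mem_mul (Or.inr ?_) (mul_mem_mul hb a3)
        rw [Set.inv_mem_inv]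
        exact ⟨m, hm, rfl⟩
  refine ⟨V 0 * A (2^n), hV0.mul (hAc _), ?_⟩
  intro r x hr h
  obtain ⟨t, b, a, rb, a1, a2, a3, a4⟩ := key r x h hr
  have hrb := a2.nonneg
  have htn : (0 : ℝ) ≤ (t : ℝ) * (1/2)^n := by positivity
  have hb : b ∈ V 0 := a2.bk h1 h3 (by rw [pow_zero]; linarith)
  have ht : t ≤ 2^n := by
    have h5 : (t : ℝ) * (1/2)^n * 2^n ≤ 1 * 2^n := by
      apply mul_le_mul_of_nonneg_right (by linarith) (by positivity)
    rw [mul_assoc, ← mul_pow] at h5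
    have h6 : (t : ℝ) ≤ 2^n := by simpa using h5
    exact_mod_cast h6
  rw [a4]
  exact mul_mem_mul hb (hAm ht a3)

/-- the basis -/
theorem exists_base [LocallyCompactSpace N] [FirstCountableTopology N] (C : ℕ → Set N)
    (hC : ∀ n, IsCompact (C n)) :
    ∃ V : ℕ → Set N, (𝓝 (1 : N)).HasBasis (fun _ : ℕ => True) V ∧ IsCompact (V 0) ∧
      (∀ n, ∀ a ∈ V (n+1), ∀ b ∈ V (n+1), ∀ c ∈ V (n+1), a * b * c ∈ V n) ∧
      (∀ n, ∀ v ∈ V n, v⁻¹ ∈ V n) ∧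
      (∀ n, ∀ g ∈ C n, ∀ v ∈ V (n+1), g * v * g⁻¹ ∈ V n) := by
  obtain ⟨O, hO⟩ := (𝓝 (1 : N)).exists_antitone_basis
  have step : ∀ (n : ℕ) (A : Set N), A ∈ 𝓝 (1 : N) → ∃ B ∈ 𝓝 (1 : N), B ⊆ O n ∧
      (∀ a ∈ B, ∀ b ∈ B, ∀ c ∈ B, a * b * c ∈ A) ∧ (∀ v ∈ B, v⁻¹ ∈ B) ∧
      (∀ g ∈ C (n-1), ∀ v ∈ B, g * v * g⁻¹ ∈ A) := by
    intro n A hA
    have c1 : ∀ᶠ v in 𝓝 (1 : N), ∀ g ∈ C (n-1), g * v * g⁻¹ ∈ A := by
      refine (hC (n-1)).eventually_forall_of_forall_eventually (P := fun v g => g * v * g⁻¹ ∈ A) ?_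
      intro g _
      have hc : ContinuousAt (fun p : N × N => p.2 * p.1 * p.2⁻¹) (1, g) := by fun_prop
      apply hc.preimage_mem_nhds
      simpa using hA
    obtain ⟨B1, hB1, hB1m⟩ : ∃ B1 ∈ 𝓝 (1 : N), ∀ a ∈ B1, ∀ b ∈ B1, ∀ c ∈ B1, a * b * c ∈ A := by
      obtain ⟨A1, hA1o, hA1, hA1m⟩ := exists_open_nhds_one_mul_subset hA
      obtain ⟨A2, hA2o, hA2, hA2m⟩ := exists_open_nhds_one_mul_subset (hA1o.mem_nhds hA1)
      refine ⟨A1 ∩ A2, inter_mem (hA1o.mem_nhds hA1) (hA2o.mem_nhds hA2), ?_⟩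
      intro a ha b hb c hc
      exact hA1m (mul_mem_mul (hA2m (mul_mem_mul ha.2 hb.2)) hc.1)
    let B2 : Set N := B1 ∩ {v | ∀ g ∈ C (n-1), g * v * g⁻¹ ∈ A} ∩ O n
    have hB2 : B2 ∈ 𝓝 (1 : N) := inter_mem (inter_mem hB1 c1) (hO.1.mem_of_mem trivial)
    have hB2i : B2⁻¹ ∈ 𝓝 (1 : N) := by simpa using inv_mem_nhds_one N hB2
    refine ⟨B2 ∩ B2⁻¹, inter_mem hB2 hB2i, ?_, ?_, ?_, ?_⟩
    · intro v hv; exact hv.1.2
    · intro a ha b hb c hc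
      exact hB1m a ha.1.1.1 b hb.1.1.1 c hc.1.1.1
    · intro v hv
      exact ⟨hv.2, by simpa using hv.1⟩
    · intro g hg v hv
      exact hv.1.1.2 g hg
  choose! B b1 b2 b3 b4 b5 using step
  obtain ⟨K0, hK0n, -, hK0c⟩ := local_compact_nhds (univ_mem : (univ : Set N) ∈ 𝓝 (1 : N))
  let K : Set N := K0 ∩ K0⁻¹
  have hKn : K ∈ 𝓝 (1 : N) := inter_mem hK0n (by simpa using inv_mem_nhds_one N hK0n)
  have hKc : IsCompact K := hK0c.inter hK0c.inv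
  let V : ℕ → Set N := fun n => Nat.rec K (fun m A => B (m+1) A) n
  have hV0 : V 0 = K := rfl
  have hV1 : ∀ n, V (n+1) = B (n+1) (V n) := fun n => rfl
  have hVn : ∀ n, V n ∈ 𝓝 (1 : N) := by
    intro n
    induction n with
    | zero => exact hKn
    | succ n ih => rw [hV1]; exact b1 _ _ ih
  refine ⟨V, ⟨fun A => ⟨fun hA => ?_, ?_⟩⟩, hKc, ?_, ?_, ?_⟩
  · obtain ⟨k, -, hk⟩ := hO.1.mem_iff.1 hA
    refine ⟨k + 1, trivial, ?_⟩
    rw [hV1]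
    exact (b2 _ _ (hVn k)).trans ((hO.2 (Nat.le_succ k)).trans hk)
  · rintro ⟨k, -, hk⟩
    exact mem_of_superset (hVn k) hk
  · intro n
    rw [hV1]
    exact b3 _ _ (hVn n)
  · intro n
    cases n with
    | zero =>
      intro v hv
      exact ⟨hv.2, by simpa using hv.1⟩
    | succ n => rw [hV1]; exact b4 _ _ (hVn n)
  · intro n
    rw [hV1]
    exact b5 (n+1) _ (hVn n)

end lemY

/-- **Key theorem** -/
theorem exists_coarser_lc {N : Type*} [Group N] (t : TopologicalSpace N) [IsTopologicalGroup N]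
    [T2Space N] [LocallyCompactSpace N] [SecondCountableTopology N]
    (𝓤 : Ultrafilter N) (h : AC (𝓤 : Filter N))
    (hinf : ∀ C : Set N, IsCompact C → ∀ᶠ x in (𝓤 : Filter N), x ∉ C) :
    ∃ s : TopologicalSpace N, t ≤ s ∧
      @IsTopologicalGroup N s _ ∧ @T2Space N s ∧ s ≠ t := by
  classical
  let CE : CompactExhaustion N := CompactExhaustion.choice N
  let C : ℕ → Set N := fun n => CE n
  have hCc : ∀ n, IsCompact (C n) := fun n => CE.isCompact n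
  have hCm : Monotone C := by
    apply monotone_nat_of_le_succ
    intro n
    exact CE.subset_succ n
  have hCe : ∀ g, ∃ p, g ∈ C p := fun g => CE.exists_mem g
  obtain ⟨V, hV, hV0, h3, hsym, hcv⟩ := exists_base C hCc
  have h1 : ∀ n, (1 : N) ∈ V n := fun n => mem_of_mem_nhds (hV.mem_of_mem trivial)
  have main : ∀ (n : ℕ) (f : ℕ → N), ∃ (D : Set N) (y : N), C n ⊆ D ∧
      (∀ r x, r < 1 → Wd V f n r x → x ∈ D) ∧
      (∀ c ∈ D, y * c * y⁻¹ * c⁻¹ ∈ V (n+1) ∧ y⁻¹ * c * y * c⁻¹ ∈ V (n+1)) ∧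
      (∀ k : ℤ, |k| ≤ (2^n : ℕ) → y^k ∈ V (n+1) ∨ ∀ a ∈ D, ∀ c ∈ C n, y^k ≠ a⁻¹ * c) ∧
      y ∉ V 0 := by
    intro n f
    obtain ⟨E, hE, hEw⟩ := exists_compact_words V f n hV0 h1 h3
    have hDc : IsCompact (C n ∪ E) := (hCc n).union hE
    have hFc : IsCompact ((C n ∪ E)⁻¹ * C n ∪ V 0) := (hDc.inv.mul (hCc n)).union hV0
    obtain ⟨y, y1, y2, y3⟩ := lemY 𝓤 h hinf hDc hFc (hV.mem_of_mem (i := n+1) trivial) (2^n)
    refine ⟨C n ∪ E, y, subset_union_left, fun r x hr hw => Or.inr (hEw r x hr hw), y1, ?_,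
      fun h0 => y2 (Or.inr h0)⟩
    intro k hk
    rcases y3 k hk with h4 | h4
    · exact Or.inl h4
    · right
      intro a ha c hc he
      apply h4
      left
      rw [he]
      exact mul_mem_mul (Set.inv_mem_inv.2 ha) hc
  choose Dd yy m1 m2 m3 m4 m5 using main
  let s : ℕ → (ℕ → N) := fun n => Nat.rec (fun _ => 1) (fun m g => Function.update g m (yy m g)) n
  have hs : ∀ n, s (n+1) = Function.update (s n) n (yy n (s n)) := fun n => rfl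
  let y : ℕ → N := fun n => yy n (s n)
  have hsy : ∀ n m, m < n → s n m = y m := by
    intro n
    induction n with
    | zero => intro m hm; exact absurd hm (Nat.not_lt_zero _)
    | succ n ih =>
      intro m hm
      rw [hs]
      rcases Nat.lt_succ_iff_lt_or_eq.1 hm with hlt | rfl
      · rw [Function.update_of_ne hlt.ne]; exact ih m hlt
      · rw [Function.update_self]
  refine exists_coarser_words _ V y C (fun n => Dd n (s n)) hV h3 hsym hCm hCe hcv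
    (fun n => m1 n (s n)) ?_ (fun n => m3 n (s n)) (fun n => m4 n (s n)) (fun n => m5 n (s n))
  intro n r x hr hw
  exact m2 n (s n) r x hr (hw.congr fun m hm => (hsy n m hm).symm)

end Usp
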