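import Pool.Agent.H430.UspFilt

set_option linter.all false

namespace Usp

open Filter Topology Set

section quot

variable {P N : Type*} [Group P] [Group N] [TopologicalSpace P] [IsTopologicalGroup P] [T2Space P]

theorem induced_eq (t : TopologicalSpace N) (hmin : IsMinimal N t) (i : N →* P)
    (hi : Function.Injective i) (hc : Continuous i) :
    TopologicalSpace.induced i (inferInstance : TopologicalSpace P) = t := by
  refine hmin.2.2 _ (continuous_iff_le_induced.1 hc) (topologicalGroup_induced i) ?_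
  letI := TopologicalSpace.induced i (inferInstance : TopologicalSpace P)
  exact T2Space.of_injective_continuous hi continuous_induced_dom

theorem continuous_conj (t : TopologicalSpace N) (hmin : IsMinimal N t) (i : N →* P)
    (hi : Function.Injective i) (hc : Continuous i) (π : P →* N)
    (hconj : ∀ x g, i (π x * g * (π x)⁻¹) = x * i g * x⁻¹) :
    Continuous (fun p : P × N => π p.1 * p.2 * (π p.1)⁻¹) := by
  have h1 := induced_eq t hmin i hi hc
  have h2 : IsInducing i := ⟨h1.symm⟩
  rw [h2.continuous_iff]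
  have : (i ∘ fun p : P × N => π p.1 * p.2 * (π p.1)⁻¹) = fun p : P × N => p.1 * i p.2 * p.1⁻¹ := by
    funext p
    exact hconj _ _
  rw [this]
  fun_prop

theorem quot_tdlc (t : TopologicalSpace N) (hmin : IsMinimal N t) (i : N →* P)
    (hi : Function.Injective i) (hc : Continuous i) (π : P →* N)
    (hconj : ∀ x g, i (π x * g * (π x)⁻¹) = x * i g * x⁻¹)
    (V : ℕ → Subgroup N) (hV : Antitone V)
    (hbase : (𝓝 (1 : N)).HasBasis (fun _ : ℕ => True) (fun k => (V k : Set N)))
    (hcpt : ∀ k, IsCompact (V k : Set N))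
    (d : ℕ → N) (hd : DenseRange d) (O : Set N) (hO : O ∈ 𝓝 (1 : N)) :
    ∀ᶠ x in 𝓝 (1 : P), ∃ z ∈ Subgroup.center N, ∃ v ∈ O, π x = z * v := by
  haveI := hmin.1
  haveI := hmin.2.1
  have hcc := continuous_conj t hmin i hi hc π hconj
  obtain ⟨k, -, hk⟩ := hbase.mem_iff.1 hO
  have hVopen : ∀ k, IsOpen (V k : Set N) := fun k =>
    Subgroup.isOpen_of_mem_nhds _ (hbase.mem_of_mem (i := k) trivial)
  have h := eventually_of_minimal t hmin V hV hbase hcpt d hd (map π (𝓝 (1 : P))) ?_ ?_ k
  · rw [eventually_map] at h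
    filter_upwards [h] with x hx
    obtain ⟨z, hz, v, hv, hx⟩ := hx
    exact ⟨z, hz, v, hk hv, hx⟩
  · intro g k
    rw [eventually_map]
    have hc1 : ContinuousAt (fun x : P => π x * g * (π x)⁻¹ * g⁻¹) 1 := by
      have : Continuous (fun x : P => π x * g * (π x)⁻¹ * g⁻¹) :=
        (hcc.comp (by fun_prop : Continuous fun x : P => (x, g))).mul continuous_const
      exact this.continuousAt
    apply hc1.preimage_mem_nhds
    simpa using hbase.mem_of_mem (i := k) trivial
  · intro k
    rw [eventually_map]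
    have h1 : ∀ᶠ x in 𝓝 (1 : P), ∀ v ∈ (V k : Set N), π x * v * (π x)⁻¹ ∈ V k := by
      refine (hcpt k).eventually_forall_of_forall_eventually
        (P := fun x v => π x * v * (π x)⁻¹ ∈ V k) ?_
      intro v hv
      have := hcc.continuousAt (x := ((1 : P), v))
      apply this.preimage_mem_nhds
      apply (hVopen k).mem_nhds
      simpa using hv
    have h2 : ∀ᶠ x in 𝓝 (1 : P), ∀ v ∈ (V k : Set N), π x⁻¹ * v * (π x⁻¹)⁻¹ ∈ V k := by
      have hcinv : Tendsto (fun x : P => x⁻¹) (𝓝 1) (𝓝 1) := by
        simpa using (continuous_inv (G := P)).tendsto 1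
      exact hcinv.eventually h1
    filter_upwards [h1, h2] with x a1 a2
    rw [Subgroup.mem_normalizer_iff]
    intro h
    constructor
    · intro hh; exact a1 h hh
    · intro hh
      have := a2 _ hh
      rw [map_inv] at this
      have he : (π x)⁻¹ * (π x * h * (π x)⁻¹) * (π x)⁻¹⁻¹ = h := by group
      rwa [he] at this

theorem quot_min (t : TopologicalSpace N) (hmin : IsMinimal N t) (i : N →* P)
    (hi : Function.Injective i) (hc : Continuous i) (π : P →* N)
    (hπ : ∀ g, π (i g) = g)
    (hconj : ∀ x g, i (π x * g * (π x)⁻¹) = x * i g * x⁻¹)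
    (hq : IsMinimal (N ⧸ Subgroup.center N) (QuotientGroup.instTopologicalSpace _))
    (O : Set N) (hO : O ∈ 𝓝 (1 : N)) :
    ∀ᶠ x in 𝓝 (1 : P), ∃ z ∈ Subgroup.center N, ∃ v ∈ O, π x = z * v := by
  haveI := hmin.1
  haveI := hmin.2.1
  have hcc := continuous_conj t hmin i hi hc π hconj
  let f : P →* N ⧸ Subgroup.center N := (QuotientGroup.mk' _).comp π
  have hf : ∀ x, f x = (QuotientGroup.mk (π x) : N ⧸ Subgroup.center N) := fun x => rfl
  have hfs : Function.Surjective f := by
    intro q
    induction q using QuotientGroup.induction_on with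
    | H g => exact ⟨i g, by rw [hf, hπ]⟩
  have hopen : ∀ A : Set (N ⧸ Subgroup.center N),
      IsOpen ((QuotientGroup.mk : N → N ⧸ Subgroup.center N) ⁻¹' A) → IsOpen A := fun A hA =>
    ((QuotientGroup.isQuotientMap_mk (Subgroup.center N)).isOpen_preimage).1 hA
  have h3 : IsOpen ((QuotientGroup.mk : N → N ⧸ Subgroup.center N) '' interior O) :=
    QuotientGroup.isOpenMap_coe _ isOpen_interior
  let ν : TopologicalSpace (N ⧸ Subgroup.center N) :=
    TopologicalSpace.coinduced f (inferInstance : TopologicalSpace P)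
  have hqm : @IsQuotientMap P (N ⧸ Subgroup.center N) _ ν f := 
    @IsQuotientMap.mk P (N ⧸ Subgroup.center N) _ ν f ⟨rfl⟩ hfs
  have hνg : @IsTopologicalGroup (N ⧸ Subgroup.center N) ν _ := by
    letI := ν
    have hoq : IsOpenQuotientMap f := MonoidHom.isOpenQuotientMap_of_isQuotientMap hqm
    refine @IsTopologicalGroup.mk _ ν _ (@ContinuousMul.mk _ ν _ ?_) (@ContinuousInv.mk _ ν _ ?_)
    · rw [(hoq.prodMap hoq).isQuotientMap.continuous_iff]
      have : ((fun p : (N ⧸ Subgroup.center N) × (N ⧸ Subgroup.center N) => p.1 * p.2) ∘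
          Prod.map f f) = fun p : P × P => f (p.1 * p.2) := by
        funext p
        simp [Prod.map, map_mul]
      rw [this]
      exact hoq.continuous.comp continuous_mul
    · rw [hoq.isQuotientMap.continuous_iff]
      have : ((fun p : (N ⧸ Subgroup.center N) => p⁻¹) ∘ f) = fun p : P => f (p⁻¹) := by
        funext p
        simp [map_inv]
      rw [this]
      exact hoq.continuous.comp continuous_inv
  have hνt : @T2Space (N ⧸ Subgroup.center N) ν := by
    rw [@IsTopologicalGroup.t2Space_iff_one_closed _ ν _ hνg]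
    rw [← (@IsCoinducing.isClosed_preimage P (N ⧸ Subgroup.center N) f _ ν ⟨rfl⟩)]
    have : f ⁻¹' {1} = ⋂ g : N, {x : P | π x * g * (π x)⁻¹ = g} := by
      ext x
      simp only [mem_preimage, mem_singleton_iff, mem_iInter, mem_setOf_eq]
      rw [hf, QuotientGroup.eq_one_iff, Subgroup.mem_center_iff]
      refine forall_congr' fun g => ?_
      rw [mul_inv_eq_iff_eq_mul]
      exact eq_comm
    rw [this]
    exact isClosed_iInter fun g => isClosed_eq
      (hcc.comp (by fun_prop : Continuous fun x : P => (x, g))) continuous_const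
  have hle : (QuotientGroup.instTopologicalSpace (Subgroup.center N)) ≤ ν := by
    intro A hA
    have hA' : IsOpen (f ⁻¹' A) := hA
    have h1 : IsOpen (i ⁻¹' (f ⁻¹' A)) := hA'.preimage hc
    have h2 : (QuotientGroup.mk : N → N ⧸ Subgroup.center N) ⁻¹' A = i ⁻¹' (f ⁻¹' A) := by
      ext g
      simp only [mem_preimage]
      rw [hf, hπ]
    rw [← h2] at h1
    exact hopen A h1
  have heq : ν = QuotientGroup.instTopologicalSpace (Subgroup.center N) := hq.2.2 ν hle hνg hνt
  have h4 : IsOpen[ν] ((QuotientGroup.mk : N → N ⧸ Subgroup.center N) '' interior O) := by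
    rw [heq]; exact h3
  have h5 : f ⁻¹' ((QuotientGroup.mk : N → N ⧸ Subgroup.center N) '' interior O) ∈ 𝓝 (1 : P) := by
    have h6 : IsOpen (f ⁻¹' ((QuotientGroup.mk : N → N ⧸ Subgroup.center N) '' interior O)) := h4
    apply h6.mem_nhds
    refine ⟨1, mem_interior_iff_mem_nhds.2 hO, ?_⟩
    rw [map_one]; rfl
  filter_upwards [h5] with x hx
  obtain ⟨v, hv, hvx⟩ := hx
  have h6 : (QuotientGroup.mk v : N ⧸ Subgroup.center N) = QuotientGroup.mk (π x) := hvx
  rw [QuotientGroup.eq] at h6
  refine ⟨v⁻¹ * π x, h6, v, interior_subset hv, ?_⟩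
  rw [← (Subgroup.mem_center_iff.1 h6 v)]
  simp

end quot

/-- Merson's lemma for products. -/
theorem merson {ι : Type*} {G : ι → Type*} [∀ i, Group (G i)] [∀ i, TopologicalSpace (G i)]
    [∀ i, IsTopologicalGroup (G i)] [∀ i, T2Space (G i)]
    {P : Type*} [Group P] [TopologicalSpace P] [IsTopologicalGroup P] [T2Space P]
    (e : (∀ i, G i) ≃* P) (he : Continuous e)
    (hZ : ∀ i, IsCompact (Subgroup.center (G i) : Set (G i)))
    (hQ : ∀ i, ∀ O ∈ 𝓝 (1 : G i), ∀ᶠ x in 𝓝 (1 : P), ∃ z ∈ Subgroup.center (G i), ∃ v ∈ O,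
      e.symm x i = z * v) : Continuous e.symm := by
  classical
  have key : ∀ i, ContinuousAt (fun x : P => e.symm x i) 1 := by
    intro i
    have hval : e.symm (1 : P) i = 1 := by simp
    rw [ContinuousAt, hval]
    intro O hO
    rw [mem_map]
    obtain ⟨O', hO'o, hO'1, hO'⟩ := exists_open_nhds_one_mul_subset hO
    let Z : Set (∀ i, G i) := Set.pi univ fun i => (Subgroup.center (G i) : Set (G i))
    have hZc : IsCompact Z := isCompact_univ_pi hZ
    let K : Set (∀ i, G i) := Z ∩ {z | z i ∉ O'}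
    have hKc : IsCompact K := by
      refine hZc.inter_right ?_
      have : {z : ∀ i, G i | z i ∉ O'} = (fun z : ∀ i, G i => z i) ⁻¹' O'ᶜ := rfl
      rw [this]
      exact hO'o.isClosed_compl.preimage (continuous_apply i)
    have hKe : IsClosed (e '' K) := (hKc.image he).isClosed
    have h1K : (1 : P) ∉ e '' K := by
      rintro ⟨z, hz, hz1⟩
      have : z = 1 := by
        apply e.injective
        rw [hz1, map_one]
      subst this
      exact hz.2 hO'1
    have hW1 : (e '' K)ᶜ ∈ 𝓝 (1 : P) := hKe.isOpen_compl.mem_nhds h1K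
    obtain ⟨W2, hW2, hW2'⟩ : ∃ W2 ∈ 𝓝 (1 : P), ∀ a ∈ W2, ∀ b ∈ W2, a * b⁻¹ ∈ (e '' K)ᶜ := by
      have hc : Tendsto (fun p : P × P => p.1 * p.2⁻¹) (𝓝 1 ×ˢ 𝓝 1) (𝓝 1) := by
        have : Continuous (fun p : P × P => p.1 * p.2⁻¹) := by fun_prop
        have h := this.tendsto ((1 : P), (1 : P))
        rw [nhds_prod_eq] at h
        simpa using h
      have h := hc hW1
      rw [mem_map, mem_prod_same_iff] at h
      obtain ⟨W, hW, hWW⟩ := h
      exact ⟨W, hW, fun a ha b hb => hWW (mk_mem_prod ha hb)⟩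
    have hW2e : e ⁻¹' W2 ∈ 𝓝 (1 : ∀ i, G i) := by
      apply he.continuousAt.preimage_mem_nhds
      rw [map_one]; exact hW2
    rw [nhds_pi, Filter.mem_pi] at hW2e
    obtain ⟨J, hJ, Q, hQn, hQJ⟩ := hW2e
    have hJ' : (insert i J).Finite := hJ.insert i
    have hev : ∀ᶠ x in 𝓝 (1 : P), ∀ j ∈ insert i J, ∃ z ∈ Subgroup.center (G j),
        ∃ v ∈ Q j ∩ (if h : i = j then h ▸ O' else univ), e.symm x j = z * v := by
      refine (hJ'.eventually_all (l := 𝓝 (1 : P)) (p := fun j x => ∃ z ∈ Subgroup.center (G j),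
        ∃ v ∈ Q j ∩ (if h : i = j then h ▸ O' else univ), e.symm x j = z * v)).2 ?_
      intro j hj
      apply hQ
      refine inter_mem (hQn j) ?_
      by_cases h : i = j
      · subst h
        simpa using hO'o.mem_nhds hO'1
      · rw [dif_neg h]; exact univ_mem
    filter_upwards [hW2, hev] with x hx2 hx
    choose! z hz v hv hzv using hx
    let zz : ∀ i, G i := fun j => if j ∈ insert i J then z j else 1
    have hzzZ : zz ∈ Z := by
      intro j _
      simp only [zz]
      split_ifs with h
      · exact hz j h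
      · exact Subgroup.one_mem _
    have hb : e (zz⁻¹ * e.symm x) ∈ W2 := by
      apply hQJ
      intro j hj
      have hj' : j ∈ insert i J := mem_insert_of_mem _ hj
      have h1 : (zz⁻¹ * e.symm x) j = v j := by
        simp only [Pi.mul_apply, Pi.inv_apply, zz, if_pos hj']
        rw [hzv j hj']; group
      rw [h1]
      exact (hv j hj').1
    have h3 := hW2' x hx2 _ hb
    have h4 : x * (e (zz⁻¹ * e.symm x))⁻¹ = e zz := by
      rw [map_mul, map_inv, MulEquiv.apply_symm_apply]; group
    rw [h4] at h3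
    have h5 : zz i ∈ O' := by
      by_contra h
      exact h3 ⟨zz, ⟨hzzZ, h⟩, rfl⟩
    have hi' : i ∈ insert i J := mem_insert _ _
    have h6 : zz i = z i := by simp only [zz, if_pos hi']
    rw [h6] at h5
    show e.symm x i ∈ O
    rw [hzv i hi']
    apply hO'
    refine mul_mem_mul h5 ?_
    have := (hv i hi').2
    simpa using this
  have : ∀ i, Continuous (fun x : P => e.symm x i) := by
    intro i
    exact continuous_of_continuousAt_one ((Pi.evalMonoidHom G i).comp e.symm.toMonoidHom) (key i)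
  exact continuous_pi this

end Usp
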