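import Mathlib

/-!
Lemma T: an asymptotically central sequence in a group with a base `V k` of open subgroups at `1`,
which normalises the `V k` eventually and which has pairwise distinct classes modulo `V k0`,
gives a strictly coarser Hausdorff group topology.
-/

set_option linter.all false

namespace Usp

open Filter Topology Set

section seq

variable {N : Type*} [Group N] (V : ℕ → Subgroup N) (y : ℕ → N)

/-- `S g W` : elements normalising `W` and commuting with `g` modulo `W`. -/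
def S (g : N) (W : Subgroup N) : Subgroup N where
  carrier := {h | h ∈ Subgroup.normalizer (W : Set N) ∧ g * h * g⁻¹ * h⁻¹ ∈ W}
  one_mem' := by
    refine ⟨Subgroup.one_mem _, ?_⟩
    simpa using W.one_mem
  mul_mem' := by
    rintro a b ⟨ha, ha'⟩ ⟨hb, hb'⟩
    refine ⟨Subgroup.mul_mem _ ha hb, ?_⟩
    have h1 : a * (g * b * g⁻¹ * b⁻¹) * a⁻¹ ∈ W := by
      exact (Subgroup.mem_normalizer_iff.1 ha _).1 hb'
    have : g * (a * b) * g⁻¹ * (a * b)⁻¹ = (g * a * g⁻¹ * a⁻¹) * (a * (g * b * g⁻¹ * b⁻¹) * a⁻¹) := by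
      group
    rw [this]
    exact W.mul_mem ha' h1
  inv_mem' := by
    rintro a ⟨ha, ha'⟩
    refine ⟨Subgroup.inv_mem _ ha, ?_⟩
    have h1 : a⁻¹ * (g * a * g⁻¹ * a⁻¹) * a ∈ W := by
      have := (Subgroup.mem_normalizer_iff.1 (Subgroup.inv_mem _ ha) _).1 ha'
      simpa using this
    have : g * a⁻¹ * g⁻¹ * a⁻¹⁻¹ = (a⁻¹ * (g * a * g⁻¹ * a⁻¹) * a)⁻¹ := by group
    rw [this]
    exact W.inv_mem h1

theorem mem_S {g h : N} {W : Subgroup N} :
    h ∈ S g W ↔ h ∈ Subgroup.normalizer (W : Set N) ∧ g * h * g⁻¹ * h⁻¹ ∈ W := Iff.rfl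

/-- the subgroup generated by `V k` and the tail of the sequence -/
def H (k : ℕ) : Subgroup N := Subgroup.closure (y '' {n | k ≤ n}) ⊔ V k

theorem V_le_H (k : ℕ) : V k ≤ H V y k := le_sup_right

theorem y_mem_H {k n : ℕ} (h : k ≤ n) : y n ∈ H V y k :=
  (le_sup_left : _ ≤ H V y k) (Subgroup.subset_closure ⟨n, h, rfl⟩)

theorem H_le {k : ℕ} {T : Subgroup N} (h1 : ∀ n, k ≤ n → y n ∈ T) (h2 : V k ≤ T) :
    H V y k ≤ T := by
  refine sup_le ?_ h2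
  rw [Subgroup.closure_le]
  rintro _ ⟨n, hn, rfl⟩
  exact h1 n hn

theorem H_anti (hV : Antitone V) : Antitone (H V y) := by
  intro k l hkl
  exact H_le V y (fun n hn => y_mem_H V y (hkl.trans hn)) ((hV hkl).trans (V_le_H V y k))

variable {V y}

theorem H_le_normalizer
    (hnorm : ∀ j n, j ≤ n → y n ∈ Subgroup.normalizer (V j : Set N)) (k : ℕ) :
    H V y k ≤ Subgroup.normalizer (V k : Set N) :=
  H_le V y (fun n hn => hnorm k n hn) Subgroup.le_normalizer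

theorem comm_mem
    (hV : Antitone V)
    (hnorm : ∀ j n, j ≤ n → y n ∈ Subgroup.normalizer (V j : Set N))
    (hcomm : ∀ m n, m < n → y n * y m * (y n)⁻¹ * (y m)⁻¹ ∈ V n) (k : ℕ)
    {a b : N} (ha : a ∈ H V y k) (hb : b ∈ H V y k) : a * b * a⁻¹ * b⁻¹ ∈ V k := by
  have hN := H_le_normalizer hnorm k
  -- step 1
  have key : ∀ m, k ≤ m → H V y k ≤ S (y m) (V k) := by
    intro m hm
    refine H_le V y ?_ ?_
    · intro n hn
      refine mem_S.2 ⟨hnorm k n hn, ?_⟩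
      rcases lt_trichotomy m n with h | h | h
      · have h1 := (V k).inv_mem (hV hn (hcomm m n h))
        have h2 : (y n * y m * (y n)⁻¹ * (y m)⁻¹)⁻¹ = y m * y n * (y m)⁻¹ * (y n)⁻¹ := by group
        rwa [h2] at h1
      · subst h
        simpa using (V k).one_mem
      · exact hV hm (hcomm n m h)
    · intro v hv
      refine mem_S.2 ⟨Subgroup.le_normalizer hv, ?_⟩
      exact (V k).mul_mem ((Subgroup.mem_normalizer_iff.1 (hnorm k m hm) v).1 hv)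
        ((V k).inv_mem hv)
  have flip : ∀ a b : N, a * b * a⁻¹ * b⁻¹ ∈ V k → b * a * b⁻¹ * a⁻¹ ∈ V k := by
    intro a b h
    have h1 := (V k).inv_mem h
    have h2 : (a * b * a⁻¹ * b⁻¹)⁻¹ = b * a * b⁻¹ * a⁻¹ := by group
    rwa [h2] at h1
  have key2 : H V y k ≤ S a (V k) := by
    refine H_le V y ?_ ?_
    · intro n hn
      exact mem_S.2 ⟨hnorm k n hn, flip _ _ (mem_S.1 (key n hn ha)).2⟩
    · intro v hv
      refine mem_S.2 ⟨Subgroup.le_normalizer hv, ?_⟩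
      exact (V k).mul_mem ((Subgroup.mem_normalizer_iff.1 (hN ha) v).1 hv)
        ((V k).inv_mem hv)
  exact (mem_S.1 (key2 hb)).2

variable (V y) in
/-- partial characters at level `k` -/
def IsChar (k : ℕ) (χ : N → AddCircle (1 : ℝ)) : Prop :=
  (∀ a ∈ H V y k, ∀ b ∈ H V y k, χ (a * b) = χ a + χ b) ∧ ∀ v ∈ V k, χ v = 0

theorem IsChar.mono (hV : Antitone V) {k l : ℕ} (hkl : k ≤ l) {χ : N → AddCircle (1 : ℝ)}
    (h : IsChar V y k χ) : IsChar V y l χ :=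
  ⟨fun a ha b hb => h.1 a (H_anti V y hV hkl ha) b (H_anti V y hV hkl hb),
    fun v hv => h.2 v (hV hkl hv)⟩

theorem IsChar.one {k : ℕ} {χ : N → AddCircle (1 : ℝ)} (h : IsChar V y k χ) : χ 1 = 0 :=
  h.2 1 (V k).one_mem

theorem IsChar.inv {k : ℕ} {χ : N → AddCircle (1 : ℝ)} (h : IsChar V y k χ) {a : N}
    (ha : a ∈ H V y k) : χ a⁻¹ = - χ a := by
  have h1 := h.1 a ha a⁻¹ ((H V y k).inv_mem ha)
  rw [mul_inv_cancel, h.one] at h1
  rw [eq_neg_iff_add_eq_zero, add_comm]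
  exact h1.symm

/-- the embedding of `ℚ/ℤ` in `ℝ/ℤ`. -/
theorem exists_embed : ∃ f : AddCircle (1 : ℚ) →+ AddCircle (1 : ℝ), Function.Injective f := by
  have hle : AddSubgroup.zmultiples (1 : ℚ) ≤
      (AddSubgroup.zmultiples (1 : ℝ)).comap (Rat.castHom ℝ).toAddMonoidHom := by
    rw [AddSubgroup.zmultiples_le]
    exact AddSubgroup.mem_comap.2 ⟨1, by simp⟩
  refine ⟨QuotientAddGroup.map _ _ (Rat.castHom ℝ).toAddMonoidHom hle, ?_⟩
  rw [injective_iff_map_eq_zero]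
  intro a
  induction a using QuotientAddGroup.induction_on with
  | H q =>
    intro h
    have h' : ((Rat.castHom ℝ).toAddMonoidHom q) ∈ AddSubgroup.zmultiples (1 : ℝ) := by
      rw [← QuotientAddGroup.eq_zero_iff]
      exact h
    obtain ⟨n, hn⟩ := h'
    refine (QuotientAddGroup.eq_zero_iff q).2 ⟨n, ?_⟩
    have h2 : ((n : ℚ) : ℝ) = (q : ℝ) := by simpa using hn
    have h3 : (n : ℚ) = q := by exact_mod_cast h2
    simpa using h3

theorem exists_char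
    (hV : Antitone V)
    (hnorm : ∀ j n, j ≤ n → y n ∈ Subgroup.normalizer (V j : Set N))
    (hcomm : ∀ m n, m < n → y n * y m * (y n)⁻¹ * (y m)⁻¹ ∈ V n) (k : ℕ)
    {x : N} (hx : x ∈ H V y k) (hxV : x ∉ V k) :
    ∃ χ, IsChar V y k χ ∧ χ x ≠ 0 := by
  classical
  have hN := H_le_normalizer hnorm k
  let W : Subgroup (H V y k) := (V k).subgroupOf (H V y k)
  have hWn : W.Normal := by
    refine ⟨fun a ha g => ?_⟩
    rw [Subgroup.mem_subgroupOf] at ha ⊢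
    exact (Subgroup.mem_normalizer_iff.1 (hN g.2) _).1 ha
  letI : CommGroup (H V y k ⧸ W) :=
    { (inferInstance : Group (H V y k ⧸ W)) with
      mul_comm := by
        intro a b
        induction a using QuotientGroup.induction_on with
        | H a =>
        induction b using QuotientGroup.induction_on with
        | H b =>
        rw [← QuotientGroup.mk_mul, ← QuotientGroup.mk_mul, QuotientGroup.eq]
        rw [Subgroup.mem_subgroupOf]
        have h := comm_mem hV hnorm hcomm k ((H V y k).inv_mem b.2) ((H V y k).inv_mem a.2)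
        simpa [mul_assoc] using h }
  let q : Additive (H V y k ⧸ W) := Additive.ofMul (QuotientGroup.mk ⟨x, hx⟩)
  have hq : q ≠ 0 := by
    intro h
    have h' : (QuotientGroup.mk ⟨x, hx⟩ : H V y k ⧸ W) = 1 := h
    rw [QuotientGroup.eq_one_iff, Subgroup.mem_subgroupOf] at h'
    exact hxV h'
  obtain ⟨c, hc⟩ := CharacterModule.exists_character_apply_ne_zero_of_ne_zero hq
  obtain ⟨f, hf⟩ := exists_embed
  let χ : N → AddCircle (1 : ℝ) := fun a =>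
    if ha : a ∈ H V y k then f (c (Additive.ofMul (QuotientGroup.mk ⟨a, ha⟩))) else 0
  have hχ : ∀ a (ha : a ∈ H V y k), χ a = f (c (Additive.ofMul (QuotientGroup.mk ⟨a, ha⟩))) := by
    intro a ha
    simp only [χ, dif_pos ha]
  refine ⟨χ, ⟨?_, ?_⟩, ?_⟩
  · intro a ha b hb
    rw [hχ a ha, hχ b hb, hχ (a * b) ((H V y k).mul_mem ha hb), ← map_add, ← map_add]
    rfl
  · intro v hv
    rw [hχ v (V_le_H V y k hv)]
    have : (QuotientGroup.mk ⟨v, V_le_H V y k hv⟩ : H V y k ⧸ W) = 1 := by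
      rw [QuotientGroup.eq_one_iff, Subgroup.mem_subgroupOf]
      exact hv
    rw [this, ofMul_one, map_zero, map_zero]
  · rw [hχ x hx]
    intro h
    exact hc ((injective_iff_map_eq_zero f).1 hf _ h)

variable (V y) in
/-- basic sets -/
def U (k : ℕ) (Φ : Finset (N → AddCircle (1 : ℝ))) (ε : ℝ) : Set N :=
  {x | x ∈ H V y k ∧ ∀ χ ∈ Φ, ‖χ x‖ < ε}


variable (V y) in
theorem mem_U {k : ℕ} {Φ : Finset (N → AddCircle (1 : ℝ))} {ε : ℝ} {x : N} :
    x ∈ U V y k Φ ε ↔ x ∈ H V y k ∧ ∀ χ ∈ Φ, ‖χ x‖ < ε := Iff.rfl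

theorem U_anti (hV : Antitone V) {k l : ℕ} (hkl : k ≤ l) {Φ Ψ : Finset (N → AddCircle (1 : ℝ))}
    (hΦ : Φ ⊆ Ψ) {ε δ : ℝ} (hε : δ ≤ ε) : U V y l Ψ δ ⊆ U V y k Φ ε := by
  rintro x ⟨h1, h2⟩
  exact ⟨H_anti V y hV hkl h1, fun χ hχ => (h2 χ (hΦ hχ)).trans_le hε⟩

theorem V_le_U {k : ℕ} {Φ : Finset (N → AddCircle (1 : ℝ))} (hΦ : ∀ χ ∈ Φ, IsChar V y k χ)
    {ε : ℝ} (hε : 0 < ε) : (V k : Set N) ⊆ U V y k Φ ε := by
  intro v hv
  refine ⟨V_le_H V y k hv, fun χ hχ => ?_⟩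
  rw [(hΦ χ hχ).2 v hv, norm_zero]
  exact hε

/-- the group filter basis -/
def basis (hV : Antitone V)
    (hnorm : ∀ j n, j ≤ n → y n ∈ Subgroup.normalizer (V j : Set N))
    (hcen : ∀ g k, ∃ l, k ≤ l ∧ (∀ v ∈ V l, g * v * g⁻¹ ∈ V k) ∧
      ∀ n, l ≤ n → g * y n * g⁻¹ * (y n)⁻¹ ∈ V k) : GroupFilterBasis N where
  sets := {A | ∃ k Φ ε, 0 < ε ∧ (∀ χ ∈ Φ, IsChar V y k χ) ∧ A = U V y k Φ ε}
  nonempty := ⟨U V y 0 ∅ 1, 0, ∅, 1, one_pos, by simp, rfl⟩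
  inter_sets := by
    classical
    rintro _ _ ⟨k, Φ, ε, hε, hΦ, rfl⟩ ⟨l, Ψ, δ, hδ, hΨ, rfl⟩
    refine ⟨U V y (max k l) (Φ ∪ Ψ) (min ε δ), ⟨max k l, Φ ∪ Ψ, min ε δ, lt_min hε hδ, ?_, rfl⟩, ?_⟩
    · intro χ hχ
      rcases Finset.mem_union.1 hχ with h | h
      · exact (hΦ χ h).mono hV (le_max_left _ _)
      · exact (hΨ χ h).mono hV (le_max_right _ _)
    · exact subset_inter
        (U_anti hV (le_max_left _ _) Finset.subset_union_left (min_le_left _ _))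
        (U_anti hV (le_max_right _ _) Finset.subset_union_right (min_le_right _ _))
  one' := by
    rintro _ ⟨k, Φ, ε, hε, hΦ, rfl⟩
    exact V_le_U hΦ hε (V k).one_mem
  mul' := by
    rintro _ ⟨k, Φ, ε, hε, hΦ, rfl⟩
    refine ⟨U V y k Φ (ε / 2), ⟨k, Φ, ε / 2, half_pos hε, hΦ, rfl⟩, ?_⟩
    rintro _ ⟨a, ha, b, hb, rfl⟩
    refine ⟨(H V y k).mul_mem ha.1 hb.1, fun χ hχ => ?_⟩
    have h1 := ha.2 χ hχ
    have h2 := hb.2 χ hχ
    show ‖χ (a * b)‖ < ε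
    rw [(hΦ χ hχ).1 a ha.1 b hb.1]
    calc ‖χ a + χ b‖ ≤ ‖χ a‖ + ‖χ b‖ := norm_add_le _ _
      _ < ε / 2 + ε / 2 := add_lt_add h1 h2
      _ = ε := add_halves ε
  inv' := by
    rintro _ ⟨k, Φ, ε, hε, hΦ, rfl⟩
    refine ⟨U V y k Φ ε, ⟨k, Φ, ε, hε, hΦ, rfl⟩, ?_⟩
    intro a ha
    refine ⟨(H V y k).inv_mem ha.1, fun χ hχ => ?_⟩
    show ‖χ a⁻¹‖ < ε
    rw [(hΦ χ hχ).inv ha.1, norm_neg]
    exact ha.2 χ hχ
  conj' := by
    rintro g _ ⟨k, Φ, ε, hε, hΦ, rfl⟩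
    obtain ⟨l, hkl, hl1, hl2⟩ := hcen g k
    refine ⟨U V y l Φ ε, ⟨l, Φ, ε, hε, fun χ hχ => (hΦ χ hχ).mono hV hkl, rfl⟩, ?_⟩
    intro x hx
    have hS : H V y l ≤ S g (V k) := by
      refine H_le V y ?_ ?_
      · intro n hn
        exact mem_S.2 ⟨hnorm k n (hkl.trans hn), hl2 n hn⟩
      · intro v hv
        exact mem_S.2 ⟨Subgroup.le_normalizer (hV hkl hv),
          (V k).mul_mem (hl1 v hv) ((V k).inv_mem (hV hkl hv))⟩
    have hxS := (mem_S.1 (hS hx.1)).2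
    have hxH : x ∈ H V y k := H_anti V y hV hkl hx.1
    have he : g * x * g⁻¹ = (g * x * g⁻¹ * x⁻¹) * x := by group
    show g * x * g⁻¹ ∈ U V y k Φ ε
    rw [he]
    refine ⟨(H V y k).mul_mem (V_le_H V y k hxS) hxH, fun χ hχ => ?_⟩
    rw [(hΦ χ hχ).1 _ (V_le_H V y k hxS) _ hxH, (hΦ χ hχ).2 _ hxS, zero_add]
    exact hx.2 χ hχ

theorem not_subset {k0 : ℕ} (hdist : ∀ m n, m < n → (y m)⁻¹ * y n ∉ V k0)
    {k : ℕ} {Φ : Finset (N → AddCircle (1 : ℝ))} (hΦ : ∀ χ ∈ Φ, IsChar V y k χ)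
    {ε : ℝ} (hε : 0 < ε) : ¬ (U V y k Φ ε ⊆ (V k0 : Set N)) := by
  intro hsub
  haveI : Fact ((0 : ℝ) < 1) := ⟨one_pos⟩
  let f : ℕ → (Φ → AddCircle (1 : ℝ)) := fun n χ => χ.1 (y (n + k))
  obtain ⟨a, φ, hφ, hlim⟩ := CompactSpace.tendsto_subseq f
  have h1 : ∀ᶠ i in atTop, dist (f (φ i)) a < ε / 2 :=
    (Metric.tendsto_nhds.1 hlim) (ε / 2) (half_pos hε)
  obtain ⟨i, hi⟩ := eventually_atTop.1 h1
  have hi1 := hi i le_rfl
  have hi2 := hi (i + 1) (Nat.le_succ i)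
  have hd : dist (f (φ i)) (f (φ (i + 1))) < ε := by
    calc dist (f (φ i)) (f (φ (i + 1))) ≤ dist (f (φ i)) a + dist (f (φ (i + 1))) a :=
          dist_triangle_right _ _ _
      _ < ε / 2 + ε / 2 := add_lt_add hi1 hi2
      _ = ε := add_halves ε
  have hlt : φ i < φ (i + 1) := hφ (Nat.lt_succ_self i)
  apply hdist (φ i + k) (φ (i + 1) + k) (Nat.add_lt_add_right hlt k)
  apply hsub
  have hm1 : y (φ i + k) ∈ H V y k := y_mem_H V y (Nat.le_add_left _ _)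
  have hm2 : y (φ (i + 1) + k) ∈ H V y k := y_mem_H V y (Nat.le_add_left _ _)
  refine ⟨(H V y k).mul_mem ((H V y k).inv_mem hm1) hm2, fun χ hχ => ?_⟩
  rw [(hΦ χ hχ).1 _ ((H V y k).inv_mem hm1) _ hm2, (hΦ χ hχ).inv hm1]
  have h3 : dist (f (φ i) ⟨χ, hχ⟩) (f (φ (i + 1)) ⟨χ, hχ⟩) < ε :=
    (dist_le_pi_dist _ _ _).trans_lt hd
  rw [dist_comm, dist_eq_norm] at h3
  have h4 : -χ (y (φ i + k)) + χ (y (φ (i + 1) + k)) =
      f (φ (i + 1)) ⟨χ, hχ⟩ - f (φ i) ⟨χ, hχ⟩ := by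
    simp only [f]; abel
  rw [h4]
  exact h3

end seq

/-- **Lemma T.** -/
theorem exists_coarser {N : Type*} [Group N] (t : TopologicalSpace N) [IsTopologicalGroup N]
    [T2Space N] (V : ℕ → Subgroup N) (hV : Antitone V)
    (hbase : (𝓝 (1 : N)).HasBasis (fun _ : ℕ => True) (fun k => (V k : Set N)))
    (y : ℕ → N)
    (hnorm : ∀ j n, j ≤ n → y n ∈ Subgroup.normalizer (V j : Set N))
    (hcomm : ∀ m n, m < n → y n * y m * (y n)⁻¹ * (y m)⁻¹ ∈ V n)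
    (hcen : ∀ g k, ∃ l, ∀ n, l ≤ n → g * y n * g⁻¹ * (y n)⁻¹ ∈ V k)
    (k0 : ℕ) (hdist : ∀ m n, m < n → (y m)⁻¹ * y n ∉ V k0) :
    ∃ s : TopologicalSpace N, t ≤ s ∧ @IsTopologicalGroup N s _ ∧ @T2Space N s ∧ s ≠ t := by
  have hVn : ∀ k, (V k : Set N) ∈ 𝓝 (1 : N) := fun k => hbase.mem_of_mem trivial
  have hcen' : ∀ g k, ∃ l, k ≤ l ∧ (∀ v ∈ V l, g * v * g⁻¹ ∈ V k) ∧
      ∀ n, l ≤ n → g * y n * g⁻¹ * (y n)⁻¹ ∈ V k := by
    intro g k
    obtain ⟨l1, hl1⟩ := hcen g k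
    have hc : ContinuousAt (fun v : N => g * v * g⁻¹) 1 := by fun_prop
    have h2 : (fun v : N => g * v * g⁻¹) ⁻¹' (V k : Set N) ∈ 𝓝 (1 : N) := by
      apply hc.preimage_mem_nhds
      simpa using hVn k
    obtain ⟨l2, -, hl2⟩ := hbase.mem_iff.1 h2
    refine ⟨max k (max l1 l2), le_max_left _ _, ?_, ?_⟩
    · intro v hv
      exact hl2 (hV ((le_max_right _ _).trans (le_max_right _ _)) hv)
    · intro n hn
      exact hl1 n (((le_max_left _ _).trans (le_max_right _ _)).trans hn)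
  let B : GroupFilterBasis N := basis hV hnorm hcen'
  have hmemB : ∀ A : Set N, A ∈ B ↔ ∃ k Φ ε, 0 < ε ∧ (∀ χ ∈ Φ, IsChar V y k χ) ∧ A = U V y k Φ ε :=
    fun A => Iff.rfl
  refine ⟨B.topology, ?_, B.isTopologicalGroup, ?_, ?_⟩
  · -- coarser
    have hn : ∀ A : Set N, A ∈ @nhds N B.topology 1 → A ∈ 𝓝 (1 : N) := by
      intro A hA
      obtain ⟨C, hC, hCA⟩ := (B.nhds_one_hasBasis).mem_iff.1 hA
      obtain ⟨k, Φ, ε, hε, hΦ, rfl⟩ := (hmemB C).1 hC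
      exact mem_of_superset (hVn k) ((V_le_U hΦ hε).trans hCA)
    rw [le_iff_nhds]
    intro x A hA
    have h1 : (fun z => x * z) ⁻¹' A ∈ @nhds N B.topology 1 := by
      letI := B.topology
      haveI := B.isTopologicalGroup
      have hc : ContinuousAt (fun z : N => x * z) 1 := by fun_prop
      apply hc.preimage_mem_nhds
      simpa using hA
    have h2 := hn _ h1
    have hc : ContinuousAt (fun z : N => x⁻¹ * z) x := by fun_prop
    have h3 : (fun z : N => x⁻¹ * z) ⁻¹' ((fun z => x * z) ⁻¹' A) ∈ 𝓝 x := by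
      apply hc.preimage_mem_nhds
      simpa using h2
    refine mem_of_superset h3 ?_
    intro z hz
    simpa using hz
  · refine (@GroupFilterBasis.t2Space_iff_sInter_subset N _ B.topology B rfl).2 ?_
    intro x hx
    by_contra hne
    have hne' : x ≠ 1 := hne
    obtain ⟨k, -, hk⟩ := hbase.mem_iff.1 (isOpen_compl_singleton.mem_nhds (Ne.symm hne'))
    have hxV : x ∉ V k := fun h => hk h rfl
    by_cases hxH : x ∈ H V y k
    · obtain ⟨χ, hχ, hχx⟩ := exists_char hV hnorm hcomm k hxH hxV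
      have h1 : U V y k {χ} ‖χ x‖ ∈ B :=
        (hmemB _).2 ⟨k, {χ}, ‖χ x‖, norm_pos_iff.2 hχx, by simpa using hχ, rfl⟩
      have h2 := mem_sInter.1 hx _ h1
      exact lt_irrefl _ (h2.2 χ (Finset.mem_singleton_self χ))
    · have h1 : U V y k ∅ 1 ∈ B := (hmemB _).2 ⟨k, ∅, 1, one_pos, by simp, rfl⟩
      exact hxH (mem_sInter.1 hx _ h1).1
  · intro hs
    have h1 : (V k0 : Set N) ∈ @nhds N B.topology 1 := by
      rw [hs]; exact hVn k0
    obtain ⟨C, hC, hCA⟩ := (B.nhds_one_hasBasis).mem_iff.1 h1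
    obtain ⟨k, Φ, ε, hε, hΦ, rfl⟩ := (hmemB C).1 hC
    exact not_subset hdist hΦ hε hCA

end Usp
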