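import Pool.Agent.H430.UspProd

set_option linter.all false

namespace UspTdlc

open Filter Topology Set Usp

theorem exists_compact_open {N : Type*} [Group N] [TopologicalSpace N] [IsTopologicalGroup N]
    [T2Space N] [LocallyCompactSpace N] [TotallyDisconnectedSpace N] {O : Set N}
    (hO : O ∈ 𝓝 (1 : N)) :
    ∃ H : Subgroup N, (H : Set N) ⊆ O ∧ IsCompact (H : Set N) ∧ IsOpen (H : Set N) := by
  obtain ⟨K, hK1, hKO, hKc⟩ := local_compact_nhds hO
  obtain ⟨W, hW, h1W, hWK⟩ := (loc_compact_Haus_tot_disc_of_zero_dim (H := N)).mem_nhds_iff.1 hK1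
  have hWc : IsCompact W := hKc.of_isClosed_subset hW.1 hWK
  let H : Subgroup N :=
    { carrier := {x | ∀ w ∈ W, w * x ∈ W ∧ w * x⁻¹ ∈ W}
      one_mem' := by intro w hw; simpa using hw
      mul_mem' := by
        intro a b ha hb w hw
        constructor
        · rw [← mul_assoc]; exact (hb _ (ha w hw).1).1
        · rw [mul_inv_rev, ← mul_assoc]; exact (ha _ (hb w hw).2).2
      inv_mem' := by
        intro a ha w hw
        rw [inv_inv]
        exact ⟨(ha w hw).2, (ha w hw).1⟩ }
  have hHW : (H : Set N) ⊆ W := by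
    intro x hx
    have := (hx 1 h1W).1
    simpa using this
  have hHn : (H : Set N) ∈ 𝓝 (1 : N) := by
    have e1 : ∀ᶠ x in 𝓝 (1 : N), ∀ w ∈ W, w * x ∈ W := by
      refine hWc.eventually_forall_of_forall_eventually (P := fun x w => w * x ∈ W) ?_
      intro w hw
      have hc : ContinuousAt (fun p : N × N => p.2 * p.1) (1, w) := by fun_prop
      apply hc.preimage_mem_nhds
      apply hW.2.mem_nhds
      simpa using hw
    have e2 : ∀ᶠ x in 𝓝 (1 : N), ∀ w ∈ W, w * x⁻¹ ∈ W := by
      refine hWc.eventually_forall_of_forall_eventually (P := fun x w => w * x⁻¹ ∈ W) ?_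
      intro w hw
      have hc : ContinuousAt (fun p : N × N => p.2 * p.1⁻¹) (1, w) := by fun_prop
      apply hc.preimage_mem_nhds
      apply hW.2.mem_nhds
      simpa using hw
    filter_upwards [e1, e2] with x a1 a2 w hw
    exact ⟨a1 w hw, a2 w hw⟩
  have hHo : IsOpen (H : Set N) := Subgroup.isOpen_of_mem_nhds _ hHn
  exact ⟨H, hHW.trans (hWK.trans hKO), hWc.of_isClosed_subset (H.isClosed_of_isOpen hHo) hHW, hHo⟩

theorem exists_seq {N : Type*} [Group N] [TopologicalSpace N] [IsTopologicalGroup N]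
    [T2Space N] [LocallyCompactSpace N] [TotallyDisconnectedSpace N]
    [SecondCountableTopology N] :
    ∃ V : ℕ → Subgroup N, Antitone V ∧
      (𝓝 (1 : N)).HasBasis (fun _ : ℕ => True) (fun k => (V k : Set N)) ∧
      ∀ k, IsCompact (V k : Set N) := by
  obtain ⟨O, hO⟩ := (𝓝 (1 : N)).exists_antitone_basis
  choose H hH1 hH2 hH3 using fun n => exists_compact_open (hO.1.mem_of_mem (i := n) trivial)
  let V : ℕ → Subgroup N := fun k =>
    { carrier := {x | ∀ n ≤ k, x ∈ H n}
      one_mem' := fun n _ => (H n).one_mem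
      mul_mem' := fun ha hb n hn => (H n).mul_mem (ha n hn) (hb n hn)
      inv_mem' := fun ha n hn => (H n).inv_mem (ha n hn) }
  have hVn : ∀ k, (V k : Set N) ∈ 𝓝 (1 : N) := by
    intro k
    have : ∀ᶠ x in 𝓝 (1 : N), ∀ n ≤ k, x ∈ H n := by
      refine ((Set.finite_Iic k).eventually_all (l := 𝓝 (1 : N)) (p := fun n x => x ∈ H n)).2 ?_
      intro n _
      exact (hH3 n).mem_nhds (H n).one_mem
    exact this
  refine ⟨V, ?_, ?_, ?_⟩
  · intro k l hkl x hx n hn
    exact hx n (hn.trans hkl)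
  · refine ⟨fun A => ⟨fun hA => ?_, ?_⟩⟩
    · obtain ⟨k, -, hk⟩ := hO.1.mem_iff.1 hA
      exact ⟨k, trivial, fun x hx => hk (hH1 k (hx k le_rfl))⟩
    · rintro ⟨k, -, hk⟩
      exact mem_of_superset (hVn k) hk
  · intro k
    refine (hH2 0).of_isClosed_subset ((V k).isClosed_of_isOpen
      (Subgroup.isOpen_of_mem_nhds _ (hVn k))) ?_
    intro x hx
    exact hx 0 (Nat.zero_le _)

universe u v

theorem product_minimal {ι : Type u} (G : ι → Type v) [∀ i, Group (G i)] [t : ∀ i, TopologicalSpace (G i)]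
    (hmin : ∀ i, IsMinimal (G i) (t i))
    (hcase : ∀ i, (LocallyCompactSpace (G i) ∧ TotallyDisconnectedSpace (G i) ∧
        SecondCountableTopology (G i)) ∨
      (IsCompact (Subgroup.center (G i) : Set (G i)) ∧
        IsMinimal (G i ⧸ Subgroup.center (G i)) (QuotientGroup.instTopologicalSpace _))) :
    IsMinimal (∀ i, G i) Pi.topologicalSpace := by
  classical
  haveI : ∀ i, IsTopologicalGroup (G i) := fun i => (hmin i).1
  haveI : ∀ i, T2Space (G i) := fun i => (hmin i).2.1
  refine ⟨inferInstance, inferInstance, ?_⟩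
  intro σ hσ hσg hσt
  have he : @Continuous _ _ Pi.topologicalSpace σ (MulEquiv.refl (∀ i, G i)) :=
    continuous_id_iff_le.2 hσ
  have hZ : ∀ i, IsCompact (Subgroup.center (G i) : Set (G i)) := by
    intro i
    rcases hcase i with ⟨h1, h2, h3⟩ | h
    · obtain ⟨V, hV1, hV2, hV3⟩ := exists_seq (N := G i)
      obtain ⟨d, hd⟩ := TopologicalSpace.exists_dense_seq (G i)
      exact isCompact_center (t i) (hmin i) V hV1 hV2 hV3 d hd
    · exact h.1
  have hQ : ∀ i, ∀ O ∈ 𝓝 (1 : G i), ∀ᶠ x in @nhds (∀ i, G i) σ (1 : ∀ i, G i),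
      ∃ z ∈ Subgroup.center (G i), ∃ v ∈ O, (MulEquiv.refl (∀ i, G i)).symm x i = z * v := by
    intro i O hO
    have hc : @Continuous (G i) (∀ i, G i) (t i) σ (MonoidHom.mulSingle G i) := by
      have h1 : @Continuous (G i) (∀ i, G i) (t i) Pi.topologicalSpace (MonoidHom.mulSingle G i) :=
        continuous_mulSingle i
      exact @Continuous.comp (G i) (∀ i, G i) (∀ i, G i) (t i) Pi.topologicalSpace σ _ _ he h1
    have hinj : Function.Injective (MonoidHom.mulSingle G i) := Pi.mulSingle_injective i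
    have hconj : ∀ (x : ∀ i, G i) (g : G i), MonoidHom.mulSingle G i
        (Pi.evalMonoidHom G i x * g * (Pi.evalMonoidHom G i x)⁻¹) =
        x * MonoidHom.mulSingle G i g * x⁻¹ := by
      intro x g
      funext j
      by_cases h : j = i
      · subst h
        simp
      · simp [h]
    rcases hcase i with ⟨h1, h2, h3⟩ | h
    · obtain ⟨V, hV1, hV2, hV3⟩ := exists_seq (N := G i)
      obtain ⟨d, hd⟩ := TopologicalSpace.exists_dense_seq (G i)
      exact @quot_tdlc (∀ i, G i) (G i) _ _ σ hσg hσt (t i) (hmin i) (MonoidHom.mulSingle G i)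
        hinj hc (Pi.evalMonoidHom G i) hconj V hV1 hV2 hV3 d hd O hO
    · exact @quot_min (∀ i, G i) (G i) _ _ σ hσg hσt (t i) (hmin i) (MonoidHom.mulSingle G i)
        hinj hc (Pi.evalMonoidHom G i) (fun g => by simp) hconj h.2 O hO
  have hfin := @merson ι G _ _ _ _ (∀ i, G i) _ σ hσg hσt (MulEquiv.refl _) he hZ hQ
  exact le_antisymm (continuous_id_iff_le.1 hfin) hσ

end UspTdlc
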