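import Mathlib

set_option linter.all false

/-!
Group topologies generated by words with weights.
-/

namespace Usp

open Filter Topology Set

section words

variable {N : Type*} [Group N]

/-- `Wd V y m r x`: `x` is a product of letters, the letters being elements of `V n` (weight `2^{-n}`)
and `y n`, `(y n)⁻¹` with `n < m` (weight `2^{-n}`), of total weight `r`. -/
inductive Wd (V : ℕ → Set N) (y : ℕ → N) (m : ℕ) : ℝ → N → Prop
  | one : Wd V y m 0 1
  | cv {r : ℝ} {x : N} {n : ℕ} {v : N} : v ∈ V n → Wd V y m r x → Wd V y m ((1/2)^n + r) (v * x)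
  | cy {r : ℝ} {x : N} {n : ℕ} : n < m → Wd V y m r x → Wd V y m ((1/2)^n + r) (y n * x)
  | ci {r : ℝ} {x : N} {n : ℕ} : n < m → Wd V y m r x → Wd V y m ((1/2)^n + r) ((y n)⁻¹ * x)

variable {V : ℕ → Set N} {y : ℕ → N} {m : ℕ}

theorem pw (n : ℕ) : (0 : ℝ) < (1/2)^n := by positivity

theorem pws (n : ℕ) : ((1/2 : ℝ))^n = (1/2)^(n+1) + (1/2)^(n+1) := by
  rw [pow_succ]; ring

theorem Wd.nonneg {r : ℝ} {x : N} (h : Wd V y m r x) : 0 ≤ r := by
  induction h with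
  | one => exact le_rfl
  | cv _ _ ih => exact add_nonneg (pw _).le ih
  | cy _ _ ih => exact add_nonneg (pw _).le ih
  | ci _ _ ih => exact add_nonneg (pw _).le ih

theorem Wd.mono {m' : ℕ} (hm : m ≤ m') {r : ℝ} {x : N} (h : Wd V y m r x) : Wd V y m' r x := by
  induction h with
  | one => exact Wd.one
  | cv hv _ ih => exact Wd.cv hv ih
  | cy hn _ ih => exact Wd.cy (hn.trans_le hm) ih
  | ci hn _ ih => exact Wd.ci (hn.trans_le hm) ih

theorem Wd.congr {y' : ℕ → N} (hy : ∀ n < m, y n = y' n) {r : ℝ} {x : N} (h : Wd V y m r x) :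
    Wd V y' m r x := by
  induction h with
  | one => exact Wd.one
  | cv hv _ ih => exact Wd.cv hv ih
  | cy hn _ ih => rw [hy _ hn]; exact Wd.cy hn ih
  | ci hn _ ih => rw [hy _ hn]; exact Wd.ci hn ih

theorem Wd.mul {r r' : ℝ} {x x' : N} (h : Wd V y m r x) (h' : Wd V y m r' x') :
    Wd V y m (r + r') (x * x') := by
  induction h with
  | one => simpa using h'
  | cv hv _ ih => rw [add_assoc, mul_assoc]; exact Wd.cv hv ih
  | cy hn _ ih => rw [add_assoc, mul_assoc]; exact Wd.cy hn ih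
  | ci hn _ ih => rw [add_assoc, mul_assoc]; exact Wd.ci hn ih

theorem Wd.lv {n : ℕ} {v : N} (hv : v ∈ V n) : Wd V y m ((1/2)^n) v := by
  simpa using Wd.cv (y := y) (m := m) hv Wd.one

theorem Wd.ly {n : ℕ} (hn : n < m) : Wd V y m ((1/2)^n) (y n) := by
  simpa using Wd.cy (V := V) (y := y) hn Wd.one

theorem Wd.li {n : ℕ} (hn : n < m) : Wd V y m ((1/2)^n) ((y n)⁻¹) := by
  simpa using Wd.ci (V := V) (y := y) hn Wd.one

theorem Wd.inv (hsym : ∀ n, ∀ v ∈ V n, v⁻¹ ∈ V n) {r : ℝ} {x : N} (h : Wd V y m r x) :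
    Wd V y m r x⁻¹ := by
  induction h with
  | one => simpa using Wd.one (V := V) (y := y) (m := m)
  | cv hv _ ih => rw [mul_inv_rev, add_comm]; exact ih.mul (Wd.lv (hsym _ _ hv))
  | cy hn _ ih => rw [mul_inv_rev, add_comm]; exact ih.mul (Wd.li hn)
  | ci hn _ ih => rw [mul_inv_rev, inv_inv, add_comm]; exact ih.mul (Wd.ly hn)

/-! ### Birkhoff-Kakutani for lists -/

theorem split_list (l : List (ℕ × N)) (hl : l ≠ []) (T : ℝ) (hT0 : 0 ≤ T)
    (hT : T < (l.map fun p => ((1/2 : ℝ))^p.1).sum) :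
    ∃ l1 a l2, l = l1 ++ a :: l2 ∧ (l1.map fun p => ((1/2 : ℝ))^p.1).sum ≤ T ∧
      T < (l1.map fun p => ((1/2 : ℝ))^p.1).sum + (1/2)^a.1 := by
  induction l generalizing T with
  | nil => exact absurd rfl hl
  | cons b l ih =>
    by_cases hb : T < (1/2 : ℝ)^b.1
    · exact ⟨[], b, l, rfl, by simpa using hT0, by simpa using hb⟩
    · push Not at hb
      have hT' : T - (1/2 : ℝ)^b.1 < (l.map fun p => ((1/2 : ℝ))^p.1).sum := by
        rw [List.map_cons, List.sum_cons] at hT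
        linarith
      have hl' : l ≠ [] := by
        rintro rfl
        rw [List.map_nil, List.sum_nil] at hT'
        linarith
      obtain ⟨l1, a, l2, h1, h2, h3⟩ := ih hl' (T - (1/2 : ℝ)^b.1) (by linarith) hT'
      refine ⟨b :: l1, a, l2, by rw [h1]; rfl, ?_, ?_⟩
      · rw [List.map_cons, List.sum_cons]; linarith
      · rw [List.map_cons, List.sum_cons]; linarith

theorem bk_list (h1 : ∀ n, (1 : N) ∈ V n)
    (h3 : ∀ n, ∀ a ∈ V (n+1), ∀ b ∈ V (n+1), ∀ c ∈ V (n+1), a * b * c ∈ V n) :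
    ∀ (L : ℕ) (l : List (ℕ × N)), l.length ≤ L → (∀ p ∈ l, p.2 ∈ V p.1) → ∀ j : ℕ,
      (l.map fun p => ((1/2 : ℝ))^p.1).sum < (1/2)^j → (l.map Prod.snd).prod ∈ V j := by
  have hanti : ∀ n m, n ≤ m → V m ⊆ V n := by
    intro n m hnm
    induction hnm with
    | refl => exact subset_rfl
    | step _ ih =>
      refine Subset.trans ?_ ih
      intro v hv
      simpa using h3 _ v hv 1 (h1 _) 1 (h1 _)
  intro L
  induction L with
  | zero =>
    intro l hl _ j _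
    have : l = [] := List.length_eq_zero_iff.1 (Nat.le_zero.1 hl)
    subst this
    simpa using h1 j
  | succ L ih =>
    intro l hl hlV j hj
    by_cases hnil : l = []
    · subst hnil; simpa using h1 j
    have hnn : ∀ l' : List (ℕ × N), 0 ≤ (l'.map fun p => ((1/2 : ℝ))^p.1).sum := by
      intro l'
      apply List.sum_nonneg
      intro a ha
      obtain ⟨p, _, rfl⟩ := List.mem_map.1 ha
      exact (pw _).le
    set S := (l.map fun p => ((1/2 : ℝ))^p.1).sum with hS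
    have hSpos : 0 < S := by
      obtain ⟨b, l', rfl⟩ := List.exists_cons_of_ne_nil hnil
      rw [hS, List.map_cons, List.sum_cons]
      have := hnn l'
      have := pw b.1
      linarith
    obtain ⟨l1, a, l2, hl12, hs1, hs2⟩ := split_list l hnil (S / 2) (by linarith) (by linarith)
    have hSe : S = (l1.map fun p => ((1/2 : ℝ))^p.1).sum +
        ((1/2)^a.1 + (l2.map fun p => ((1/2 : ℝ))^p.1).sum) := by
      rw [hS, hl12, List.map_append, List.sum_append, List.map_cons, List.sum_cons]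
    have hjs := pws j
    have hlen : l1.length + (l2.length + 1) ≤ L + 1 := by
      rw [hl12] at hl
      simpa using hl
    have e1 : (l1.map Prod.snd).prod ∈ V (j+1) := by
      apply ih l1 (by omega) (fun p hp => hlV p (by rw [hl12]; simp [hp]))
      linarith
    have e2 : (l2.map Prod.snd).prod ∈ V (j+1) := by
      apply ih l2 (by omega) (fun p hp => hlV p (by rw [hl12]; simp [hp]))
      linarith
    have e3 : a.2 ∈ V (j+1) := by
      have ha : a.2 ∈ V a.1 := hlV a (by rw [hl12]; simp)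
      have h4 : (1/2 : ℝ)^a.1 < (1/2)^j := by
        have := hnn l1
        have := hnn l2
        linarith
      have h5 : j < a.1 := by
        by_contra hcon
        push Not at hcon
        have := pow_le_pow_of_le_one (by norm_num : (0:ℝ) ≤ 1/2) (by norm_num : (1/2 : ℝ) ≤ 1) hcon
        linarith
      exact hanti _ _ h5 ha
    have : (l.map Prod.snd).prod = (l1.map Prod.snd).prod * a.2 * (l2.map Prod.snd).prod := by
      rw [hl12, List.map_append, List.prod_append, List.map_cons, List.prod_cons, mul_assoc]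
    rw [this]
    exact h3 _ _ e1 _ e3 _ e2

theorem Wd.exists_list {r : ℝ} {x : N} (h : Wd V y 0 r x) :
    ∃ l : List (ℕ × N), (∀ p ∈ l, p.2 ∈ V p.1) ∧ (l.map fun p => ((1/2 : ℝ))^p.1).sum = r ∧
      (l.map Prod.snd).prod = x := by
  induction h with
  | one => exact ⟨[], by simp, by simp, by simp⟩
  | @cv r x n v hv _ ih =>
    obtain ⟨l, h1, h2, h3⟩ := ih
    refine ⟨(n, v) :: l, ?_, ?_, ?_⟩
    · intro p hp
      rcases List.mem_cons.1 hp with rfl | hp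
      · exact hv
      · exact h1 p hp
    · rw [List.map_cons, List.sum_cons, h2]
    · rw [List.map_cons, List.prod_cons, h3]
  | cy hn _ _ => exact absurd hn (Nat.not_lt_zero _)
  | ci hn _ _ => exact absurd hn (Nat.not_lt_zero _)

theorem Wd.bk (h1 : ∀ n, (1 : N) ∈ V n)
    (h3 : ∀ n, ∀ a ∈ V (n+1), ∀ b ∈ V (n+1), ∀ c ∈ V (n+1), a * b * c ∈ V n)
    {r : ℝ} {x : N} (h : Wd V y 0 r x) {j : ℕ} (hr : r < (1/2)^j) : x ∈ V j := by
  obtain ⟨l, hl1, hl2, hl3⟩ := h.exists_list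
  rw [← hl3]
  exact bk_list h1 h3 l.length l le_rfl hl1 j (by rw [hl2]; exact hr)

/-- collecting the letters `y n` -/
theorem Wd.collect {n : ℕ} {D : Set N}
    (hD : ∀ r x, r < 1 → Wd V y n r x → x ∈ D)
    (hy : ∀ c ∈ D, y n * c * (y n)⁻¹ * c⁻¹ ∈ V (n+1) ∧ (y n)⁻¹ * c * y n * c⁻¹ ∈ V (n+1))
    {r : ℝ} {x : N} (h : Wd V y (n+1) r x) (hr : r < 1) :
    ∃ (s : ℕ) (k : ℤ) (x' : N), |k| ≤ s ∧ s * (1/2)^n ≤ r ∧
      Wd V y n (r - s * (1/2)^(n+1)) x' ∧ x = x' * (y n)^k := by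
  induction h with
  | one => exact ⟨0, 0, 1, by simp, by simp, by simpa using Wd.one, by simp⟩
  | @cv r x m v hv hw ih =>
    have := pw m
    obtain ⟨s, k, x', h1, h2, h3, h4⟩ := ih (by linarith)
    refine ⟨s, k, v * x', h1, by linarith, ?_, by rw [h4, mul_assoc]⟩
    have h5 := Wd.cv hv h3
    rwa [← add_sub_assoc] at h5
  | @cy r x m hm hw ih =>
    have := pw m
    obtain ⟨s, k, x', h1, h2, h3, h4⟩ := ih (by linarith)
    rcases Nat.lt_succ_iff_lt_or_eq.1 hm with hlt | rfl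
    · refine ⟨s, k, y m * x', h1, by linarith, ?_, by rw [h4, mul_assoc]⟩
      have h5 := Wd.cy hlt h3
      rwa [← add_sub_assoc] at h5
    · have hs : (0 : ℝ) ≤ s * (1/2)^(m+1) := by positivity
      have hx' : x' ∈ D := hD _ _ (by linarith) h3
      refine ⟨s + 1, k + 1, (y m * x' * (y m)⁻¹ * x'⁻¹) * x', ?_, ?_, ?_, ?_⟩
      · push_cast
        calc |k + 1| ≤ |k| + |1| := abs_add_le _ _
          _ ≤ s + 1 := by simpa using h1
      · push_cast; linarith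
      · have h5 := Wd.cv (hy x' hx').1 h3
        have h6 := pws m
        have h7 : (1/2 : ℝ)^(m+1) + (r - s * (1/2)^(m+1)) = (1/2)^m + r - ((s + 1 : ℕ) : ℝ) * (1/2)^(m+1) := by
          push_cast; linarith
        rwa [h7] at h5
      · rw [h4]; group
  | @ci r x m hm hw ih =>
    have := pw m
    obtain ⟨s, k, x', h1, h2, h3, h4⟩ := ih (by linarith)
    rcases Nat.lt_succ_iff_lt_or_eq.1 hm with hlt | rfl
    · refine ⟨s, k, (y m)⁻¹ * x', h1, by linarith, ?_, by rw [h4, mul_assoc]⟩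
      have h5 := Wd.ci hlt h3
      rwa [← add_sub_assoc] at h5
    · have hs : (0 : ℝ) ≤ s * (1/2)^(m+1) := by positivity
      have hx' : x' ∈ D := hD _ _ (by linarith) h3
      refine ⟨s + 1, k - 1, ((y m)⁻¹ * x' * y m * x'⁻¹) * x', ?_, ?_, ?_, ?_⟩
      · push_cast
        calc |k - 1| ≤ |k| + |1| := abs_sub _ _
          _ ≤ s + 1 := by simpa using h1
      · push_cast; linarith
      · have h5 := Wd.cv (hy x' hx').2 h3
        have h6 := pws m
        have h7 : (1/2 : ℝ)^(m+1) + (r - s * (1/2)^(m+1)) = (1/2)^m + r - ((s + 1 : ℕ) : ℝ) * (1/2)^(m+1) := by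
          push_cast; linarith
        rwa [h7] at h5
      · rw [h4]; group

/-- reduction of the largest letter -/
theorem Wd.red (hanti : Antitone V) (h1 : ∀ n, (1 : N) ∈ V n) {C : ℕ → Set N} (hC : Monotone C) {n : ℕ} {D : Set N}
    (hD : ∀ r x, r < 1 → Wd V y n r x → x ∈ D)
    (hy : ∀ c ∈ D, y n * c * (y n)⁻¹ * c⁻¹ ∈ V (n+1) ∧ (y n)⁻¹ * c * y n * c⁻¹ ∈ V (n+1))
    (hp : ∀ k : ℤ, |k| ≤ (2^n : ℕ) → (y n)^k ∈ V (n+1) ∨ ∀ a ∈ D, ∀ c ∈ C n, (y n)^k ≠ a⁻¹ * c)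
    {r : ℝ} {x : N} (h : Wd V y (n+1) r x) {j : ℕ} (hr : r < (1/2)^j) (hx : x ∈ C j) :
    ∃ r' ≤ r, Wd V y n r' x := by
  have hr1 : r < 1 := hr.trans_le (pow_le_one₀ (by norm_num) (by norm_num))
  obtain ⟨s, k, x', a1, a2, a3, a4⟩ := h.collect hD hy hr1
  have hsn : (0 : ℝ) ≤ s * (1/2)^(n+1) := by positivity
  rcases Nat.eq_zero_or_pos s with rfl | hs
  · have hk : k = 0 := by simpa using a1
    subst hk
    refine ⟨r - (0 : ℕ) * (1/2)^(n+1), by simp, ?_⟩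
    rw [a4]
    simpa using a3
  · have hs1 : (1 : ℝ) ≤ s := by exact_mod_cast hs
    have hpn := pw n
    have hpn1 := pw (n+1)
    have hpns := pws n
    have hlt : (1/2 : ℝ)^n < (1/2)^j := by nlinarith
    have hjn : j ≤ n := by
      by_contra hcon
      push Not at hcon
      have := pow_le_pow_of_le_one (by norm_num : (0:ℝ) ≤ 1/2) (by norm_num : (1/2 : ℝ) ≤ 1) hcon.le
      linarith
    have hs2 : (s : ℝ) ≤ 2^n := by
      have h5 : (s : ℝ) * (1/2)^n * 2^n ≤ 1 * 2^n := by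
        apply mul_le_mul_of_nonneg_right (by linarith) (by positivity)
      rw [mul_assoc, ← mul_pow] at h5
      simpa using h5
    have hs3 : (s : ℤ) ≤ ((2^n : ℕ) : ℤ) := by
      have : s ≤ 2^n := by exact_mod_cast hs2
      exact_mod_cast this
    rcases hp k (a1.trans hs3) with hv | hfar
    · refine ⟨(r - s * (1/2)^(n+1)) + (1/2)^(n+1), ?_, ?_⟩
      · nlinarith
      · rw [a4]
        exact a3.mul (Wd.lv hv)
    · exfalso
      refine hfar x' (hD _ _ (by linarith) a3) x (hC hjn hx) ?_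
      rw [a4]; group

theorem Wd.descend (hanti : Antitone V) (h1 : ∀ n, (1 : N) ∈ V n) {C : ℕ → Set N}
    (hC : Monotone C) {D : ℕ → Set N}
    (hD : ∀ n r x, r < 1 → Wd V y n r x → x ∈ D n)
    (hy : ∀ n, ∀ c ∈ D n, y n * c * (y n)⁻¹ * c⁻¹ ∈ V (n+1) ∧ (y n)⁻¹ * c * y n * c⁻¹ ∈ V (n+1))
    (hp : ∀ n, ∀ k : ℤ, |k| ≤ (2^n : ℕ) →
      (y n)^k ∈ V (n+1) ∨ ∀ a ∈ D n, ∀ c ∈ C n, (y n)^k ≠ a⁻¹ * c)
    {r : ℝ} {x : N} (h : Wd V y m r x) {j : ℕ} (hr : r < (1/2)^j) (hx : x ∈ C j) :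
    ∃ r' ≤ r, Wd V y 0 r' x := by
  induction m generalizing r with
  | zero => exact ⟨r, le_rfl, h⟩
  | succ m ih =>
    obtain ⟨r', h1', h2'⟩ := Wd.red hanti h1 hC (hD m) (hy m) (hp m) h hr hx
    obtain ⟨r'', h3', h4'⟩ := ih h2' (h1'.trans_lt hr)
    exact ⟨r'', h3'.trans h1', h4'⟩

theorem Wd.conj {C D : ℕ → Set N} (hC : Monotone C) (hanti : Antitone V)
    (hcv : ∀ n, ∀ g ∈ C n, ∀ v ∈ V (n+1), g * v * g⁻¹ ∈ V n)
    (hCD : ∀ n, C n ⊆ D n) (hsym : ∀ n, ∀ v ∈ V n, v⁻¹ ∈ V n)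
    (hy : ∀ n, ∀ c ∈ D n, y n * c * (y n)⁻¹ * c⁻¹ ∈ V (n+1) ∧ (y n)⁻¹ * c * y n * c⁻¹ ∈ V (n+1))
    {p : ℕ} {g : N} (hg : g ∈ C p) {r : ℝ} {x : N} (h : Wd V y m r x) (hr : r < (1/2)^p) :
    Wd V y m (2 * r) (g * x * g⁻¹) := by
  have hnp : ∀ (n : ℕ) (r : ℝ), 0 ≤ r → (1/2 : ℝ)^n + r < (1/2)^p → p < n := by
    intro n r hr0 hr
    by_contra hcon
    push Not at hcon
    have := pow_le_pow_of_le_one (by norm_num : (0:ℝ) ≤ 1/2) (by norm_num : (1/2 : ℝ) ≤ 1) hcon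
    linarith
  induction h with
  | one => simpa using Wd.one (V := V) (y := y) (m := m)
  | @cv r x n v hv hw ih =>
    have hn := hnp n r hw.nonneg hr
    have hr' : r < (1/2)^p := by have := pw n; linarith
    obtain ⟨n, rfl⟩ : ∃ n', n = n' + 1 := ⟨n - 1, by omega⟩
    have h1 := hcv n g (hC (by omega : p ≤ n) hg) v hv
    have h2 := Wd.cv h1 (ih hr')
    have h3 : g * v * g⁻¹ * (g * x * g⁻¹) = g * (v * x) * g⁻¹ := by group
    have h4 : (1/2 : ℝ)^n + 2 * r = 2 * ((1/2)^(n+1) + r) := by rw [pow_succ]; ring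
    rwa [h3, h4] at h2
  | @cy r x n hnm hw ih =>
    have hn := hnp n r hw.nonneg hr
    have hr' : r < (1/2)^p := by have := pw n; linarith
    have h1 := hanti (Nat.le_succ n) (hsym _ _ (hy n g (hCD n (hC hn.le hg))).1)
    have h2 := Wd.cv h1 (Wd.cy hnm (ih hr'))
    have h3 : (y n * g * (y n)⁻¹ * g⁻¹)⁻¹ * (y n * (g * x * g⁻¹)) = g * (y n * x) * g⁻¹ := by group
    have h4 : (1/2 : ℝ)^n + ((1/2)^n + 2 * r) = 2 * ((1/2)^n + r) := by ring
    rwa [h3, h4] at h2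
  | @ci r x n hnm hw ih =>
    have hn := hnp n r hw.nonneg hr
    have hr' : r < (1/2)^p := by have := pw n; linarith
    have h1 := hanti (Nat.le_succ n) (hsym _ _ (hy n g (hCD n (hC hn.le hg))).2)
    have h2 := Wd.cv h1 (Wd.ci hnm (ih hr'))
    have h3 : ((y n)⁻¹ * g * y n * g⁻¹)⁻¹ * ((y n)⁻¹ * (g * x * g⁻¹)) = g * ((y n)⁻¹ * x) * g⁻¹ := by
      group
    have h4 : (1/2 : ℝ)^n + ((1/2)^n + 2 * r) = 2 * ((1/2)^n + r) := by ring
    rwa [h3, h4] at h2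

variable (V y) in
/-- the basic neighbourhoods -/
def WN (j : ℕ) : Set N := {x | ∃ m r, r < (1/2)^j ∧ Wd V y m r x}

/-- the group filter basis of the word topology -/
def wbasis {C D : ℕ → Set N} (hC : Monotone C) (hCe : ∀ g, ∃ p, g ∈ C p) (hanti : Antitone V)
    (hcv : ∀ n, ∀ g ∈ C n, ∀ v ∈ V (n+1), g * v * g⁻¹ ∈ V n)
    (hCD : ∀ n, C n ⊆ D n) (hsym : ∀ n, ∀ v ∈ V n, v⁻¹ ∈ V n)
    (hy : ∀ n, ∀ c ∈ D n, y n * c * (y n)⁻¹ * c⁻¹ ∈ V (n+1) ∧ (y n)⁻¹ * c * y n * c⁻¹ ∈ V (n+1)) :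
    GroupFilterBasis N where
  sets := {A | ∃ j, A = WN V y j}
  nonempty := ⟨WN V y 0, 0, rfl⟩
  inter_sets := by
    rintro _ _ ⟨i, rfl⟩ ⟨j, rfl⟩
    refine ⟨WN V y (max i j), ⟨_, rfl⟩, ?_⟩
    rintro x ⟨m, r, hr, hw⟩
    have hle : ∀ i k : ℕ, i ≤ k → (1/2 : ℝ)^k ≤ (1/2)^i := fun i k hik =>
      pow_le_pow_of_le_one (by norm_num) (by norm_num) hik
    exact ⟨⟨m, r, hr.trans_le (hle _ _ (le_max_left _ _)), hw⟩,
      ⟨m, r, hr.trans_le (hle _ _ (le_max_right _ _)), hw⟩⟩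
  one' := by
    rintro _ ⟨j, rfl⟩
    exact ⟨0, 0, pw j, Wd.one⟩
  mul' := by
    rintro _ ⟨j, rfl⟩
    refine ⟨WN V y (j+1), ⟨_, rfl⟩, ?_⟩
    rintro _ ⟨a, ⟨m, r, hr, hw⟩, b, ⟨m', r', hr', hw'⟩, rfl⟩
    refine ⟨max m m', r + r', ?_, (hw.mono (le_max_left _ _)).mul (hw'.mono (le_max_right _ _))⟩
    have := pws j
    linarith
  inv' := by
    rintro _ ⟨j, rfl⟩
    refine ⟨WN V y j, ⟨_, rfl⟩, ?_⟩
    rintro x ⟨m, r, hr, hw⟩
    exact ⟨m, r, hr, hw.inv hsym⟩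
  conj' := by
    rintro g _ ⟨j, rfl⟩
    obtain ⟨p, hp⟩ := hCe g
    refine ⟨WN V y (max p j + 1), ⟨_, rfl⟩, ?_⟩
    rintro x ⟨m, r, hr, hw⟩
    have hle : ∀ i k : ℕ, i ≤ k → (1/2 : ℝ)^k ≤ (1/2)^i := fun i k hik =>
      pow_le_pow_of_le_one (by norm_num) (by norm_num) hik
    have h1 := hle p (max p j + 1) (by omega)
    have h2 := hle j (max p j) (le_max_right _ _)
    have h3 := pws (max p j)
    exact ⟨m, 2 * r, by linarith, hw.conj hC hanti hcv hCD hsym hy hp (by linarith)⟩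

end words

/-- **word topology theorem** -/
theorem exists_coarser_words {N : Type*} [Group N] (t : TopologicalSpace N) [IsTopologicalGroup N]
    [T2Space N] (V : ℕ → Set N) (y : ℕ → N) (C D : ℕ → Set N)
    (hbase : (𝓝 (1 : N)).HasBasis (fun _ : ℕ => True) V)
    (h3 : ∀ n, ∀ a ∈ V (n+1), ∀ b ∈ V (n+1), ∀ c ∈ V (n+1), a * b * c ∈ V n)
    (hsym : ∀ n, ∀ v ∈ V n, v⁻¹ ∈ V n)
    (hC : Monotone C) (hCe : ∀ g, ∃ p, g ∈ C p)
    (hcv : ∀ n, ∀ g ∈ C n, ∀ v ∈ V (n+1), g * v * g⁻¹ ∈ V n)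
    (hCD : ∀ n, C n ⊆ D n)
    (hD : ∀ n r x, r < 1 → Wd V y n r x → x ∈ D n)
    (hy : ∀ n, ∀ c ∈ D n, y n * c * (y n)⁻¹ * c⁻¹ ∈ V (n+1) ∧ (y n)⁻¹ * c * y n * c⁻¹ ∈ V (n+1))
    (hp : ∀ n, ∀ k : ℤ, |k| ≤ (2^n : ℕ) →
      (y n)^k ∈ V (n+1) ∨ ∀ a ∈ D n, ∀ c ∈ C n, (y n)^k ≠ a⁻¹ * c)
    (hy0 : ∀ n, y n ∉ V 0) :
    ∃ s : TopologicalSpace N, t ≤ s ∧ @IsTopologicalGroup N s _ ∧ @T2Space N s ∧ s ≠ t := by
  have h1 : ∀ n, (1 : N) ∈ V n := fun n => mem_of_mem_nhds (hbase.mem_of_mem trivial)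
  have hanti : Antitone V := by
    apply antitone_nat_of_succ_le
    intro n v hv
    simpa using h3 _ v hv 1 (h1 _) 1 (h1 _)
  let B : GroupFilterBasis N := wbasis hC hCe hanti hcv hCD hsym hy
  have hmemB : ∀ A : Set N, A ∈ B ↔ ∃ j, A = WN V y j := fun A => Iff.rfl
  refine ⟨B.topology, ?_, B.isTopologicalGroup, ?_, ?_⟩
  · have hn : ∀ A : Set N, A ∈ @nhds N B.topology 1 → A ∈ 𝓝 (1 : N) := by
      intro A hA
      obtain ⟨E, hE, hEA⟩ := (B.nhds_one_hasBasis).mem_iff.1 hA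
      obtain ⟨j, rfl⟩ := (hmemB E).1 hE
      refine mem_of_superset (hbase.mem_of_mem (i := j + 1) trivial) (Subset.trans ?_ hEA)
      intro v hv
      refine ⟨0, _, ?_, Wd.lv hv⟩
      have := pws j
      have := pw (j+1)
      linarith
    rw [le_iff_nhds]
    intro x A hA
    have h1 : (fun z => x * z) ⁻¹' A ∈ @nhds N B.topology 1 := by
      letI := B.topology
      haveI := B.isTopologicalGroup
      have hc : ContinuousAt (fun z : N => x * z) 1 := by fun_prop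
      apply hc.preimage_mem_nhds
      simpa using hA
    have h2 := hn _ h1
    have hc : ContinuousAt (fun z : N => x⁻¹ * z) x := by fun_prop
    have h3 : (fun z : N => x⁻¹ * z) ⁻¹' ((fun z => x * z) ⁻¹' A) ∈ 𝓝 x := by
      apply hc.preimage_mem_nhds
      simpa using h2
    refine mem_of_superset h3 ?_
    intro z hz
    simpa using hz
  · refine (@GroupFilterBasis.t2Space_iff_sInter_subset N _ B.topology B rfl).2 ?_
    intro x hx
    by_contra hne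
    have hne' : x ≠ 1 := hne
    obtain ⟨k, -, hk⟩ := hbase.mem_iff.1 (isOpen_compl_singleton.mem_nhds (Ne.symm hne'))
    obtain ⟨p, hpx⟩ := hCe x
    have hxV : x ∉ V (max k p) := fun h => hk (hanti (le_max_left _ _) h) rfl
    obtain ⟨m, r, hr, hw⟩ := mem_sInter.1 hx _ ((hmemB _).2 ⟨max k p, rfl⟩)
    obtain ⟨r', hr', hw'⟩ := Wd.descend hanti h1 hC hD hy hp hw hr (hC (le_max_right _ _) hpx)
    exact hxV (hw'.bk h1 h3 (hr'.trans_lt hr))
  · intro hs
    have h4 : V 0 ∈ @nhds N B.topology 1 := by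
      rw [hs]; exact hbase.mem_of_mem (i := 0) trivial
    obtain ⟨E, hE, hEA⟩ := (B.nhds_one_hasBasis).mem_iff.1 h4
    obtain ⟨j, rfl⟩ := (hmemB E).1 hE
    apply hy0 (j+1)
    apply hEA
    refine ⟨j + 2, _, ?_, Wd.ly (by omega : j + 1 < j + 2)⟩
    have := pws j
    have := pw (j+1)
    linarith

end Usp
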